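import Pool.Agent.Helper20.REC.JZSa

/-!
# JZS: lattices in irreducible modules over the rational numbers   [helper20]
-/

set_option autoImplicit false

open scoped Classical

namespace REC

namespace JZS

/-- lattices in a vector space over a division algebra -/
theorem main_D (hJZD : ST_JZD) {D V : Type} [DivisionRing D] [Algebra ℚ D] [FiniteDimensional ℚ D]
    [AddCommGroup V] [Module ℚ V] [Module D V] [IsScalarTower ℚ D V] [FiniteDimensional ℚ V]
    [Nontrivial V] (S : Set (V → V))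
    (hS : ∀ f : V →ₗ[D] V, ∃ n : ℕ, 0 < n ∧ ∃ s ∈ S, ∀ v, n • f v = s v) :
    ∃ T : Set (Submodule ℤ V), T.Finite ∧ ∀ Λ : Submodule ℤ V, St S Λ →
      ∃ d : D, d ≠ 0 ∧ ∀ f : V →ₗ[ℤ] V, (∀ v, f v = d • v) → Λ.map f ∈ T := by
  by_cases hex : ∃ Λ : Submodule ℤ V, St S Λ
  swap
  · exact ⟨∅, Set.finite_empty, fun Λ hΛ => absurd ⟨Λ, hΛ⟩ hex⟩
  obtain ⟨Λ₀, hΛ₀⟩ := hex
  have : Module.Finite D V := Module.Finite.of_restrictScalars_finite ℚ D V
  let b := Module.finBasis D V
  have hpos : 0 < Module.finrank D V := Module.finrank_pos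
  let i₀ : Fin (Module.finrank D V) := ⟨0, hpos⟩
  have hv0 : b i₀ ≠ 0 := b.ne_zero i₀
  obtain ⟨T', hT', h1⟩ := hJZD Dᵐᵒᵖ (Gam S (b i₀)) (gam_fg S _ hv0 Λ₀ hΛ₀) (gam_span S b i₀ hS)
  -- the denominators
  choose n hn s hs hns using fun i => hS ((LinearMap.toSpanSingleton D V (b i₀)).comp (b.coord i))
  choose m hm t ht hmt using fun i => hS ((LinearMap.toSpanSingleton D V (b i)).comp (b.coord i₀))
  let N : ℕ := (∏ i, n i) * ∏ i, m i
  have hN : 0 < N := Nat.mul_pos (Finset.prod_pos fun i _ => hn i) (Finset.prod_pos fun i _ => hm i)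
  have hNn : ∀ i, n i ∣ N := fun i =>
    (Finset.dvd_prod_of_mem n (Finset.mem_univ i)).trans (Dvd.intro _ rfl)
  have hNm : ∀ i, m i ∣ N := fun i =>
    (Finset.dvd_prod_of_mem m (Finset.mem_univ i)).trans (Dvd.intro_left _ rfl)
  have hA : ∀ (Λ : Submodule ℤ V), St S Λ → ∀ v ∈ Λ, ∀ i, N • (b.coord i v • b i₀) ∈ Λ := by
    intro Λ hΛ v hv i
    obtain ⟨c, hc⟩ := hNn i
    have h2 := hΛ.2.2 _ (hs i) v hv
    rw [← hns] at h2
    rw [hc, mul_comm, mul_smul]
    exact Λ.toAddSubmonoid.nsmul_mem h2 c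
  have hB : ∀ (Λ : Submodule ℤ V), St S Λ → ∀ (d : D), d • b i₀ ∈ Λ → ∀ i, N • (d • b i) ∈ Λ := by
    intro Λ hΛ d hd i
    obtain ⟨c, hc⟩ := hNm i
    have h2 := hΛ.2.2 _ (ht i) _ hd
    rw [← hmt] at h2
    rw [hc, mul_comm, mul_smul]
    have h3 : ((LinearMap.toSpanSingleton D V (b i)).comp (b.coord i₀)) (d • b i₀) = d • b i := by
      simp
    rw [h3] at h2
    exact Λ.toAddSubmonoid.nsmul_mem h2 c
  refine ⟨⋃ J' ∈ {J' ∈ T' | J'.FG}, {L : Submodule ℤ V | (∀ v ∈ Mm b J', N • v ∈ L) ∧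
    ∀ v ∈ L, N • v ∈ Mm b J'}, ?_, ?_⟩
  · refine Set.Finite.biUnion (hT'.subset (Set.sep_subset _ _)) ?_
    intro J' hJ'
    exact finite_between _ (mm_fg b J' hJ'.2) N hN
  intro Λ hΛ
  let J : Submodule ℤ Dᵐᵒᵖ := Λ.comap (ev (b i₀))
  have hJ : ∀ x : Dᵐᵒᵖ, x ∈ J ↔ x.unop • b i₀ ∈ Λ := fun x => Iff.rfl
  have hJfg : J.FG := by
    refine fg_of_inj J Λ hΛ.1 (ev (b i₀)) (fun x hx => hx) ?_
    intro x hx
    rcases smul_eq_zero.mp hx with h | h
    · exact MulOpposite.unop_injective (by simpa using h)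
    · exact absurd h hv0
  have hJspan : Submodule.span ℚ (J : Set Dᵐᵒᵖ) = ⊤ := by
    rw [eq_top_iff]
    intro x _
    obtain ⟨k, hk, hk1⟩ := exists_nsmul_mem Λ (v := x.unop • b i₀)
      (hΛ.2.1 ▸ Submodule.mem_top)
    have h3 : x = ((k : ℚ)⁻¹) • (k • x) := by
      rw [← Nat.cast_smul_eq_nsmul ℚ k x, smul_smul, inv_mul_cancel₀ (by positivity), one_smul]
    rw [h3]
    refine Submodule.smul_mem _ _ (Submodule.subset_span ?_)
    change k • x ∈ J
    rw [hJ, MulOpposite.unop_smul, ← smul_comm']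
    exact hk1
  obtain ⟨δ, hδ, hδT⟩ := h1 J hJfg hJspan (by
    intro γ hγ x hx
    rw [hJ, MulOpposite.unop_mul]
    exact hγ Λ hΛ _ hx)
  refine ⟨δ.unop, fun h => hδ (MulOpposite.unop_injective (by simpa using h)), ?_⟩
  intro f hf
  simp only [Set.mem_iUnion]
  refine ⟨J.map (LinearMap.mulRight ℤ δ), ⟨hδT, hJfg.map _⟩, ?_, ?_⟩
  · intro v hv
    have h4 : ∀ i, ∃ x : Dᵐᵒᵖ, x ∈ J ∧ x * δ = MulOpposite.op (b.coord i v) := by
      intro i
      obtain ⟨x, hx, hx'⟩ := hv i
      exact ⟨x, hx, by simpa using hx'⟩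
    choose x hx hx' using h4
    refine ⟨∑ i, N • ((x i).unop • b i), ?_, ?_⟩
    · exact Λ.sum_mem fun i _ => hB Λ hΛ _ (hx i) i
    · rw [hf, Finset.smul_sum]
      have h5 : ∀ i, δ.unop • N • ((x i).unop • b i) = N • (b.coord i v • b i) := by
        intro i
        rw [smul_comm, smul_smul, ← MulOpposite.unop_mul, hx' i, MulOpposite.unop_op]
      rw [Finset.sum_congr rfl fun i _ => h5 i, ← Finset.smul_sum]
      congr 1
      simpa using b.sum_repr v
  · rintro _ ⟨w, hw, rfl⟩ i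
    refine ⟨MulOpposite.op (N • b.coord i w), ?_, ?_⟩
    · change (N • b.coord i w) • b i₀ ∈ Λ
      rw [← smul_comm']
      exact hA Λ hΛ w hw i
    · rw [hf, map_nsmul, map_smul, LinearMap.mulRight_apply]
      apply MulOpposite.unop_injective
      simp only [MulOpposite.unop_mul, MulOpposite.unop_op, smul_eq_mul]
      rw [mul_smul_comm]

/-- a positive multiple of an element of the rational algebra lies in the ring -/
theorem exists_nsmul_closure {A : Type} [Ring A] [Algebra ℚ A] (X : Set A) {a : A}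
    (ha : a ∈ Algebra.adjoin ℚ X) : ∃ n : ℕ, 0 < n ∧ n • a ∈ Subring.closure X := by
  induction ha using Algebra.adjoin_induction with
  | mem x hx => exact ⟨1, one_pos, by simpa using Subring.subset_closure hx⟩
  | algebraMap q =>
    refine ⟨q.den, q.den_pos, ?_⟩
    have h1 : q.den • algebraMap ℚ A q = ((q.num : ℤ) : A) := by
      rw [← map_nsmul, nsmul_eq_mul, q.den_mul_eq_num]
      simp
    rw [h1]
    exact intCast_mem _ _
  | add x y _ _ hx hy =>
    obtain ⟨n, hn, hx⟩ := hx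
    obtain ⟨m, hm, hy⟩ := hy
    refine ⟨n * m, Nat.mul_pos hn hm, ?_⟩
    rw [nsmul_add]
    refine add_mem ?_ ?_
    · rw [mul_comm, mul_smul]; exact nsmul_mem hx m
    · rw [mul_smul]; exact nsmul_mem hy n
  | mul x y _ _ hx hy =>
    obtain ⟨n, hn, hx⟩ := hx
    obtain ⟨m, hm, hy⟩ := hy
    refine ⟨n * m, Nat.mul_pos hn hm, ?_⟩
    have h1 : (n * m) • (x * y) = (n • x) * (m • y) := by
      rw [smul_mul_smul_comm]
    rw [h1]
    exact mul_mem hx hy

end JZS

open JZS in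
theorem st_JZS (hJZD : ST_JZD) : ST_JZS := by
  intro V X _ _ _ ρ hirr
  by_cases hV : Subsingleton V
  · refine ⟨Set.univ, ?_, ?_⟩
    · haveI : Subsingleton (Submodule ℤ V) := by
        refine ⟨fun a c => ?_⟩
        ext x
        rw [Subsingleton.elim x 0]
        simp
      exact Set.toFinite _
    · intro Λ _ _ _
      exact ⟨LinearEquiv.refl ℚ V, fun x v => rfl, Set.mem_univ _⟩
  have hV' : Nontrivial V := not_subsingleton_iff_nontrivial.mp hV
  let B : Subalgebra ℚ (Module.End ℚ V) := Algebra.adjoin ℚ (Set.range ρ)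
  have hB : ∀ (b : B) (v : V), b • v = (b : Module.End ℚ V) v := fun b v => rfl
  have hρB : ∀ x, ρ x ∈ B := fun x => Algebra.subset_adjoin ⟨x, rfl⟩
  haveI h1 : IsScalarTower ℚ B V := ⟨fun q b v => by
    rw [hB, hB]; rfl⟩
  haveI h2 : SMulCommClass B ℚ V := ⟨fun b q v => by
    rw [hB, hB, map_smul]⟩
  haveI h3 : IsSimpleModule B V := by
    rw [isSimpleModule_iff]
    refine { exists_pair_ne := ⟨⊥, ⊤, bot_ne_top⟩, eq_bot_or_eq_top := ?_ }
    intro W
    rcases hirr (W.restrictScalars ℚ) (fun x v hv => W.smul_mem ⟨ρ x, hρB x⟩ hv) with h | h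
    · left
      rw [eq_bot_iff]
      intro v hv
      have : v ∈ W.restrictScalars ℚ := hv
      rw [h] at this
      simpa using this
    · right
      rw [eq_top_iff]
      intro v _
      have : v ∈ W.restrictScalars ℚ := by rw [h]; trivial
      exact this
  haveI h4 : FiniteDimensional ℚ (Module.End B V) := by
    let φ : Module.End B V →ₗ[ℚ] Module.End ℚ V :=
      { toFun := fun f => f.restrictScalars ℚ
        map_add' := fun f g => rfl
        map_smul' := fun q f => rfl }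
    refine Module.Finite.of_injective φ ?_
    intro f g hfg
    ext v
    exact congrArg (fun k : Module.End ℚ V => k v) hfg
  haveI h5 : IsScalarTower ℚ (Module.End B V) V := ⟨fun q f v => rfl⟩
  haveI h6 : Module.Finite (Module.End B V) V :=
    Module.Finite.of_restrictScalars_finite ℚ (Module.End B V) V
  let S : Set (V → V) := {g | ∃ r ∈ Subring.closure (Set.range ρ), g = fun v => r v}
  obtain ⟨T, hT, hT'⟩ := main_D hJZD (D := Module.End B V) (V := V) S (by
    intro f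
    obtain ⟨r, hr⟩ := Module.Finite.toModuleEnd_moduleEnd_surjective (R := B) (M := V) f
    obtain ⟨n, hn, h⟩ := exists_nsmul_closure (Set.range ρ) r.2
    refine ⟨n, hn, _, ⟨n • (r : Module.End ℚ V), h, rfl⟩, ?_⟩
    intro v
    rw [← hr]
    rfl)
  refine ⟨T, hT, ?_⟩
  intro Λ hΛ1 hΛ2 hΛ3
  have hSt : St S Λ := by
    refine ⟨hΛ1, hΛ2, ?_⟩
    rintro _ ⟨r, hr, rfl⟩
    induction hr using Subring.closure_induction with
    | mem x hx =>
      obtain ⟨y, rfl⟩ := hx
      exact fun v hv => hΛ3 y v hv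
    | zero => intro v _; simp
    | one => intro v hv; simpa using hv
    | add x y _ _ hx hy => intro v hv; exact Λ.add_mem (hx v hv) (hy v hv)
    | neg x _ hx => intro v hv; exact Λ.neg_mem (hx v hv)
    | mul x y _ _ hx hy => intro v hv; exact hx _ (hy v hv)
  obtain ⟨d, hd, hdT⟩ := hT' Λ hSt
  have hbij : Function.Bijective d := LinearMap.bijective_of_ne_zero hd
  refine ⟨LinearEquiv.ofBijective (d.restrictScalars ℚ) hbij, ?_, ?_⟩
  · intro x v
    exact d.map_smul (⟨ρ x, hρB x⟩ : B) v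
  · exact hdT _ (fun v => rfl)

end REC
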