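import Pool.Agent.Helper85.REC.Stmts10

/-!
# JZS, first part: lattices in a vector space over a division algebra   [helper20]
-/

set_option autoImplicit false

open scoped Classical

namespace REC.JZS

/-- a positive multiple of an element of the rational span lies in the group -/
theorem exists_nsmul_mem {V : Type} [AddCommGroup V] [Module ℚ V] (Λ : Submodule ℤ V) {v : V}
    (hv : v ∈ Submodule.span ℚ (Λ : Set V)) : ∃ n : ℕ, 0 < n ∧ n • v ∈ Λ := by
  induction hv using Submodule.span_induction with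
  | mem x hx => exact ⟨1, one_pos, by simpa using hx⟩
  | zero => exact ⟨1, one_pos, by simp⟩
  | add x y _ _ hx hy =>
    obtain ⟨n, hn, hx⟩ := hx
    obtain ⟨m, hm, hy⟩ := hy
    refine ⟨n * m, Nat.mul_pos hn hm, ?_⟩
    rw [nsmul_add]
    refine Λ.add_mem ?_ ?_
    · rw [mul_comm, mul_smul]; exact Λ.toAddSubmonoid.nsmul_mem hx m
    · rw [mul_smul]; exact Λ.toAddSubmonoid.nsmul_mem hy n
  | smul q x _ hx =>
    obtain ⟨n, hn, hx⟩ := hx
    refine ⟨q.den * n, Nat.mul_pos q.den_pos hn, ?_⟩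
    have h1 : (q.den * n) • (q • x) = q.num • (n • x) := by
      rw [← Nat.cast_smul_eq_nsmul ℚ (q.den * n), ← Nat.cast_smul_eq_nsmul ℚ n x,
        ← Int.cast_smul_eq_zsmul ℚ q.num, smul_smul, smul_smul]
      congr 1
      push_cast
      have := q.den_mul_eq_num
      rw [← this]; ring
    rw [h1]
    exact Λ.smul_mem _ hx

/-- finitely many groups between two lattices -/
theorem finite_between {V : Type} [AddCommGroup V] [Module ℚ V] (M : Submodule ℤ V) (hM : M.FG)
    (N : ℕ) (hN : 0 < N) :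
    {L : Submodule ℤ V | (∀ v ∈ M, N • v ∈ L) ∧ ∀ v ∈ L, N • v ∈ M}.Finite := by
  haveI : Module.Finite ℤ M := Module.Finite.iff_fg.mpr hM
  let P : Submodule ℤ M := LinearMap.range (LinearMap.lsmul ℤ M ((N * N : ℕ) : ℤ))
  have hP : ∀ x : M, x ∈ P ↔ ∃ y : M, (N * N) • (y : V) = x := by
    intro x
    constructor
    · rintro ⟨y, hy⟩
      refine ⟨y, ?_⟩
      rw [← hy]
      simp [← Nat.cast_smul_eq_nsmul ℤ]
    · rintro ⟨y, hy⟩
      refine ⟨y, ?_⟩
      apply Subtype.ext
      rw [← hy]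
      simp [← Nat.cast_smul_eq_nsmul ℤ]
  haveI : Finite (M ⧸ P) := by
    apply Module.finite_of_fg_torsion
    intro x
    obtain ⟨y, rfl⟩ := Submodule.Quotient.mk_surjective _ x
    refine ⟨⟨((N * N : ℕ) : ℤ), mem_nonZeroDivisors_of_ne_zero (by positivity)⟩, ?_⟩
    rw [Submonoid.smul_def, ← Submodule.Quotient.mk_smul, Submodule.Quotient.mk_eq_zero]
    exact ⟨y, rfl⟩
  refine Set.Finite.of_finite_image (f := fun L : Submodule ℤ V =>
    {q : M ⧸ P | ∃ (v : V) (_ : v ∈ L) (h : N • v ∈ M), q = Submodule.Quotient.mk ⟨N • v, h⟩})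
    (Set.toFinite _) ?_
  have key : ∀ L L' : Submodule ℤ V, ((∀ v ∈ M, N • v ∈ L) ∧ ∀ v ∈ L, N • v ∈ M) →
      ((∀ v ∈ M, N • v ∈ L') ∧ ∀ v ∈ L', N • v ∈ M) →
      {q : M ⧸ P | ∃ (v : V) (_ : v ∈ L) (h : N • v ∈ M),
        q = Submodule.Quotient.mk ⟨N • v, h⟩} ⊆
      {q : M ⧸ P | ∃ (v : V) (_ : v ∈ L') (h : N • v ∈ M),
        q = Submodule.Quotient.mk ⟨N • v, h⟩} → L ≤ L' := by
    intro L L' hL hL' h v hv
    obtain ⟨w, hw, h1, h2⟩ := h ⟨v, hv, hL.2 v hv, rfl⟩
    rw [Submodule.Quotient.eq, hP] at h2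
    obtain ⟨y, hy⟩ := h2
    have h3 : N • (N • (y : V)) = N • (v - w) := by
      rw [smul_smul, hy, smul_sub]; rfl
    have h4 : N • (y : V) = v - w := by
      have h5 : (N : ℚ) ≠ 0 := by positivity
      rw [← Nat.cast_smul_eq_nsmul ℚ N (N • (y : V)), ← Nat.cast_smul_eq_nsmul ℚ N (v - w)] at h3
      exact smul_right_injective V h5 h3
    have h6 : v = N • (y : V) + w := by rw [h4]; abel
    rw [h6]
    exact L'.add_mem (hL'.1 _ y.2) hw
  intro L hL L' hL' h
  exact le_antisymm (key L L' hL hL' h.le) (key L' L hL' hL h.ge)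

/-- a group which embeds into a finitely generated group is finitely generated -/
theorem fg_of_inj {V W : Type} [AddCommGroup V] [AddCommGroup W] (J : Submodule ℤ V)
    (Λ : Submodule ℤ W) (hΛ : Λ.FG) (φ : V →ₗ[ℤ] W) (h1 : ∀ x ∈ J, φ x ∈ Λ)
    (h2 : ∀ x, φ x = 0 → x = 0) : J.FG := by
  haveI : Module.Finite ℤ Λ := Module.Finite.iff_fg.mpr hΛ
  rw [← Module.Finite.iff_fg]
  refine Module.Finite.of_injective (φ.restrict h1) ?_
  rw [injective_iff_map_eq_zero]
  intro x hx
  apply Subtype.ext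
  apply h2
  simpa using congrArg Subtype.val hx

section

variable {D V : Type} [DivisionRing D] [Algebra ℚ D] [FiniteDimensional ℚ D] [AddCommGroup V]
  [Module ℚ V] [Module D V] [IsScalarTower ℚ D V] [FiniteDimensional ℚ V]

/-- stable lattices -/
def St (S : Set (V → V)) (Λ : Submodule ℤ V) : Prop :=
  Λ.FG ∧ Submodule.span ℚ (Λ : Set V) = ⊤ ∧ ∀ s ∈ S, ∀ v ∈ Λ, s v ∈ Λ

/-- the maps `x ↦ x v` on the opposite ring -/
def ev (v : V) : Dᵐᵒᵖ →ₗ[ℤ] V where
  toFun x := x.unop • v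
  map_add' x y := by simp [add_smul]
  map_smul' n x := by
    simp only [MulOpposite.unop_smul, eq_intCast, Int.cast_id]
    rw [← Int.cast_smul_eq_zsmul D n x.unop, ← Int.cast_smul_eq_zsmul D n (x.unop • v), smul_assoc]

omit [Algebra ℚ D] [FiniteDimensional ℚ D] [Module ℚ V] [IsScalarTower ℚ D V]
  [FiniteDimensional ℚ V] in
theorem ev_apply (v : V) (x : Dᵐᵒᵖ) : ev v x = x.unop • v := rfl

/-- the right order -/
def Gam (S : Set (V → V)) (v : V) : Subring Dᵐᵒᵖ where
  carrier := {γ | ∀ Λ : Submodule ℤ V, St S Λ → ∀ d : D, d • v ∈ Λ → (d * γ.unop) • v ∈ Λ}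
  mul_mem' := by
    intro a b ha hb Λ hΛ d hd
    rw [MulOpposite.unop_mul, ← mul_assoc]
    exact ha Λ hΛ _ (hb Λ hΛ _ hd)
  one_mem' := by
    intro Λ _ d hd
    simpa using hd
  add_mem' := by
    intro a b ha hb Λ hΛ d hd
    rw [MulOpposite.unop_add, mul_add, add_smul]
    exact Λ.add_mem (ha Λ hΛ _ hd) (hb Λ hΛ _ hd)
  zero_mem' := by
    intro Λ _ d _
    simp
  neg_mem' := by
    intro a ha Λ hΛ d hd
    rw [MulOpposite.unop_neg, mul_neg, neg_smul]
    exact Λ.neg_mem (ha Λ hΛ _ hd)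

omit [FiniteDimensional ℚ D] [FiniteDimensional ℚ V] in
theorem smul_comm' (n : ℕ) (d : D) (v : V) : n • d • v = (n • d) • v := by
  rw [← Nat.cast_smul_eq_nsmul D n (d • v), ← Nat.cast_smul_eq_nsmul D n d, smul_smul, smul_eq_mul]

omit [FiniteDimensional ℚ D] in
/-- the right order is a lattice -/
theorem gam_fg (S : Set (V → V)) (v : V) (hv : v ≠ 0) (Λ : Submodule ℤ V) (hΛ : St S Λ) :
    Submodule.FG (AddSubgroup.toIntSubmodule (Gam (D := D) S v).toAddSubgroup) := by
  obtain ⟨n, hn, h1⟩ := exists_nsmul_mem Λ (v := v) (hΛ.2.1 ▸ Submodule.mem_top)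
  have hn' : ((n : ℕ) : D) ≠ 0 := by
    haveI : CharZero D := algebraRat.charZero D
    exact_mod_cast hn.ne'
  refine fg_of_inj _ Λ hΛ.1 ((ev v).comp (LinearMap.lsmul ℤ Dᵐᵒᵖ (n : ℤ))) ?_ ?_
  · intro x hx
    have h2 := hx Λ hΛ (n : D) (by rwa [Nat.cast_smul_eq_nsmul])
    simp only [LinearMap.comp_apply, LinearMap.lsmul_apply, ev_apply, MulOpposite.unop_smul]
    rw [← nsmul_eq_mul] at h2
    simpa using h2
  · intro x hx
    simp only [LinearMap.comp_apply, LinearMap.lsmul_apply, ev_apply, MulOpposite.unop_smul] at hx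
    rcases smul_eq_zero.mp hx with h | h
    · rw [Nat.cast_smul_eq_nsmul ℤ, nsmul_eq_mul] at h
      have := (mul_eq_zero.mp h).resolve_left hn'
      exact MulOpposite.unop_injective (by simpa using this)
    · exact absurd h hv

omit [FiniteDimensional ℚ D] in
theorem gam_span (S : Set (V → V)) {ι : Type} (b : Module.Basis ι D V) (i₀ : ι)
    (hS : ∀ f : V →ₗ[D] V, ∃ n : ℕ, 0 < n ∧ ∃ s ∈ S, ∀ v, n • f v = s v) :
    Submodule.span ℚ (Gam (D := D) S (b i₀) : Set Dᵐᵒᵖ) = ⊤ := by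
  rw [eq_top_iff]
  intro x _
  obtain ⟨n, hn, s, hs, h⟩ :=
    hS ((LinearMap.toSpanSingleton D V (x.unop • b i₀)).comp (b.coord i₀))
  have h1 : n • x ∈ Gam (D := D) S (b i₀) := by
    intro Λ hΛ d hd
    have h2 := hΛ.2.2 s hs _ hd
    rw [← h] at h2
    simp only [LinearMap.comp_apply, LinearMap.toSpanSingleton_apply, map_smul,
      Module.Basis.coord_apply, Module.Basis.repr_self, Finsupp.single_eq_same,
      one_mul, smul_smul] at h2
    rw [smul_comm'] at h2
    rw [MulOpposite.unop_smul, mul_smul_comm]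
    exact h2
  have h3 : x = ((n : ℚ)⁻¹) • (n • x) := by
    rw [← Nat.cast_smul_eq_nsmul ℚ n x, smul_smul, inv_mul_cancel₀ (by positivity), one_smul]
  rw [h3]
  exact Submodule.smul_mem _ _ (Submodule.subset_span h1)

/-- the coordinates lie in `J` -/
def Mm {ι : Type} (b : Module.Basis ι D V) (J : Submodule ℤ Dᵐᵒᵖ) : Submodule ℤ V where
  carrier := {v | ∀ i, MulOpposite.op (b.coord i v) ∈ J}
  add_mem' := by
    intro x y hx hy i
    rw [map_add, MulOpposite.op_add]
    exact J.add_mem (hx i) (hy i)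
  zero_mem' := by
    intro i
    simp
  smul_mem' := by
    intro n x hx i
    rw [map_zsmul, MulOpposite.op_smul]
    exact J.smul_mem n (hx i)

omit [Algebra ℚ D] [FiniteDimensional ℚ D] [Module ℚ V] [IsScalarTower ℚ D V]
  [FiniteDimensional ℚ V] in
theorem mm_fg {ι : Type} [Finite ι] (b : Module.Basis ι D V) (J : Submodule ℤ Dᵐᵒᵖ) (hJ : J.FG) :
    (Mm b J).FG := by
  haveI : Module.Finite ℤ J := Module.Finite.iff_fg.mpr hJ
  rw [← Module.Finite.iff_fg]
  let φ : Mm b J →ₗ[ℤ] (ι → J) :=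
    { toFun := fun v i => ⟨MulOpposite.op (b.coord i v), v.2 i⟩
      map_add' := by
        intro x y
        funext i
        apply Subtype.ext
        simp
      map_smul' := by
        intro n x
        funext i
        apply Subtype.ext
        change MulOpposite.op (b.coord i (n • (x : V))) = n • MulOpposite.op (b.coord i (x : V))
        rw [map_zsmul, MulOpposite.op_smul] }
  refine Module.Finite.of_injective φ ?_
  rw [injective_iff_map_eq_zero]
  intro x hx
  apply Subtype.ext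
  apply b.ext_elem
  intro i
  have := congrArg Subtype.val (congrFun hx i)
  simp only [φ, LinearMap.coe_mk, AddHom.coe_mk, Pi.zero_apply, ZeroMemClass.coe_zero] at this
  simpa using MulOpposite.op_injective (by simpa using this : MulOpposite.op (b.coord i x) = MulOpposite.op 0)

end

end REC.JZS
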