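import Pool.Agent.Helper20.REC.SplitK

/-!
# Norms of totally positive elements, congruences of norms in Galois extensions
-/

set_option autoImplicit false

open scoped Classical
open scoped Pointwise
open NumberField

namespace REC

open Pool.Agent.Helper13.ZL (Pl q)
open MU (Gal Zb Over CongPow)
open POVaux

namespace TAMaux

variable {F K : Type} [Field F] [NumberField F] [Field K] [NumberField K] [Algebra F K]

/-- the relative norm of a totally positive element is totally positive -/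
theorem norm_totPos (y : K) (hy : y ≠ 0) (ht : TotPos y) : TotPos (Algebra.norm F y) := by
  intro t
  letI : Algebra F ℂ := (Complex.ofRealHom.comp t).toAlgebra
  have halg : ∀ x : F, algebraMap F ℂ x = ((t x : ℝ) : ℂ) := fun x => rfl
  have h1 : ((t (Algebra.norm F y) : ℝ) : ℂ) = ∏ f : K →ₐ[F] ℂ, f y := by
    rw [← halg, Algebra.norm_eq_prod_embeddings]
  let c : (K →ₐ[F] ℂ) → (K →ₐ[F] ℂ) := fun f =>
    { (starRingEnd ℂ).comp (f : K →+* ℂ) with
      commutes' := fun x => by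
        show (starRingEnd ℂ) (f (algebraMap F K x)) = algebraMap F ℂ x
        rw [AlgHom.commutes, halg, Complex.conj_ofReal] }
  have hc : ∀ f x, c f x = (starRingEnd ℂ) (f x) := fun _ _ => rfl
  have hne : ∀ f : K →ₐ[F] ℂ, f y ≠ 0 := fun f => by
    rw [Ne, map_eq_zero]
    exact hy
  have h2 : ∏ f : K →ₐ[F] ℂ, (f y / (‖f y‖ : ℂ)) = 1 := by
    refine Finset.prod_involution (fun f _ => c f) ?_ ?_ (fun _ _ => Finset.mem_univ _) ?_
    · intro f _
      have h3 : (‖f y‖ : ℂ) ≠ 0 := by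
        exact_mod_cast (norm_ne_zero_iff.2 (hne f))
      rw [hc, RCLike.norm_conj, div_mul_div_comm, Complex.mul_conj, Complex.normSq_eq_norm_sq]
      field_simp
      push_cast
      ring
    · intro f _ h3 h4
      apply h3
      have hr : ComplexEmbedding.IsReal (f : K →+* ℂ) := by
        rw [ComplexEmbedding.isReal_iff]
        ext x
        have := DFunLike.congr_fun h4 x
        exact this
      have h5 : ((hr.embedding y : ℝ) : ℂ) = f y := hr.coe_embedding_apply y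
      have h6 : 0 < hr.embedding y := ht _
      rw [← h5, Complex.norm_of_nonneg h6.le]
      exact div_self (by exact_mod_cast h6.ne')
    · intro f _
      ext x
      rw [hc, hc, Complex.conj_conj]
  have h3 : ∏ f : K →ₐ[F] ℂ, f y = ((∏ f : K →ₐ[F] ℂ, ‖f y‖ : ℝ) : ℂ) := by
    have h4 : ∏ f : K →ₐ[F] ℂ, f y = (∏ f : K →ₐ[F] ℂ, (f y / (‖f y‖ : ℂ))) *
        ∏ f : K →ₐ[F] ℂ, (‖f y‖ : ℂ) := by
      rw [← Finset.prod_mul_distrib]
      refine Finset.prod_congr rfl fun f _ => ?_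
      rw [div_mul_cancel₀]
      exact_mod_cast (norm_ne_zero_iff.2 (hne f))
    rw [h4, h2, one_mul]
    push_cast
    rfl
  rw [h3] at h1
  have h5 : t (Algebra.norm F y) = ∏ f : K →ₐ[F] ℂ, ‖f y‖ := Complex.ofReal_injective h1
  rw [h5]
  exact Finset.prod_pos fun f _ => norm_pos_iff.2 (hne f)

theorem norm_int_totPos (y : 𝓞 K) (hy : y ≠ 0) (ht : TotPos (y : K)) :
    TotPos ((RingOfIntegers.norm F y : 𝓞 F) : F) := by
  rw [RingOfIntegers.coe_norm]
  exact norm_totPos _ (by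
    intro h
    exact hy (RingOfIntegers.coe_eq_zero_iff.mp h)) ht

theorem norm_int_ne_zero (y : 𝓞 K) (hy : y ≠ 0) : (RingOfIntegers.norm F y : 𝓞 F) ≠ 0 := by
  intro h
  have h1 : ((RingOfIntegers.norm F y : 𝓞 F) : F) = 0 := by rw [h]; exact map_zero _
  rw [RingOfIntegers.coe_norm, Algebra.norm_eq_zero_iff] at h1
  exact hy (RingOfIntegers.coe_eq_zero_iff.mp h1)

theorem norm_prod [IsGalois F K] (y : 𝓞 K) :
    algebraMap (𝓞 F) (𝓞 K) (RingOfIntegers.norm F y) = ∏ τ : K ≃ₐ[F] K, τ • y := by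
  apply RingOfIntegers.ext
  have h1 : ((algebraMap (𝓞 F) (𝓞 K) (RingOfIntegers.norm F y) : 𝓞 K) : K) =
      algebraMap F K ((RingOfIntegers.norm F y : 𝓞 F) : F) := rfl
  rw [h1, RingOfIntegers.coe_norm, Algebra.norm_eq_prod_automorphisms]
  exact (map_prod (algebraMap (𝓞 K) K) (fun τ : K ≃ₐ[F] K => τ • y) Finset.univ).symm

theorem act_act_inv (τ : K ≃ₐ[F] K) (w : Pl K) : act τ (act τ⁻¹ w) = w := by
  apply IsDedekindDomain.HeightOneSpectrum.ext
  show τ • (τ⁻¹ • w.asIdeal) = w.asIdeal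
  rw [smul_inv_smul]

/-- if `y` is close to `1` at the conjugates of `w` then the conjugates of `y` are close to `1` at
`w` -/
theorem conj_near (τ : K ≃ₐ[F] K) (w : Pl K) (y : 𝓞 K) (M : ℕ)
    (h : y - 1 ∈ (act τ⁻¹ w).asIdeal ^ M) : τ • y - 1 ∈ w.asIdeal ^ M := by
  have h1 := (smul_mem_act τ (act τ⁻¹ w) (y - 1) M).mpr h
  rwa [act_act_inv, smul_sub, smul_one] at h1

theorem norm_near_one [IsGalois F K] {v : Pl F} {w : Pl K} (h : OvL v w) (M : ℕ) (y : 𝓞 K)
    (hy : ∀ w' : Pl K, OvL v w' → y - 1 ∈ w'.asIdeal ^ M) :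
    algebraMap (𝓞 F) (𝓞 K) (RingOfIntegers.norm F y - 1) ∈ w.asIdeal ^ M := by
  rw [map_sub, map_one, norm_prod, ← Ideal.Quotient.eq, map_prod, map_one]
  refine Finset.prod_eq_one fun τ _ => ?_
  rw [← map_one (Ideal.Quotient.mk (w.asIdeal ^ M)), Ideal.Quotient.eq]
  exact conj_near τ w y M (hy _ (ovL_act τ⁻¹ h))

theorem norm_near [IsGalois F K] {v : Pl F} {w : Pl K} (h : OvL v w)
    (hD : ∀ τ : K ≃ₐ[F] K, act τ w = w → τ = 1) (M : ℕ) (x : 𝓞 F) (y : 𝓞 K)
    (h1 : y - algebraMap (𝓞 F) (𝓞 K) x ∈ w.asIdeal ^ M)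
    (h2 : ∀ w' : Pl K, OvL v w' → w' ≠ w → y - 1 ∈ w'.asIdeal ^ M) :
    algebraMap (𝓞 F) (𝓞 K) (RingOfIntegers.norm F y - x) ∈ w.asIdeal ^ M := by
  rw [map_sub, norm_prod, ← Ideal.Quotient.eq, map_prod]
  rw [Finset.prod_eq_single 1]
  · rw [one_smul, Ideal.Quotient.eq]
    exact h1
  · intro τ _ hτ
    rw [← map_one (Ideal.Quotient.mk (w.asIdeal ^ M)), Ideal.Quotient.eq]
    refine conj_near τ w y M (h2 _ (ovL_act τ⁻¹ h) ?_)
    intro h3
    exact hτ (inv_eq_one.mp (hD _ h3))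
  · intro h3
    exact absurd (Finset.mem_univ _) h3

/-- descent of congruences -/
theorem mem_down {v : Pl F} {w : Pl K} (h : OvL v w) (n M : ℕ)
    (hM : n * v.asIdeal.ramificationIdx' w.asIdeal ≤ M) (a : 𝓞 F)
    (ha : algebraMap (𝓞 F) (𝓞 K) a ∈ w.asIdeal ^ M) : a ∈ v.asIdeal ^ n := by
  rw [← IsDedekindDomain.HeightOneSpectrum.intValuation_le_pow_iff_mem] at ha ⊢
  have h1 : w.valuation K (algebraMap F K (a : F)) =
      w.intValuation (algebraMap (𝓞 F) (𝓞 K) a) :=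
    IsDedekindDomain.HeightOneSpectrum.valuation_of_algebraMap w (algebraMap (𝓞 F) (𝓞 K) a)
  rw [← h1, val_down h] at ha
  have h2 : v.valuation F (a : F) = v.intValuation a :=
    IsDedekindDomain.HeightOneSpectrum.valuation_of_algebraMap v a
  rw [h2] at ha
  by_contra hlt
  rw [not_le] at hlt
  have h3 : WithZero.exp (-(n : ℤ)) ^ v.asIdeal.ramificationIdx' w.asIdeal <
      v.intValuation a ^ v.asIdeal.ramificationIdx' w.asIdeal :=
    pow_lt_pow_left₀ hlt zero_le (ram_pos h).ne'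
  have h4 := lt_of_lt_of_le h3 ha
  rw [← WithZero.exp_nsmul, WithZero.exp_lt_exp] at h4
  rw [nsmul_eq_mul] at h4
  have h5 : ((n * v.asIdeal.ramificationIdx' w.asIdeal : ℕ) : ℤ) ≤ (M : ℤ) := by exact_mod_cast hM
  push_cast at h5
  nlinarith

theorem ram_le [IsGalois F K] {v : Pl F} {w : Pl K} (h : OvL v w) :
    v.asIdeal.ramificationIdx' w.asIdeal ≤ Module.finrank F K := by
  have h1 := card_over v h
  have hpos : 0 < Module.finrank F K := Module.finrank_pos
  have h2 : v.asIdeal.ramificationIdx' w.asIdeal ∣ Module.finrank F K := by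
    rw [← h1]
    exact Dvd.dvd.mul_left (Dvd.intro _ rfl) _
  exact Nat.le_of_dvd hpos h2

/-- the residue fields -/
noncomputable def resHom {v : Pl F} {w : Pl K} (h : OvL v w) :
    (𝓞 F ⧸ v.asIdeal) →+* (𝓞 K ⧸ w.asIdeal) :=
  Ideal.quotientMap w.asIdeal (algebraMap (𝓞 F) (𝓞 K)) (fun u hu => (h u).mpr hu)

theorem resHom_mk {v : Pl F} {w : Pl K} (h : OvL v w) (u : 𝓞 F) :
    resHom h (Ideal.Quotient.mk _ u) = Ideal.Quotient.mk _ (algebraMap (𝓞 F) (𝓞 K) u) :=
  Ideal.quotientMap_mk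

theorem resHom_bij {v : Pl F} {w : Pl K} (h : OvL v w) (hq : q w = q v) :
    Function.Bijective (resHom h) := by
  haveI := v.isMaximal
  haveI := w.isMaximal
  letI := Ideal.Quotient.field v.asIdeal
  letI := Ideal.Quotient.field w.asIdeal
  refine ⟨(resHom h).injective, fun z => ?_⟩
  obtain ⟨x, rfl⟩ := Ideal.Quotient.mk_surjective z
  obtain ⟨u, hu⟩ := lift_all h hq x
  exact ⟨Ideal.Quotient.mk _ u, by rw [resHom_mk]; exact (Ideal.Quotient.eq.mpr hu).symm⟩

end TAMaux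

end REC
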