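import Pool.Agent.Helper85.REC.Stmts11
import Pool.Agent.Helper85.REC.Gl2

/-!
# PB0: strongly regular elements   [helper20]

The elements congruent to `1` modulo `l ^ 2` are strongly regular (TFR); among them take one with
the maximal number of eigenvalues. The number of eigenvalues is semicontinuous (HKL).
-/

set_option autoImplicit false

open scoped Classical

namespace REC

open MU

namespace PB0

/-- a Hankel determinant of traces -/
def hk {R : Type} [CommRing R] {n : ℕ} (m : ℕ) (A : Matrix (Fin n) (Fin n) R) : R :=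
  (Matrix.of fun a b : Fin m => (A ^ ((a : ℕ) + (b : ℕ))).trace).det

theorem hk_map {R S : Type} [CommRing R] [CommRing S] {n : ℕ} (m : ℕ) (φ : R →+* S)
    (A : Matrix (Fin n) (Fin n) R) : φ (hk m A) = hk m (A.map φ) := by
  rw [hk, hk, RingHom.map_det]
  congr 1
  ext a b
  rw [RingHom.mapMatrix_apply, Matrix.map_apply, Matrix.of_apply, Matrix.of_apply]
  have h1 : A.map φ = φ.mapMatrix A := rfl
  rw [h1, ← map_pow, Matrix.trace, Matrix.trace, map_sum]
  rfl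

theorem nde_le {K : Type} [Field K] {n : ℕ} (A : Matrix (Fin n) (Fin n) K) : nde A ≤ n := by
  refine (Multiset.toFinset_card_le _).trans ((Polynomial.card_roots' _).trans ?_)
  rw [Polynomial.natDegree_map, Matrix.charpoly_natDegree_eq_dim, Fintype.card_fin]

theorem cg_iff {l : ℕ} [Fact l.Prime] (K : ℕ) {n : ℕ} (A : Matrix (Fin n) (Fin n) ℤ_[l]) :
    Cg K A ↔ ∃ C : Matrix (Fin n) (Fin n) ℤ_[l], A = 1 + (l : ℤ_[l]) ^ K • C := by
  constructor
  · intro h
    choose C hC using h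
    refine ⟨Matrix.of C, ?_⟩
    ext i j
    have h1 := hC i j
    rw [Matrix.sub_apply, sub_eq_iff_eq_add] at h1
    rw [h1, Matrix.add_apply, Matrix.smul_apply, Matrix.of_apply, smul_eq_mul, add_comm]
  · rintro ⟨C, rfl⟩ i j
    refine ⟨C i j, ?_⟩
    rw [add_sub_cancel_left, Matrix.smul_apply, smul_eq_mul]

end PB0

open PB0 in
theorem st_PB0 (hTFR : ST_TFR) (hHKL : ST_HKL) : ST_PB0 := by
  intro Γ _ _ _ _ n l _ r hr H hH _ _
  -- congruence subgroups
  have key : ∀ K : ℕ, ∃ N : Subgroup Γ, N.Normal ∧ IsOpen (N : Set Γ) ∧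
      ∀ g, g ∈ N ↔ Cg K (r g : Matrix (Fin n) (Fin n) ℤ_[l]) := by
    intro K
    obtain ⟨N, hN, hN'⟩ := gl_open r hr K
    refine ⟨N, ⟨?_⟩, hN, hN'⟩
    intro g hg x
    rw [hN', cg_iff] at hg ⊢
    obtain ⟨C, hC⟩ := hg
    refine ⟨(r x : Matrix (Fin n) (Fin n) ℤ_[l]) * C * (r x⁻¹ : Matrix (Fin n) (Fin n) ℤ_[l]), ?_⟩
    have h1 : (r x : Matrix (Fin n) (Fin n) ℤ_[l]) * (r x⁻¹ : Matrix (Fin n) (Fin n) ℤ_[l]) = 1 := by
      rw [← Units.val_mul, ← map_mul, mul_inv_cancel, map_one, Units.val_one]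
    rw [map_mul, map_mul, Units.val_mul, Units.val_mul, hC, Matrix.mul_add, Matrix.add_mul,
      Matrix.mul_one, h1, Matrix.mul_smul, Matrix.smul_mul]
  -- the core of `H`
  have hfin : Finite (Γ ⧸ H) := H.quotient_finite_of_isOpen hH
  have hfi : H.FiniteIndex := Subgroup.finiteIndex_of_finite_quotient
  have hcore : IsOpen (H.normalCore : Set Γ) :=
    Subgroup.isOpen_of_isClosed_of_finiteIndex _ (H.normalCore_isClosed (H.isClosed_of_isOpen hH))
  obtain ⟨N₂, hN₂, hN₂o, hN₂'⟩ := key 2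
  have hUn : (H.normalCore ⊓ N₂).Normal := inferInstance
  have hUo : IsOpen ((H.normalCore ⊓ N₂ : Subgroup Γ) : Set Γ) := hcore.inter hN₂o
  -- an element with the maximal number of eigenvalues
  obtain ⟨s, hs, hmax⟩ : ∃ s ∈ H.normalCore ⊓ N₂, ∀ g ∈ H.normalCore ⊓ N₂,
      nde (rat r g) ≤ nde (rat r s) := by
    let T : Set ℕ := (fun g => nde (rat r g)) '' ((H.normalCore ⊓ N₂ : Subgroup Γ) : Set Γ)
    have hT : BddAbove T := ⟨n, by rintro _ ⟨g, _, rfl⟩; exact nde_le _⟩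
    have hT' : T.Nonempty := ⟨_, 1, one_mem _, rfl⟩
    obtain ⟨s, hs, hs'⟩ := Nat.sSup_mem hT' hT
    refine ⟨s, hs, fun g hg => ?_⟩
    have h1 : nde (rat r g) ≤ sSup T := le_csSup hT ⟨g, hg, rfl⟩
    exact h1.trans hs'.symm.le
  -- semicontinuity
  obtain ⟨K, hK⟩ : ∃ K : ℕ, ∀ g : Γ, Cg K (r (s⁻¹ * g) : Matrix (Fin n) (Fin n) ℤ_[l]) →
      nde (rat r s) ≤ nde (rat r g) := by
    rcases ((hHKL ℚ_[l] n (rat r s)).2 (nde (rat r s))).mp le_rfl with h0 | ⟨m, hm, hdet⟩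
    · exact ⟨0, fun g _ => by rw [h0]; exact Nat.zero_le _⟩
    have h1 : hk m (r s : Matrix (Fin n) (Fin n) ℤ_[l]) ≠ 0 := by
      intro h
      apply hdet
      have h2 := hk_map m (algebraMap ℤ_[l] ℚ_[l]) (r s : Matrix (Fin n) (Fin n) ℤ_[l])
      rw [h, map_zero] at h2
      exact h2.symm
    obtain ⟨K, hK⟩ : ∃ K : ℕ, PadicInt.toZModPow K (hk m (r s : Matrix (Fin n) (Fin n) ℤ_[l])) ≠
        0 := by
      by_contra hcon
      push_neg at hcon
      exact h1 (PadicInt.ext_of_toZModPow.mp fun K => by rw [hcon K, map_zero])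
    refine ⟨K, fun g hg => ?_⟩
    rw [cg_iff] at hg
    obtain ⟨C, hC⟩ := hg
    have h3 : (r g : Matrix (Fin n) (Fin n) ℤ_[l]) = (r s : Matrix (Fin n) (Fin n) ℤ_[l]) +
        (l : ℤ_[l]) ^ K • ((r s : Matrix (Fin n) (Fin n) ℤ_[l]) * C) := by
      have h4 : r g = r s * r (s⁻¹ * g) := by rw [← map_mul, mul_inv_cancel_left]
      rw [h4, Units.val_mul, hC, Matrix.mul_add, Matrix.mul_one, Matrix.mul_smul]
    have h5 : (r g : Matrix (Fin n) (Fin n) ℤ_[l]).map (PadicInt.toZModPow (p := l) K) =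
        (r s : Matrix (Fin n) (Fin n) ℤ_[l]).map (PadicInt.toZModPow (p := l) K) := by
      ext i j
      rw [Matrix.map_apply, Matrix.map_apply, h3, Matrix.add_apply, Matrix.smul_apply, smul_eq_mul,
        map_add, map_mul]
      have h6 : PadicInt.toZModPow (p := l) K ((l : ℤ_[l]) ^ K) = 0 := by
        rw [← RingHom.mem_ker, PadicInt.ker_toZModPow]
        exact Ideal.mem_span_singleton_self _
      rw [h6, zero_mul, add_zero]
    have h7 : hk m (r g : Matrix (Fin n) (Fin n) ℤ_[l]) ≠ 0 := by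
      intro h
      apply hK
      rw [hk_map, ← h5, ← hk_map, h, map_zero]
    refine ((hHKL ℚ_[l] n (rat r g)).2 (nde (rat r s))).mpr (Or.inr ⟨m, hm, ?_⟩)
    intro h
    apply h7
    have h8 := hk_map m (algebraMap ℤ_[l] ℚ_[l]) (r g : Matrix (Fin n) (Fin n) ℤ_[l])
    have h9 : hk m ((r g : Matrix (Fin n) (Fin n) ℤ_[l]).map (algebraMap ℤ_[l] ℚ_[l])) = 0 := h
    rw [h9] at h8
    exact (map_eq_zero_iff _ (FaithfulSMul.algebraMap_injective ℤ_[l] ℚ_[l])).mp h8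
  obtain ⟨N, hN, hNo, hN'⟩ := key K
  refine ⟨H.normalCore ⊓ N₂, (H.normalCore ⊓ N₂) ⊓ N, s, hUn, hUo,
    inf_le_left.trans H.normalCore_le, inferInstance, hUo.inter hNo, inf_le_left, hs, ?_⟩
  intro s' hs'
  have hs'U : s' ∈ H.normalCore ⊓ N₂ := by
    have : s' = s * (s⁻¹ * s') := by rw [mul_inv_cancel_left]
    rw [this]
    exact mul_mem hs hs'.1
  refine ⟨?_, fun g hg => (hmax g hg).trans (hK s' ((hN' _).mp hs'.2))⟩
  obtain ⟨C, hC⟩ := (cg_iff 2 _).mp ((hN₂' s').mp hs'U.2)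
  exact hTFR n l _ C hC

end REC
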