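import Pool.Agent.Helper85.REC.Stmts6
import Pool.Agent.Helper85.MU.SubLem

/-!
# RLN: stable lines of the residual representations
Proof: /team-store/rec_blueprint6.md
-/

set_option autoImplicit false

open scoped Classical
open NumberField Polynomial

namespace REC

open Pool.Agent.Helper13.ZL (Pl q)
open MU

/-! ## the ring `ZMod (l ^ 1)` -/

/-- the isomorphism `ZMod l ≃ ZMod (l ^ 1)` -/
noncomputable def rln_iso (l : ℕ) : ZMod l ≃+* ZMod (l ^ 1) :=
  ZMod.ringEquivCongr (pow_one l).symm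

theorem rln_iso_toZMod {l : ℕ} [Fact l.Prime] (x : ℤ_[l]) :
    rln_iso l (PadicInt.toZMod x) = PadicInt.toZModPow 1 x := by
  have h1 : x - (x.appr 1 : ℤ_[l]) ∈ Ideal.span {(l : ℤ_[l]) ^ 1} := PadicInt.appr_spec 1 x
  have h2 : PadicInt.toZModPow 1 x = ((x.appr 1 : ℕ) : ZMod (l ^ 1)) := by
    have h3 : x - (x.appr 1 : ℤ_[l]) ∈ RingHom.ker (PadicInt.toZModPow (p := l) 1) := by
      rw [PadicInt.ker_toZModPow]
      exact h1
    rw [RingHom.mem_ker, map_sub, sub_eq_zero, map_natCast] at h3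
    exact h3
  have h4 : PadicInt.toZMod x = ((x.appr 1 : ℕ) : ZMod l) := by
    have h3 : x - (x.appr 1 : ℤ_[l]) ∈ RingHom.ker (PadicInt.toZMod (p := l)) := by
      rw [PadicInt.ker_toZMod, PadicInt.maximalIdeal_eq_span_p]
      rw [pow_one] at h1
      exact h1
    rw [RingHom.mem_ker, map_sub, sub_eq_zero, map_natCast] at h3
    exact h3
  rw [h2, h4, map_natCast]

/-! ## the character of a stable line -/

section line

variable {G : Type} [Group G] {n l : ℕ} [Fact l.Prime]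
  {r : G →* Matrix.GeneralLinearGroup (Fin n) ℤ_[l]}
  {B : Matrix (Fin n) (Fin 1) (ZMod l)} {A : G → Matrix (Fin 1) (Fin 1) (ZMod l)}

/-- the character -/
noncomputable def rln_chi (h : IsSub (res r) B A) : G →* ZMod l where
  toFun g := (A g).det
  map_one' := by rw [h.one, Matrix.det_one]
  map_mul' g g' := by rw [h.mul, Matrix.det_mul]

theorem rln_chi_apply (h : IsSub (res r) B A) (g : G) : rln_chi h g = (A g).det := rfl

theorem rln_A (A₀ : Matrix (Fin 1) (Fin 1) (ZMod l)) :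
    A₀ = A₀.det • (1 : Matrix (Fin 1) (Fin 1) (ZMod l)) := by
  ext i j
  fin_cases i
  fin_cases j
  simp

theorem rln_ker (h : IsSub (res r) B A) (g : G) :
    (res r g - rln_chi h g • (1 : Matrix (Fin n) (Fin n) (ZMod l))) * B = 0 := by
  rw [Matrix.sub_mul, h.2, Matrix.smul_mul, Matrix.one_mul, rln_chi_apply]
  conv_lhs => rw [rln_A (A g)]
  rw [Matrix.mul_smul, Matrix.mul_one, Matrix.det_smul, Matrix.det_one]
  simp

theorem rln_B_ne (h : IsSub (res r) B A) : B ≠ 0 := by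
  rintro rfl
  obtain ⟨⟨C, hC⟩, -⟩ := h
  rw [Matrix.mul_zero] at hC
  have := congrFun (congrFun hC 0) 0
  simp at this

theorem rln_det (h : IsSub (res r) B A) (g : G) :
    (res r g - rln_chi h g • (1 : Matrix (Fin n) (Fin n) (ZMod l))).det = 0 := by
  by_contra hne
  have h1 := rln_ker h g
  have h2 := congrArg (fun Y => (res r g - rln_chi h g •
    (1 : Matrix (Fin n) (Fin n) (ZMod l))).adjugate * Y) h1
  simp only [← Matrix.mul_assoc, Matrix.adjugate_mul, Matrix.smul_mul, Matrix.one_mul,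
    Matrix.mul_zero] at h2
  exact rln_B_ne h ((smul_eq_zero.mp h2).resolve_left hne)

theorem rln_res_one (h : IsSub (res r) B A) (g : G) (hg : res r g = 1) : rln_chi h g = 1 := by
  have h1 := rln_ker h g
  rw [hg] at h1
  have h2 : (1 - rln_chi h g) • B = 0 := by
    rw [sub_smul, one_smul, ← h1, Matrix.sub_mul, Matrix.one_mul, Matrix.smul_mul, Matrix.one_mul]
  have h3 := (smul_eq_zero.mp h2).resolve_right (rln_B_ne h)
  exact (sub_eq_zero.mp h3).symm

theorem rln_unip (h : IsSub (res r) B A) (g : G) (m : ℕ) (hg : (rat r g - 1) ^ m = 0) :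
    rln_chi h g = 1 := by
  have h1 : ((r g : Matrix (Fin n) (Fin n) ℤ_[l]) - 1) ^ m = 0 := by
    have hinj : Function.Injective ((algebraMap ℤ_[l] ℚ_[l]).mapMatrix (m := Fin n)) :=
      Matrix.map_injective (IsFractionRing.injective ℤ_[l] ℚ_[l])
    apply hinj
    rw [map_pow, map_sub, map_one, map_zero]
    exact hg
  have h2 : (res r g - 1) ^ m = 0 := by
    have h3 := congrArg ((PadicInt.toZMod (p := l)).mapMatrix (m := Fin n)) h1
    rw [map_pow, map_sub, map_one, map_zero] at h3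
    exact h3
  have h4 : ∀ k : ℕ, (res r g - 1) ^ k * B = (rln_chi h g - 1) ^ k • B := by
    intro k
    induction k with
    | zero => simp
    | succ k ih =>
      have h5 : (res r g - 1) * B = (rln_chi h g - 1) • B := by
        have := rln_ker h g
        rw [Matrix.sub_mul, Matrix.smul_mul, Matrix.one_mul, sub_eq_zero] at this
        rw [Matrix.sub_mul, this, Matrix.one_mul, sub_smul, one_smul]
      rw [pow_succ, Matrix.mul_assoc, h5, Matrix.mul_smul, ih, smul_smul, pow_succ, mul_comm]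
  have h5 := h4 m
  rw [h2, Matrix.zero_mul] at h5
  have h6 := (smul_eq_zero.mp h5.symm).resolve_right (rln_B_ne h)
  exact sub_eq_zero.mp (eq_zero_of_pow_eq_zero h6)

end line

/-- RLN -/
theorem st_RLN : ST_FRV → ST_OVP → ST_CPW → ST_RLN := by
  intro FRV OVP CPW F _ _ S hS n w h M
  obtain ⟨c, hc⟩ := M.fontaineLaffaille
  refine ⟨c, fun l _ hl B A hBA => ?_⟩
  have hlp : l.Prime := Fact.out
  have hlp1 : Fact (l ^ 1).Prime := ⟨by rw [pow_one]; exact hlp⟩
  obtain ⟨ov1, -, -, ov4, -, ov6, -⟩ := OVP F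
  -- the character
  set χ := rln_chi hBA with hχ
  set ε : Gal F →* (ZMod (l ^ 1))ˣ :=
    ((rln_iso l : ZMod l →+* ZMod (l ^ 1)).toMonoidHom.comp χ).toHomUnits with hε
  have hε1 : ∀ σ : Gal F, ((ε σ : (ZMod (l ^ 1))ˣ) : ZMod (l ^ 1)) = rln_iso l (χ σ) :=
    fun σ => rfl
  have hε2 : ∀ σ : Gal F, χ σ = 1 → ε σ = 1 := by
    intro σ hσ
    apply Units.ext
    rw [hε1, hσ, map_one, Units.val_one]
  -- the places over `l`
  have hl0 : ((Ideal.span {(l : 𝓞 F)} : Ideal (𝓞 F))) ≠ 0 := by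
    rw [Ne, Ideal.zero_eq_bot, Ideal.span_singleton_eq_bot]
    exact_mod_cast hlp.ne_zero
  have hfin := Ideal.finite_factors hl0
  set Bl : Finset (Pl F) := hfin.toFinset with hBl
  have hBl' : ∀ v : Pl F, v ∈ Bl ↔ (l : 𝓞 F) ∈ v.asIdeal := by
    intro v
    rw [hBl, Set.Finite.mem_toFinset]
    exact Ideal.dvd_span_singleton
  -- unramified
  have hunr : ∀ v : Pl F, v ∉ Bl → Unr ε v := by
    intro v hv 𝔓 h𝔓 σ hσ
    obtain ⟨p, f, hp, -, -, hp𝔓, hpv⟩ := ov4 v 𝔓 h𝔓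
    have hpl : p ≠ l := by
      rintro rfl
      exact hv ((hBl' v).mpr hpv)
    apply hε2
    by_cases hpS : p ∈ S
    · exact rln_unip hBA σ n (M.semistable l p hpS hpl 𝔓 hp𝔓 σ hσ)
    · have h1 := M.good l p hp hpS hpl 𝔓 hp𝔓 σ hσ
      refine rln_res_one hBA σ ?_
      simp [res, h1]
  have hφ : ∀ v : Pl F, ∃ a : (ZMod (l ^ 1))ˣ, (v ∈ Bl → a = 1) ∧ (v ∉ Bl → IsFr ε v a) := by
    intro v
    by_cases hv : v ∈ Bl
    · exact ⟨1, fun _ => rfl, fun h => absurd hv h⟩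
    · obtain ⟨a, ha⟩ := (FRV F _ ε v).1 (hunr v hv)
      exact ⟨a, fun h => absurd h hv, fun _ => ha⟩
  choose φ hφ1 hφ2 using hφ
  -- the exponents
  have hex : ∀ v : Pl F, ∃ e : ℕ, v ∈ Bl → (∃ i, e = h i) ∧
      ∀ 𝔓 : Ideal (Zb F), OverP v 𝔓 → ∀ σ : Gal F, CongPow 𝔓 1 σ →
        χ σ * (PadicInt.toZMod ((cyc l F σ : ℤ_[l]ˣ) : ℤ_[l])) ^ e = 1 := by
    intro v
    by_cases hv : v ∈ Bl
    · obtain ⟨𝔓₀, h𝔓₀⟩ := ov1 v
      have hover : ∀ 𝔓 : Ideal (Zb F), OverP v 𝔓 → Over l 𝔓 := by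
        intro 𝔓 h𝔓
        obtain ⟨p, f, hp, -, -, hp𝔓, hpv⟩ := ov4 v 𝔓 h𝔓
        have hlv := (hBl' v).mp hv
        have : p = l := by
          by_contra hne
          have hco : IsCoprime (p : ℤ) (l : ℤ) :=
            Nat.isCoprime_iff_coprime.mpr ((Nat.coprime_primes hp hlp).mpr hne)
          obtain ⟨a, b, hab⟩ := hco
          have h1 : (1 : 𝓞 F) ∈ v.asIdeal := by
            have h2 : (1 : 𝓞 F) = (a : 𝓞 F) * (p : 𝓞 F) + (b : 𝓞 F) * (l : 𝓞 F) := by
              have := congrArg (Int.cast : ℤ → 𝓞 F) hab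
              push_cast at this
              exact this.symm
            rw [h2]
            exact Ideal.add_mem _ (Ideal.mul_mem_left _ _ hpv) (Ideal.mul_mem_left _ _ hlv)
          exact v.isPrime.ne_top ((Ideal.eq_top_iff_one _).mpr h1)
        rw [← this]
        exact hp𝔓
      obtain ⟨J, hJ1, hJ2⟩ := hc l hl 1 B A hBA 𝔓₀ (hover 𝔓₀ h𝔓₀)
      obtain ⟨j, rfl⟩ := Finset.card_eq_one.mp hJ1
      refine ⟨h j, fun _ => ⟨⟨j, rfl⟩, fun 𝔓 h𝔓 σ hσ => ?_⟩⟩
      obtain ⟨g, hg⟩ := ov6 v 𝔓 𝔓₀ h𝔓 h𝔓₀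
      have h1 : CongPow 𝔓₀ 1 (g * σ * g⁻¹ : Gal F) :=
        (CPW F l 𝔓 hlp (hover 𝔓 h𝔓)).2.2 g 𝔓₀ hg 1 σ hσ
      have h2 := hJ2 _ h1
      rw [Finset.sum_singleton, ← rln_chi_apply hBA, map_mul, map_mul, map_mul, map_mul] at h2
      have h3 : χ g * χ σ * χ g⁻¹ = χ σ := by
        rw [mul_right_comm, ← map_mul, mul_inv_cancel, map_one, one_mul]
      have h4 : (cyc l F g * cyc l F σ * cyc l F g⁻¹ : ℤ_[l]ˣ) = cyc l F σ := by
        rw [mul_right_comm, ← map_mul, mul_inv_cancel, map_one, one_mul]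
      rw [h3, h4] at h2
      exact h2
    · exact ⟨0, fun h => absurd h hv⟩
  choose e he using hex
  refine ⟨ε, e, ⟨Bl, φ, ⟨hBl', ?_, ⟨hφ1, fun v hv => hφ2 v hv⟩, ?_⟩, fun v hv => (he v hv).1⟩, ?_⟩
  · -- the kernel is open
    obtain ⟨H, hH, hH1⟩ := gl_open (M.ρ l) (M.continuous l) 1
    refine Subgroup.isOpen_mono (H₁ := H) (fun σ hσ => ?_) hH
    rw [MonoidHom.mem_ker]
    refine hε2 σ (rln_res_one hBA σ ?_)
    have h1 := (hH1 σ).mp hσ
    ext i j
    have h2 := h1 i j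
    rw [pow_one, ← Ideal.mem_span_singleton, ← PadicInt.maximalIdeal_eq_span_p,
      ← PadicInt.ker_toZMod, RingHom.mem_ker, Matrix.sub_apply, map_sub, sub_eq_zero] at h2
    have h3 : res (M.ρ l) σ i j = PadicInt.toZMod
      ((M.ρ l σ : Matrix (Fin n) (Fin n) ℤ_[l]) i j) := rfl
    rw [h3, h2, Matrix.one_apply, Matrix.one_apply]
    split_ifs <;> simp
  · intro v hv 𝔓 h𝔓 σ hσ
    have h1 := (he v hv).2 𝔓 h𝔓 σ hσ
    apply Units.ext
    rw [zpow_natCast, Units.val_mul, hε1, Units.val_one, Units.val_pow_eq_pow_val,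
      MonoidHom.id_apply]
    have h2 : ((cyk F l 1 σ : (ZMod (l ^ 1))ˣ) : ZMod (l ^ 1)) =
        rln_iso l (PadicInt.toZMod ((cyc l F σ : ℤ_[l]ˣ) : ℤ_[l])) := by
      rw [rln_iso_toZMod]
      rfl
    rw [h2, ← map_pow, ← map_mul, h1, map_one]
  · intro σ
    rw [hε1]
    have h1 : ((M.ρ l σ : Matrix.GeneralLinearGroup (Fin n) ℤ_[l]) :
        Matrix (Fin n) (Fin n) ℤ_[l]).map (PadicInt.toZModPow 1) -
        (rln_iso l (χ σ)) • (1 : Matrix (Fin n) (Fin n) (ZMod (l ^ 1))) =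
        (rln_iso l : ZMod l →+* ZMod (l ^ 1)).mapMatrix
          (res (M.ρ l) σ - χ σ • (1 : Matrix (Fin n) (Fin n) (ZMod l))) := by
      ext i j
      rw [Matrix.sub_apply, Matrix.map_apply, ← rln_iso_toZMod, Matrix.smul_apply,
        RingHom.mapMatrix_apply, Matrix.map_apply, Matrix.sub_apply, Matrix.smul_apply,
        smul_eq_mul, smul_eq_mul, map_sub, map_mul]
      congr 2
      rw [Matrix.one_apply, Matrix.one_apply]
      split_ifs <;> simp
    rw [h1, ← RingHom.map_det, rln_det hBA σ, map_zero]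

end REC
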