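import Pool.Agent.Helper20.REC.RS3b

/-!
# RS3: reducible residual representations in rank three
-/

set_option autoImplicit false

open Matrix

namespace REC

open MU RS3aux

namespace RS3aux

variable {K k : Type} [Field K] [Field k] {G : Type} [Group G]

theorem isSub_map (κ : K →+* k) (r : G →* Matrix (Fin 3) (Fin 3) K) {m : ℕ}
    (B : Matrix (Fin 3) (Fin m) K) (A : G → Matrix (Fin m) (Fin m) K) (h : IsSub r B A) :
    IsSub (mapk κ r) (B.map κ) (fun g => (A g).map κ) := by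
  obtain ⟨⟨C, hC⟩, hA⟩ := h
  refine ⟨⟨C.map κ, ?_⟩, fun g => ?_⟩
  · rw [← Matrix.map_mul, hC, Matrix.map_one _ κ.map_zero κ.map_one]
  · show (r g).map κ * B.map κ = B.map κ * (A g).map κ
    rw [← Matrix.map_mul, hA, Matrix.map_mul]

theorem nondeg_line [IsAlgClosed k] (κ : K →+* k) (h2 : (2 : K) ≠ 0)
    (r : G →* Matrix (Fin 3) (Fin 3) K) (Ψ : Matrix (Fin 3) (Fin 3) K) (hΨ : Ψᵀ = Ψ)
    (hdet : Ψ.det ≠ 0) (ν : G → K) (hr : ∀ g, (r g)ᵀ * Ψ * r g = ν g • Ψ) (u : Fin 3 → K)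
    (hu : u ≠ 0) (c : G → K) (hc : ∀ g, r g *ᵥ u = c g • u) : Concl κ r ν := by
  have hunit : IsUnit Ψ.det := isUnit_iff_ne_zero.mpr hdet
  have hinj : ∀ v w : Fin 3 → K, Ψ *ᵥ v = Ψ *ᵥ w → v = w := by
    intro v w h
    have h1 : Ψ⁻¹ *ᵥ (Ψ *ᵥ v) = Ψ⁻¹ *ᵥ (Ψ *ᵥ w) := by rw [h]
    rwa [mulVec_mulVec, mulVec_mulVec, Matrix.nonsing_inv_mul Ψ hunit, one_mulVec,
      one_mulVec] at h1
  set a : Fin 3 → K := Ψ *ᵥ u with ha
  have ha0 : a ≠ 0 := by
    intro h
    apply hu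
    apply hinj
    rw [← ha, h, mulVec_zero]
  have hcne : ∀ g, c g ≠ 0 := fun g => chi_ne_zero r u hu g _ (hc g)
  have hca : ∀ g, c g • ((r g)ᵀ *ᵥ a) = ν g • a := by
    intro g
    have h1 : ((r g)ᵀ * Ψ * r g) *ᵥ u = ν g • a := by rw [hr, smul_mulVec, ← ha]
    rw [← mulVec_mulVec, hc, mulVec_smul, ← mulVec_mulVec, ← ha] at h1
    exact h1
  have hta : ∀ g, (r g)ᵀ *ᵥ a = (ν g / c g) • a := by
    intro g
    have h1 : (r g)ᵀ *ᵥ a = (c g)⁻¹ • (c g • ((r g)ᵀ *ᵥ a)) := by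
      rw [smul_smul, inv_mul_cancel₀ (hcne g), one_smul]
    rw [h1, hca, smul_smul]
    congr 1
    field_simp
  by_cases hiso : a ⬝ᵥ u = 0
  · obtain ⟨B, C, A, hCB, hBA, -, hpl⟩ := plane_sub r a ha0 _ hta
    left
    have hline := line_sub r u hu c hc
    refine ⟨_, _, _, _, (C * Matrix.of fun (i : Fin 3) (_ : Fin 1) => u i).map κ,
      isSub_map κ r _ _ hline, isSub_map κ r B A ⟨⟨C, hCB⟩, hBA⟩, ?_⟩
    rw [← Matrix.map_mul]
    congr 1
    have h1 := hpl u hiso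
    ext i j
    rw [← Matrix.mul_assoc]
    have h3 := congrFun h1 i
    rw [mulVec_mulVec] at h3
    rw [Matrix.of_apply, ← h3]
    rfl
  · set d := a ⬝ᵥ u with hd
    have hcd : ∀ g, c g ^ 2 = ν g := by
      intro g
      have h1 : (c g • ((r g)ᵀ *ᵥ a)) ⬝ᵥ u = ν g * d := by
        rw [hca, smul_dotProduct, smul_eq_mul]
      have h3 : ((r g)ᵀ *ᵥ a) ⬝ᵥ u = c g * d := by
        rw [mulVec_transpose, ← dotProduct_mulVec, hc, dotProduct_smul, smul_eq_mul]
      rw [smul_dotProduct, h3, smul_eq_mul] at h1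
      have h4 : (c g ^ 2 - ν g) * d = 0 := by linear_combination h1
      exact sub_eq_zero.mp ((mul_eq_zero.mp h4).resolve_right hiso)
    have hta' : ∀ g, (r g)ᵀ *ᵥ a = c g • a := by
      intro g
      rw [hta, ← hcd]
      congr 1
      have := hcne g
      field_simp
    set S : Matrix (Fin 3) (Fin 3) K := Ψ - d⁻¹ • vecMulVec a a with hS
    have hvv : ∀ v, vecMulVec a a *ᵥ v = (a ⬝ᵥ v) • a := by
      intro v
      ext i
      simp only [mulVec, vecMulVec_apply, Pi.smul_apply, smul_eq_mul, dotProduct]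
      rw [Finset.sum_mul]
      exact Finset.sum_congr rfl fun j _ => by ring
    have hSv : ∀ v, S *ᵥ v = Ψ *ᵥ v - (d⁻¹ * (a ⬝ᵥ v)) • a := by
      intro v
      rw [hS, sub_mulVec, smul_mulVec, hvv, smul_smul]
    refine caseL κ h2 r S ?_ ν (fun g => ?_) u hu ?_ ?_ c hc hcd
    · rw [hS, transpose_sub, hΨ, transpose_smul, transpose_vecMulVec]
    · have h1 : (r g)ᵀ * vecMulVec a a * r g = ν g • vecMulVec a a := by
        have h3 : (r g)ᵀ * vecMulVec a a * r g =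
            vecMulVec ((r g)ᵀ *ᵥ a) (a ᵥ* r g) := by
          rw [mul_vecMulVec, vecMulVec_mul]
        rw [h3, ← mulVec_transpose, hta', smul_vecMulVec, vecMulVec_smul, smul_smul, ← hcd]
        congr 1
        ring
      rw [hS, Matrix.mul_sub, Matrix.sub_mul, hr, Matrix.mul_smul, Matrix.smul_mul, h1, smul_sub,
        smul_comm]
    · rw [hSv, ← ha, ← hd, inv_mul_cancel₀ hiso, one_smul, sub_self]
    · intro v hv
      rw [hSv, sub_eq_zero] at hv
      refine ⟨d⁻¹ * (a ⬝ᵥ v), hinj _ _ ?_⟩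
      rw [hv, mulVec_smul]

theorem dim_le {m : ℕ} (B : Matrix (Fin 3) (Fin m) K) (C : Matrix (Fin m) (Fin 3) K)
    (h : C * B = 1) : m ≤ 3 := by
  have h1 : (C * B).rank ≤ B.rank := Matrix.rank_mul_le_right C B
  rw [h, Matrix.rank_one, Fintype.card_fin] at h1
  have h3 := Matrix.rank_le_height B
  omega

theorem nondeg [IsAlgClosed k] (κ : K →+* k) (h2 : (2 : K) ≠ 0)
    (r : G →* Matrix (Fin 3) (Fin 3) K) (Ψ : Matrix (Fin 3) (Fin 3) K) (hΨ : Ψᵀ = Ψ)
    (hdet : Ψ.det ≠ 0) (ν : G → K) (hr : ∀ g, (r g)ᵀ * Ψ * r g = ν g • Ψ)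
    (hirr : ¬ IsIrr r) : Concl κ r ν := by
  unfold IsIrr at hirr
  push Not at hirr
  obtain ⟨m, B, A, ⟨⟨C, hC⟩, hBA⟩, hm0, hm3⟩ := hirr
  have hm := dim_le B C hC
  obtain rfl | rfl : m = 1 ∨ m = 2 := by omega
  · -- a line
    refine nondeg_line κ h2 r Ψ hΨ hdet ν hr (fun i => B i 0) ?_ (fun g => A g 0 0) fun g => ?_
    · intro h
      have h1 := congrFun (congrFun hC 0) 0
      rw [Matrix.mul_apply] at h1
      have h3 : ∀ j, B j 0 = 0 := fun j => congrFun h j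
      simp [h3] at h1
    · ext i
      have h1 := congrFun (congrFun (hBA g) i) 0
      simpa [Matrix.mul_apply, mulVec, dotProduct, mul_comm] using h1
  · -- a plane
    set a : Fin 3 → K := ![B 1 0 * B 2 1 - B 2 0 * B 1 1, B 2 0 * B 0 1 - B 0 0 * B 2 1,
      B 0 0 * B 1 1 - B 1 0 * B 0 1] with ha
    have ha0 : a ≠ 0 := by
      intro h
      have e0 : B 1 0 * B 2 1 - B 2 0 * B 1 1 = 0 := congrFun h 0
      have e1 : B 2 0 * B 0 1 - B 0 0 * B 2 1 = 0 := congrFun h 1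
      have e2 : B 0 0 * B 1 1 - B 1 0 * B 0 1 = 0 := congrFun h 2
      have h1 : (C * B).det = 1 := by rw [hC, det_one]
      rw [Matrix.det_fin_two] at h1
      simp only [Matrix.mul_apply, Fin.sum_univ_three] at h1
      apply one_ne_zero (α := K)
      rw [← h1]
      linear_combination (C 0 1 * C 1 2 - C 0 2 * C 1 1) * e0 + (C 0 2 * C 1 0 - C 0 0 * C 1 2) * e1
        + (C 0 0 * C 1 1 - C 0 1 * C 1 0) * e2
    obtain ⟨i₀, hi₀⟩ : ∃ i, a i ≠ 0 := by
      by_contra h0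
      rw [not_exists] at h0
      apply ha0
      ext i
      have := h0 i
      rwa [not_not] at this
    have haB : a ᵥ* B = 0 := by
      ext j
      fin_cases j <;> simp [a, vecMul, dotProduct, Fin.sum_univ_three] <;> ring
    -- a vector orthogonal to the plane is a multiple of `a`
    have hpar : ∀ b : Fin 3 → K, b ᵥ* B = 0 → b = (b i₀ / a i₀) • a := by
      intro b hb
      have h0 : b 0 * B 0 0 + b 1 * B 1 0 + b 2 * B 2 0 = 0 := by
        have := congrFun hb 0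
        simpa [vecMul, dotProduct, Fin.sum_univ_three] using this
      have h1 : b 0 * B 0 1 + b 1 * B 1 1 + b 2 * B 2 1 = 0 := by
        have := congrFun hb 1
        simpa [vecMul, dotProduct, Fin.sum_univ_three] using this
      have h12 : b 1 * a 2 = b 2 * a 1 := by
        simp only [a, Matrix.cons_val]
        linear_combination B 0 0 * h1 - B 0 1 * h0
      have h20 : b 2 * a 0 = b 0 * a 2 := by
        simp only [a, Matrix.cons_val]
        linear_combination B 1 0 * h1 - B 1 1 * h0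
      have h01 : b 0 * a 1 = b 1 * a 0 := by
        simp only [a, Matrix.cons_val]
        linear_combination B 2 0 * h1 - B 2 1 * h0
      have hall : ∀ i j, b i * a j = b j * a i := by
        intro i j
        fin_cases i <;> fin_cases j
        · rfl
        · exact h01
        · exact h20.symm
        · exact h01.symm
        · rfl
        · exact h12
        · exact h20
        · exact h12.symm
        · rfl
      ext i
      rw [Pi.smul_apply, smul_eq_mul, div_mul_eq_mul_div, eq_div_iff hi₀]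
      exact hall i i₀
    have hta : ∀ g, ∃ c : K, (r g)ᵀ *ᵥ a = c • a := by
      intro g
      refine ⟨_, hpar _ ?_⟩
      rw [mulVec_transpose, vecMul_vecMul, hBA, ← vecMul_vecMul, haB, zero_vecMul]
    choose c hc using hta
    have hunit : IsUnit Ψ.det := isUnit_iff_ne_zero.mpr hdet
    have hΨu : Ψ *ᵥ (Ψ⁻¹ *ᵥ a) = a := by
      rw [mulVec_mulVec, Matrix.mul_nonsing_inv Ψ hunit, one_mulVec]
    have hinj : ∀ v w : Fin 3 → K, Ψ *ᵥ v = Ψ *ᵥ w → v = w := by
      intro v w h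
      have h1 : Ψ⁻¹ *ᵥ (Ψ *ᵥ v) = Ψ⁻¹ *ᵥ (Ψ *ᵥ w) := by rw [h]
      rwa [mulVec_mulVec, mulVec_mulVec, Matrix.nonsing_inv_mul Ψ hunit, one_mulVec,
        one_mulVec] at h1
    refine nondeg_line κ h2 r Ψ hΨ hdet ν hr (Ψ⁻¹ *ᵥ a) ?_ (fun g => ν g * c g⁻¹) fun g => ?_
    · intro h
      apply ha0
      rw [← hΨu, h, mulVec_zero]
    · apply hinj
      have h1 : Ψ * r g = ν g • ((r g⁻¹)ᵀ * Ψ) := by
        have h3 : (r g⁻¹)ᵀ * ((r g)ᵀ * Ψ * r g) = Ψ * r g := by
          rw [← Matrix.mul_assoc, ← Matrix.mul_assoc, ← transpose_mul, RS3aux.mul_inv,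
            transpose_one, Matrix.one_mul]
        rw [← h3, hr, Matrix.mul_smul]
      rw [mulVec_mulVec, h1, smul_mulVec, ← mulVec_mulVec, hΨu, hc, mulVec_smul, hΨu, smul_smul]

theorem rank_one (h2 : (2 : K) ≠ 0) (S : Matrix (Fin 3) (Fin 3) K) (hS : Sᵀ = S)
    (h : S.rank = 1) : ∃ (x : Fin 3 → K) (c : K), x ≠ 0 ∧ c ≠ 0 ∧ S = c • vecMulVec x x := by
  have h1 : Module.finrank K (LinearMap.range S.mulVecLin) = 1 := h
  obtain ⟨⟨x, hx⟩, hx0, hall⟩ := finrank_eq_one_iff'.mp h1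
  have hx0' : x ≠ 0 := fun h3 => hx0 (Subtype.ext h3)
  have hcol : ∀ j, ∃ z : K, ∀ i, S i j = z * x i := by
    intro j
    obtain ⟨z, hz⟩ := hall ⟨S.mulVecLin (Pi.single j 1), LinearMap.mem_range_self _ _⟩
    refine ⟨z, fun i => ?_⟩
    have h3 := congrFun (congrArg Subtype.val hz) i
    simp [Matrix.mulVecLin_apply] at h3
    rw [← h3]
  choose z hz using hcol
  have sym : ∀ i j, S i j = S j i := by
    intro i j
    conv_lhs => rw [← hS]
    rfl
  obtain ⟨i₀, hi₀⟩ : ∃ i, x i ≠ 0 := by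
    by_contra h0
    rw [not_exists] at h0
    apply hx0'
    ext i
    have := h0 i
    rwa [not_not] at this
  have hzc : ∀ j, z j = z i₀ / x i₀ * x j := by
    intro j
    have h3 := sym i₀ j
    rw [hz, hz] at h3
    field_simp
    exact h3
  refine ⟨x, z i₀ / x i₀, hx0', ?_, ?_⟩
  · intro h0
    have h3 : S = 0 := by
      ext i j
      rw [hz, hzc, h0]
      simp
    rw [h3, Matrix.rank_zero] at h
    omega
  · ext i j
    rw [hz, hzc, Matrix.smul_apply, vecMulVec_apply, smul_eq_mul]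
    ring

theorem rank_one_act (N : Matrix (Fin 3) (Fin 3) K) (x : Fin 3 → K) (c ν : K) (hx : x ≠ 0)
    (hc : c ≠ 0) (h : N * (c • vecMulVec x x) * Nᵀ = ν • (c • vecMulVec x x)) :
    ∃ χ : K, N *ᵥ x = χ • x ∧ χ ^ 2 = ν := by
  have h1 : vecMulVec (N *ᵥ x) (N *ᵥ x) = ν • vecMulVec x x := by
    have h3 : N * (c • vecMulVec x x) * Nᵀ = c • vecMulVec (N *ᵥ x) (N *ᵥ x) := by
      rw [Matrix.mul_smul, Matrix.smul_mul, mul_vecMulVec, vecMulVec_mul, vecMul_transpose]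
    rw [h3, smul_comm] at h
    exact smul_right_injective _ hc h
  obtain ⟨i₀, hi₀⟩ : ∃ i, x i ≠ 0 := by
    by_contra h0
    rw [not_exists] at h0
    apply hx
    ext i
    have := h0 i
    rwa [not_not] at this
  have hij : ∀ i j, (N *ᵥ x) i * (N *ᵥ x) j = ν * (x i * x j) := by
    intro i j
    have := congrFun (congrFun h1 i) j
    simpa [vecMulVec_apply] using this
  have hsq : ((N *ᵥ x) i₀ / x i₀) ^ 2 = ν := by
    rw [div_pow, sq, sq, hij]
    field_simp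
  refine ⟨(N *ᵥ x) i₀ / x i₀, ?_, hsq⟩
  ext i
  rw [Pi.smul_apply, smul_eq_mul]
  by_cases hN : (N *ᵥ x) i₀ = 0
  · have h3 : ν = 0 := by rw [← hsq, hN]; simp
    have h4 := hij i i
    rw [h3, zero_mul, mul_self_eq_zero] at h4
    rw [h4, hN]
    simp
  · have h3 := hij i i₀
    rw [← hsq] at h3
    field_simp at h3 ⊢
    exact h3

theorem ker_le (Ψ X : Matrix (Fin 3) (Fin 3) K) (h0 : Ψ * X = 0) (hr : Ψ.rank + X.rank = 3)
    (v : Fin 3 → K) (hv : Ψ *ᵥ v = 0) : ∃ w, v = X *ᵥ w := by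
  have h1 : LinearMap.range X.mulVecLin ≤ LinearMap.ker Ψ.mulVecLin := by
    rintro _ ⟨w, rfl⟩
    rw [LinearMap.mem_ker, Matrix.mulVecLin_apply, Matrix.mulVecLin_apply, mulVec_mulVec, h0,
      zero_mulVec]
  have h3 : Module.finrank K (LinearMap.range Ψ.mulVecLin) +
      Module.finrank K (LinearMap.ker Ψ.mulVecLin) = 3 := by
    rw [LinearMap.finrank_range_add_finrank_ker]
    simp
  have h4 : Module.finrank K (LinearMap.range Ψ.mulVecLin) +
      Module.finrank K (LinearMap.range X.mulVecLin) = 3 := hr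
  have h5 : LinearMap.range X.mulVecLin = LinearMap.ker Ψ.mulVecLin :=
    Submodule.eq_of_le_of_finrank_eq h1 (by omega)
  have h6 : v ∈ LinearMap.ker Ψ.mulVecLin := by
    rw [LinearMap.mem_ker, Matrix.mulVecLin_apply]
    exact hv
  rw [← h5] at h6
  obtain ⟨w, hw⟩ := h6
  exact ⟨w, hw.symm⟩

/-- the kernel of `S` if `T` has rank one -/
theorem ker_line (S T : Matrix (Fin 3) (Fin 3) K) (h0 : S * T = 0) (hr : S.rank + T.rank = 3)
    (x : Fin 3 → K) (c : K) (hx : x ≠ 0) (hc : c ≠ 0) (hT : T = c • vecMulVec x x) :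
    S *ᵥ x = 0 ∧ ∀ v, S *ᵥ v = 0 → ∃ d : K, v = d • x := by
  have hTv : ∀ w, T *ᵥ w = (c * (x ⬝ᵥ w)) • x := by
    intro w
    ext i
    rw [hT, smul_mulVec, Pi.smul_apply, Pi.smul_apply]
    simp only [mulVec, vecMulVec_apply, smul_eq_mul, dotProduct]
    rw [mul_assoc, Finset.sum_mul]
    congr 1
    exact Finset.sum_congr rfl fun j _ => by ring
  constructor
  · obtain ⟨i₀, hi₀⟩ : ∃ i, x i ≠ 0 := by
      by_contra h0
      rw [not_exists] at h0
      apply hx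
      ext i
      have := h0 i
      rwa [not_not] at this
    have h1 : S *ᵥ (T *ᵥ Pi.single i₀ 1) = 0 := by rw [mulVec_mulVec, h0, zero_mulVec]
    rw [hTv, mulVec_smul] at h1
    have h3 : c * (x ⬝ᵥ Pi.single i₀ 1) ≠ 0 := by
      rw [dotProduct_single, mul_one]
      exact mul_ne_zero hc hi₀
    exact (smul_eq_zero.mp h1).resolve_left h3
  · intro v hv
    obtain ⟨w, rfl⟩ := ker_le S T h0 hr v hv
    exact ⟨_, hTv w⟩

end RS3aux

theorem st_RS3 : ST_RS3 := by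
  intro G _ K k _ _ _ κ r Ψ X ν h2 hΨ hX h0 hrk hr hr' hirr
  show Concl κ r ν
  have h0' : X * Ψ = 0 := by
    rw [← hΨ, ← hX, ← transpose_mul, h0, transpose_zero]
  by_cases hd : Ψ.det = 0
  swap
  · exact nondeg κ h2 r Ψ hΨ hd ν hr hirr
  by_cases hd' : X.det = 0
  swap
  · have hu : IsUnit X.det := isUnit_iff_ne_zero.mpr hd'
    refine nondeg κ h2 r X⁻¹ ?_ ?_ ν (fun g => ?_) hirr
    · rw [transpose_nonsing_inv, hX]
    · intro h3
      have h4 : (X⁻¹ * X).det = 1 := by rw [Matrix.nonsing_inv_mul X hu, det_one]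
      rw [det_mul, h3, zero_mul] at h4
      exact zero_ne_one h4
    · have h1 : r g * X = ν g • (X * (r g⁻¹)ᵀ) := by
        have h3 : r g * X * (r g)ᵀ * (r g⁻¹)ᵀ = r g * X := by
          rw [Matrix.mul_assoc, ← transpose_mul, RS3aux.inv_mul, transpose_one, Matrix.mul_one]
        rw [← h3, hr', Matrix.smul_mul]
      have h4 : (r g)ᵀ * X⁻¹ * (r g * X) = ν g • (1 : Matrix (Fin 3) (Fin 3) K) := by
        rw [h1, Matrix.mul_smul]
        congr 1
        rw [Matrix.mul_assoc, ← Matrix.mul_assoc X⁻¹, Matrix.nonsing_inv_mul X hu,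
          Matrix.one_mul, ← transpose_mul, RS3aux.inv_mul, transpose_one]
      have h5 : (r g)ᵀ * X⁻¹ * r g = ((r g)ᵀ * X⁻¹ * (r g * X)) * X⁻¹ := by
        rw [Matrix.mul_assoc _ (r g * X), Matrix.mul_assoc (r g), Matrix.mul_nonsing_inv X hu,
          Matrix.mul_one]
      rw [h5, h4, Matrix.smul_mul, Matrix.one_mul]
  -- both are singular
  have hX1 : X.rank ≠ 0 := by
    intro h3
    obtain ⟨v, hv0, hv⟩ := Matrix.exists_mulVec_eq_zero_iff.mpr hd
    obtain ⟨w, rfl⟩ := ker_le Ψ X h0 hrk v hv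
    have h4 : LinearMap.range X.mulVecLin = ⊥ := by
      apply Submodule.finrank_eq_zero.mp
      exact h3
    have h5 : X *ᵥ w ∈ LinearMap.range X.mulVecLin := ⟨w, rfl⟩
    rw [h4, Submodule.mem_bot] at h5
    exact hv0 h5
  have hΨ1 : Ψ.rank ≠ 0 := by
    intro h3
    obtain ⟨v, hv0, hv⟩ := Matrix.exists_mulVec_eq_zero_iff.mpr hd'
    obtain ⟨w, rfl⟩ := ker_le X Ψ h0' (by rw [add_comm]; exact hrk) v hv
    have h4 : LinearMap.range Ψ.mulVecLin = ⊥ := by
      apply Submodule.finrank_eq_zero.mp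
      exact h3
    have h5 : Ψ *ᵥ w ∈ LinearMap.range Ψ.mulVecLin := ⟨w, rfl⟩
    rw [h4, Submodule.mem_bot] at h5
    exact hv0 h5
  obtain h1 | h1 : X.rank = 1 ∨ Ψ.rank = 1 := by omega
  · obtain ⟨x, c, hx, hc, hXx⟩ := rank_one h2 X hX h1
    obtain ⟨hΨx, hker⟩ := ker_line Ψ X h0 hrk x c hx hc hXx
    choose χ hχ hχ2 using fun g => rank_one_act (r g) x c (ν g) hx hc (by
      rw [← hXx]; exact hr' g)
    exact caseL κ h2 r Ψ hΨ ν hr x hx hΨx hker χ hχ hχ2
  · obtain ⟨y, c, hy, hc, hΨy⟩ := rank_one h2 Ψ hΨ h1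
    obtain ⟨hXy, hker⟩ := ker_line X Ψ h0' (by rw [add_comm]; exact hrk) y c hy hc hΨy
    choose χ hχ hχ2 using fun g => rank_one_act (r g)ᵀ y c (ν g) hy hc (by
      rw [← hΨy, transpose_transpose]; exact hr g)
    exact caseP κ h2 r X hX ν hr' y hy hXy hker χ hχ hχ2

end REC
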