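import Pool.Agent.Helper85.MU.Defs

/-!
# Linear algebra in dimension three: normal form of symmetric matrices of rank two
-/

set_option autoImplicit false

open Matrix

namespace REC

namespace RS3aux

variable {K k : Type} [Field K] [Field k]

/-- the normal form `2 x y` -/
def E (k : Type) [Field k] : Matrix (Fin 3) (Fin 3) k := !![0, 1, 0; 1, 0, 0; 0, 0, 0]

/-- a nonzero vector is the last row of an invertible matrix -/
theorem complete (a : Fin 3 → K) (ha : a ≠ 0) :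
    ∃ P Q : Matrix (Fin 3) (Fin 3) K, P * Q = 1 ∧ Q * P = 1 ∧ ∀ i, P 2 i = a i := by
  have key : ∀ P : Matrix (Fin 3) (Fin 3) K, P.det ≠ 0 → (∀ i, P 2 i = a i) →
      ∃ P Q : Matrix (Fin 3) (Fin 3) K, P * Q = 1 ∧ Q * P = 1 ∧ ∀ i, P 2 i = a i := by
    intro P hP h
    have hu : IsUnit P.det := isUnit_iff_ne_zero.mpr hP
    exact ⟨P, P⁻¹, Matrix.mul_nonsing_inv P hu, Matrix.nonsing_inv_mul P hu, h⟩
  by_cases h2 : a 2 ≠ 0
  · refine key !![1, 0, 0; 0, 1, 0; a 0, a 1, a 2] ?_ ?_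
    · rw [Matrix.det_fin_three]
      simpa using h2
    · intro i
      fin_cases i <;> rfl
  by_cases h1 : a 1 ≠ 0
  · refine key !![1, 0, 0; 0, 0, 1; a 0, a 1, a 2] ?_ ?_
    · rw [Matrix.det_fin_three]
      simpa using h1
    · intro i
      fin_cases i <;> rfl
  by_cases h0 : a 0 ≠ 0
  · refine key !![0, 1, 0; 0, 0, 1; a 0, a 1, a 2] ?_ ?_
    · rw [Matrix.det_fin_three]
      simpa using h0
    · intro i
      fin_cases i <;> rfl
  exfalso
  apply ha
  rw [not_not] at h0 h1 h2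
  ext i
  fin_cases i
  · exact h0
  · exact h1
  · exact h2

/-- factorization of a binary quadratic form -/
theorem factor2 [IsAlgClosed k] (h2 : (2 : k) ≠ 0) (a b c : k) :
    ∃ p q p' q' : k, 2 * p * p' = a ∧ p * q' + q * p' = b ∧ 2 * q * q' = c := by
  by_cases ha : a = 0
  · refine ⟨0, 1, b, c / 2, by rw [ha]; ring, by ring, ?_⟩
    field_simp
  · obtain ⟨s, hs⟩ := IsAlgClosed.exists_pow_nat_eq (b ^ 2 - a * c) (n := 2) (by norm_num)
    refine ⟨a / 2, (b - s) / 2, 1, (b + s) / a, ?_, ?_, ?_⟩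
    · field_simp
    · field_simp
      ring
    · have : 2 * ((b - s) / 2) * ((b + s) / a) = (b ^ 2 - s ^ 2) / a := by
        field_simp
        ring
      rw [this, hs]
      field_simp
      ring

/-- a symmetric matrix with kernel `⟨u⟩` is over an algebraically closed field the form `2 x y` -/
theorem normal_form [IsAlgClosed k] (κ : K →+* k) (h2 : (2 : K) ≠ 0)
    (S : Matrix (Fin 3) (Fin 3) K) (hS : Sᵀ = S) (u : Fin 3 → K) (hu : u ≠ 0)
    (hSu : S *ᵥ u = 0) (hker : ∀ v, S *ᵥ v = 0 → ∃ c : K, v = c • u) :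
    ∃ P Q : Matrix (Fin 3) (Fin 3) k, P * Q = 1 ∧ Q * P = 1 ∧ S.map κ = Pᵀ * E k * P ∧
      ∃ w : k, w ≠ 0 ∧ P *ᵥ (κ ∘ u) = ![0, 0, w] := by
  obtain ⟨T', T, hTT, hTT', hT⟩ := complete u hu
  -- `T'ᵀ` has last column `u`
  set W : Matrix (Fin 3) (Fin 3) K := T'ᵀ with hW
  set V : Matrix (Fin 3) (Fin 3) K := Tᵀ with hV
  have hVW : V * W = 1 := by rw [hV, hW, ← transpose_mul, hTT, transpose_one]
  have hWV : W * V = 1 := by rw [hV, hW, ← transpose_mul, hTT', transpose_one]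
  have hWu : W *ᵥ ![0, 0, 1] = u := by
    ext i
    simp [W, mulVec, dotProduct, Fin.sum_univ_three, hT]
  set S' : Matrix (Fin 3) (Fin 3) K := Wᵀ * S * W with hS'
  have hS's : S'ᵀ = S' := by
    rw [hS', transpose_mul, transpose_mul, transpose_transpose, hS, Matrix.mul_assoc]
  have hS'3 : S' *ᵥ ![0, 0, 1] = 0 := by
    rw [hS', Matrix.mul_assoc, ← mulVec_mulVec, ← mulVec_mulVec, hWu, hSu, mulVec_zero]
  have e3 : ∀ i, S' i 2 = 0 := by
    intro i
    have := congrFun hS'3 i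
    simpa [mulVec, dotProduct, Fin.sum_univ_three] using this
  have sym : ∀ i j, S' i j = S' j i := by
    intro i j
    conv_lhs => rw [← hS's]
    rfl
  have e3' : ∀ i, S' 2 i = 0 := fun i => by rw [sym, e3]
  -- nondegenerate
  have hdet : S' 0 0 * S' 1 1 - S' 0 1 * S' 0 1 ≠ 0 := by
    intro h0
    have hz : ∀ x y : K, S' 0 0 * x + S' 0 1 * y = 0 → S' 0 1 * x + S' 1 1 * y = 0 →
        x = 0 ∧ y = 0 := by
      intro x y hx hy
      have h1 : S' *ᵥ ![x, y, 0] = 0 := by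
        ext i
        fin_cases i
        · simpa [mulVec, dotProduct, Fin.sum_univ_three] using hx
        · simpa [mulVec, dotProduct, Fin.sum_univ_three, sym 1 0] using hy
        · simp [mulVec, dotProduct, e3']
      have h3 : S *ᵥ (W *ᵥ ![x, y, 0]) = 0 := by
        have h4 : Vᵀ *ᵥ (S' *ᵥ ![x, y, 0]) = 0 := by rw [h1, mulVec_zero]
        rw [hS', mulVec_mulVec, ← Matrix.mul_assoc, ← Matrix.mul_assoc, ← transpose_mul, hWV,
          transpose_one, Matrix.one_mul, ← mulVec_mulVec] at h4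
        exact h4
      obtain ⟨c, hc⟩ := hker _ h3
      have h5 : ![x, y, 0] = c • ![0, 0, 1] := by
        have h6 : V *ᵥ (W *ᵥ ![x, y, 0]) = V *ᵥ (c • u) := by rw [hc]
        rw [mulVec_mulVec, hVW, one_mulVec, mulVec_smul, ← hWu, mulVec_mulVec, hVW,
          one_mulVec] at h6
        exact h6
      refine ⟨?_, ?_⟩
      · have := congrFun h5 0
        simpa using this
      · have := congrFun h5 1
        simpa using this
    obtain ⟨h1, h1'⟩ := hz (S' 1 1) (-S' 0 1) (by linear_combination h0) (by ring)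
    obtain ⟨h3, h3'⟩ := hz (-S' 0 1) (S' 0 0) (by ring) (by linear_combination h0)
    obtain ⟨h4, -⟩ := hz 1 0 (by rw [h3']; ring) (by linear_combination -h3)
    exact one_ne_zero h4
  have h2k : (2 : k) ≠ 0 := by
    have := (map_ne_zero κ).mpr h2
    rwa [map_ofNat] at this
  obtain ⟨p, q, p', q', h1, h3, h4⟩ := factor2 h2k (κ (S' 0 0)) (κ (S' 0 1)) (κ (S' 1 1))
  set Z : Matrix (Fin 3) (Fin 3) k := !![p, q, 0; p', q', 0; 0, 0, 1] with hZ
  have hZdet : Z.det ≠ 0 := by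
    rw [hZ, Matrix.det_fin_three]
    have h5 : (p * q' - q * p') ^ 2 = -κ (S' 0 0 * S' 1 1 - S' 0 1 * S' 0 1) := by
      rw [map_sub, map_mul, map_mul, ← h1, ← h3, ← h4]
      ring
    have h6 : (p * q' - q * p') ^ 2 ≠ 0 := by
      rw [h5]
      exact neg_ne_zero.mpr ((map_ne_zero κ).mpr hdet)
    have h7 : p * q' - q * p' ≠ 0 := fun h => h6 (by rw [h]; ring)
    simpa using h7
  have hZu : IsUnit Z.det := isUnit_iff_ne_zero.mpr hZdet
  have hS'k : S'.map κ = Zᵀ * E k * Z := by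
    ext i j
    have hS2 : ∀ i, S' i 2 = 0 := e3
    have hS3 : ∀ i, S' 2 i = 0 := e3'
    fin_cases i <;> fin_cases j <;>
      simp [Matrix.mul_apply, Fin.sum_univ_three, Z, E, hS2, hS3, sym 1 0, ← h1, ← h3, ← h4] <;> ring
  have hmap : ∀ M N : Matrix (Fin 3) (Fin 3) K, (M * N).map κ = M.map κ * N.map κ := fun M N =>
    Matrix.map_mul
  have hVWk : V.map κ * W.map κ = 1 := by
    rw [← hmap, hVW, Matrix.map_one _ κ.map_zero κ.map_one]
  have hWVk : W.map κ * V.map κ = 1 := by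
    rw [← hmap, hWV, Matrix.map_one _ κ.map_zero κ.map_one]
  have hSV : S = Vᵀ * S' * V := by
    have : Vᵀ * (Wᵀ * S * W) * V = (W * V)ᵀ * S * (W * V) := by
      rw [transpose_mul]
      simp only [Matrix.mul_assoc]
    rw [hS', this, hWV, transpose_one, Matrix.one_mul, Matrix.mul_one]
  refine ⟨Z * V.map κ, W.map κ * Z⁻¹, ?_, ?_, ?_, ?_⟩
  · rw [Matrix.mul_assoc, ← Matrix.mul_assoc (V.map κ), hVWk, Matrix.one_mul,
      Matrix.mul_nonsing_inv Z hZu]
  · rw [Matrix.mul_assoc, ← Matrix.mul_assoc Z⁻¹, Matrix.nonsing_inv_mul Z hZu, Matrix.one_mul,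
      hWVk]
  · rw [hSV, hmap, hmap, hS'k, transpose_mul]
    have : (Vᵀ).map κ = (V.map κ)ᵀ := rfl
    rw [this]
    simp only [Matrix.mul_assoc]
  · refine ⟨1, one_ne_zero, ?_⟩
    have h5 : V *ᵥ u = ![0, 0, 1] := by
      rw [← hWu, mulVec_mulVec, hVW, one_mulVec]
    have h6 : V.map κ *ᵥ (κ ∘ u) = ![0, 0, 1] := by
      ext i
      have h7 := congrArg κ (congrFun h5 i)
      have h8 : (V.map κ *ᵥ (κ ∘ u)) i = κ ((V *ᵥ u) i) := by
        simp [mulVec, dotProduct]
      rw [h8, h7]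
      fin_cases i <;> simp
    rw [← mulVec_mulVec, h6]
    ext i
    fin_cases i <;> simp [Z, mulVec, dotProduct, Fin.sum_univ_three]

/-- the orthogonal group of the form `2 x y` -/
theorem core_pt (h2 : (2 : k) ≠ 0) (Z : Matrix (Fin 3) (Fin 3) k) (ν : k) (hν : ν ≠ 0)
    (hZ : Zᵀ * E k * Z = ν • E k) :
    Z 0 2 = 0 ∧ Z 1 2 = 0 ∧ ((Z 0 1 = 0 ∧ Z 1 0 = 0 ∧ Z 0 0 ≠ 0) ∨
      (Z 0 0 = 0 ∧ Z 1 1 = 0 ∧ Z 0 1 ≠ 0 ∧ Z 0 1 * Z 1 0 = ν)) := by
  have h00 : Z 1 0 * Z 0 0 + Z 0 0 * Z 1 0 = 0 := by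
    have := congrFun (congrFun hZ 0) 0
    simpa [Matrix.mul_apply, Fin.sum_univ_three, E] using this
  have h01 : Z 1 0 * Z 0 1 + Z 0 0 * Z 1 1 = ν := by
    have := congrFun (congrFun hZ 0) 1
    simpa [Matrix.mul_apply, Fin.sum_univ_three, E] using this
  have h11 : Z 1 1 * Z 0 1 + Z 0 1 * Z 1 1 = 0 := by
    have := congrFun (congrFun hZ 1) 1
    simpa [Matrix.mul_apply, Fin.sum_univ_three, E] using this
  have h02 : Z 1 0 * Z 0 2 + Z 0 0 * Z 1 2 = 0 := by
    have := congrFun (congrFun hZ 0) 2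
    simpa [Matrix.mul_apply, Fin.sum_univ_three, E] using this
  have h12 : Z 1 1 * Z 0 2 + Z 0 1 * Z 1 2 = 0 := by
    have := congrFun (congrFun hZ 1) 2
    simpa [Matrix.mul_apply, Fin.sum_univ_three, E] using this
  by_cases h : Z 0 0 = 0
  · rw [h, zero_mul, add_zero] at h01
    have h3 : Z 0 1 ≠ 0 := by
      intro h4
      rw [h4, mul_zero] at h01
      exact hν h01.symm
    have h3' : Z 1 0 ≠ 0 := by
      intro h4
      rw [h4, zero_mul] at h01
      exact hν h01.symm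
    have h5 : Z 1 1 = 0 := by
      have h6 : 2 * (Z 1 1 * Z 0 1) = 0 := by linear_combination h11
      rcases mul_eq_zero.mp h6 with h7 | h7
      · exact absurd h7 h2
      · exact (mul_eq_zero.mp h7).resolve_right h3
    rw [h, zero_mul, add_zero] at h02
    rw [h5, zero_mul, zero_add] at h12
    refine ⟨(mul_eq_zero.mp h02).resolve_left h3', (mul_eq_zero.mp h12).resolve_left h3,
      Or.inr ⟨h, h5, h3, by rw [mul_comm]; exact h01⟩⟩
  · have h5 : Z 1 0 = 0 := by
      have h6 : 2 * (Z 1 0 * Z 0 0) = 0 := by linear_combination h00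
      rcases mul_eq_zero.mp h6 with h7 | h7
      · exact absurd h7 h2
      · exact (mul_eq_zero.mp h7).resolve_right h
    rw [h5, zero_mul, zero_add] at h01
    have h6 : Z 1 1 ≠ 0 := by
      intro h7
      rw [h7, mul_zero] at h01
      exact hν h01.symm
    have h7 : Z 0 1 = 0 := by
      have h8 : 2 * (Z 1 1 * Z 0 1) = 0 := by linear_combination h11
      rcases mul_eq_zero.mp h8 with h9 | h9
      · exact absurd h9 h2
      · exact (mul_eq_zero.mp h9).resolve_left h6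
    rw [h5, zero_mul, zero_add] at h02
    rw [h7, zero_mul, add_zero] at h12
    exact ⟨(mul_eq_zero.mp h12).resolve_left h6, (mul_eq_zero.mp h02).resolve_left h,
      Or.inl ⟨h7, h5, h⟩⟩

/-- the characteristic polynomial -/
theorem charpoly_pt (Z : Matrix (Fin 3) (Fin 3) k) (h00 : Z 0 0 = 0) (h11 : Z 1 1 = 0)
    (h02 : Z 0 2 = 0) (h12 : Z 1 2 = 0) :
    Z.charpoly = (Polynomial.X - Polynomial.C (Z 2 2)) *
      (Polynomial.X ^ 2 - Polynomial.C (Z 0 1 * Z 1 0)) := by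
  unfold Matrix.charpoly
  rw [Matrix.det_fin_three]
  simp only [charmatrix_apply, h00, h11, h02, h12, Matrix.diagonal_apply_eq, map_zero, sub_zero,
    map_mul]
  simp [Matrix.diagonal]
  ring

end RS3aux

end REC
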