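import Pool.Agent.Helper85.REC.Stmts9
import Pool.Agent.Helper20.REC.RS3a

/-!
# Reducible representations in dimension three with an invariant form
-/

set_option autoImplicit false

open Matrix

namespace REC

open MU

namespace RS3aux

variable {K k : Type} [Field K] [Field k] {G : Type} [Group G]

/-- the conclusion of `ST_RS3` -/
def Concl (κ : K →+* k) (r : G →* Matrix (Fin 3) (Fin 3) K) (ν : G → K) : Prop :=
  (∃ (B₁ : Matrix (Fin 3) (Fin 1) k) (A₁ : G → Matrix (Fin 1) (Fin 1) k)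
      (B₂ : Matrix (Fin 3) (Fin 2) k) (A₂ : G → Matrix (Fin 2) (Fin 2) k)
      (Y : Matrix (Fin 2) (Fin 1) k), IsSub (mapk κ r) B₁ A₁ ∧ IsSub (mapk κ r) B₂ A₂ ∧
        B₁ = B₂ * Y) ∨
    ∃ (G' : Subgroup G) (χ : G → K), G'.index = 2 ∧ (∀ g, r g = 1 → g ∈ G') ∧
      (∀ g, χ g ^ 2 = ν g) ∧
      (∀ g, g ∉ G' → (r g).charpoly = (Polynomial.X : Polynomial K) ^ 3 -
        Polynomial.C (χ g) * (Polynomial.X : Polynomial K) ^ 2 -
        Polynomial.C (χ g ^ 2) * (Polynomial.X : Polynomial K) + Polynomial.C (χ g ^ 3)) ∧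
      ((∃ (B : Matrix (Fin 3) (Fin 1) K) (A : G → Matrix (Fin 1) (Fin 1) K), IsSub r B A ∧
          ∀ g, (A g).det = χ g) ∨
        ∃ (B : Matrix (Fin 3) (Fin 2) K) (A : G → Matrix (Fin 2) (Fin 2) K), IsSub r B A ∧
          ∀ g, (A g).det * χ g = (r g).det)

theorem inv_mul (r : G →* Matrix (Fin 3) (Fin 3) K) (g : G) : r g⁻¹ * r g = 1 := by
  rw [← map_mul, inv_mul_cancel, map_one]

theorem mul_inv (r : G →* Matrix (Fin 3) (Fin 3) K) (g : G) : r g * r g⁻¹ = 1 := by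
  rw [← map_mul, mul_inv_cancel, map_one]

theorem group_core (h2 : (2 : k) ≠ 0) (N : G →* Matrix (Fin 3) (Fin 3) k) (ν : G → k)
    (hν : ∀ g, ν g ≠ 0) (hN : ∀ g, (N g)ᵀ * E k * N g = ν g • E k) :
    (∀ g, N g 0 1 = 0 ∧ N g 1 0 = 0) ∨
      ∃ G' : Subgroup G, G'.index = 2 ∧ ∀ g, g ∈ G' ↔ N g 0 1 = 0 := by
  have hpt := fun g => core_pt h2 (N g) (ν g) (hν g) (hN g)
  have hmul : ∀ g h : G, N (g * h) 0 1 = N g 0 0 * N h 0 1 + N g 0 1 * N h 1 1 := by
    intro g h
    rw [map_mul, Matrix.mul_apply, Fin.sum_univ_three, (hpt g).1]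
    ring
  have hfix : ∀ g, N g 0 1 = 0 → N g 0 0 ≠ 0 := by
    intro g hg
    rcases (hpt g).2.2 with h | h
    · exact h.2.2
    · exact absurd hg h.2.2.1
  have hsw : ∀ g, N g 0 1 ≠ 0 → N g 0 0 = 0 ∧ N g 1 1 = 0 := by
    intro g hg
    rcases (hpt g).2.2 with h | h
    · exact absurd h.1 hg
    · exact ⟨h.1, h.2.1⟩
  by_cases hall : ∀ g, N g 0 1 = 0 ∧ N g 1 0 = 0
  · exact Or.inl hall
  · right
    rw [not_forall] at hall
    obtain ⟨a, ha⟩ := hall
    have ha1 : N a 0 1 ≠ 0 := by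
      rcases (hpt a).2.2 with h | h
      · exact absurd ⟨h.1, h.2.1⟩ ha
      · exact h.2.2.1
    let G' : Subgroup G :=
      { carrier := {g | N g 0 1 = 0}
        mul_mem' := by
          intro g h hg hh
          show N (g * h) 0 1 = 0
          rw [hmul, show N h 0 1 = 0 from hh, show N g 0 1 = 0 from hg]
          ring
        one_mem' := by
          show N 1 0 1 = 0
          rw [map_one]
          rfl
        inv_mem' := by
          intro g hg
          show N g⁻¹ 0 1 = 0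
          have h1 : N (g * g⁻¹) 0 1 = 0 := by
            rw [mul_inv_cancel, map_one]
            rfl
          rw [hmul, show N g 0 1 = 0 from hg, zero_mul, add_zero] at h1
          exact (mul_eq_zero.mp h1).resolve_left (hfix g hg) }
    refine ⟨G', ?_, fun g => Iff.rfl⟩
    rw [Subgroup.index_eq_two_iff]
    refine ⟨a, fun b => ?_⟩
    have hmem : ∀ g, g ∈ G' ↔ N g 0 1 = 0 := fun g => Iff.rfl
    rw [hmem, hmem, hmul]
    by_cases hb : N b 0 1 = 0
    · refine Or.inr ⟨hb, ?_⟩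
      rw [hb, zero_mul, add_zero]
      exact mul_ne_zero (hfix b hb) ha1
    · refine Or.inl ⟨?_, hb⟩
      rw [(hsw b hb).1, (hsw a ha1).2]
      ring

/-- conjugation into the normal form, pointwise -/
theorem pt (κ : K →+* k) (P Q : Matrix (Fin 3) (Fin 3) k) (hPQ : P * Q = 1) (hQP : Q * P = 1)
    (S : Matrix (Fin 3) (Fin 3) K) (hSk : S.map κ = Pᵀ * E k * P) (u : Fin 3 → K) (w : k)
    (hw : w ≠ 0) (hPu : P *ᵥ (κ ∘ u) = ![0, 0, w]) (R : Matrix (Fin 3) (Fin 3) K) (ν χ : K)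
    (hR : Rᵀ * S * R = ν • S) (hχ : R *ᵥ u = χ • u) :
    (P * R.map κ * Q)ᵀ * E k * (P * R.map κ * Q) = κ ν • E k ∧
      (P * R.map κ * Q) 2 2 = κ χ := by
  constructor
  · have h1 : (P * R.map κ * Q)ᵀ * E k * (P * R.map κ * Q) =
        Qᵀ * ((R.map κ)ᵀ * (Pᵀ * E k * P) * R.map κ) * Q := by
      rw [transpose_mul, transpose_mul]
      simp only [Matrix.mul_assoc]
    have h2 : (R.map κ)ᵀ * S.map κ * R.map κ = κ ν • S.map κ := by
      have h3 : (Rᵀ * S * R).map κ = (R.map κ)ᵀ * S.map κ * R.map κ := by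
        rw [Matrix.map_mul, Matrix.map_mul]
        rfl
      rw [← h3, hR]
      ext i j
      simp
    have h4 : (Q : Matrix (Fin 3) (Fin 3) k)ᵀ * Pᵀ = 1 := by
      rw [← transpose_mul, hPQ, transpose_one]
    rw [h1, ← hSk, h2, hSk, Matrix.mul_smul, Matrix.smul_mul]
    congr 1
    calc Qᵀ * (Pᵀ * E k * P) * Q = (Qᵀ * Pᵀ) * E k * (P * Q) := by
          simp only [Matrix.mul_assoc]
      _ = E k := by rw [h4, hPQ, Matrix.one_mul, Matrix.mul_one]
  · have h1 : (P * R.map κ * Q) *ᵥ ![0, 0, w] = κ χ • ![0, 0, w] := by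
      rw [← hPu, mulVec_mulVec, Matrix.mul_assoc, hQP, Matrix.mul_one, ← mulVec_mulVec]
      have h2 : R.map κ *ᵥ (κ ∘ u) = κ χ • (κ ∘ u) := by
        ext i
        have h3 := congrArg κ (congrFun hχ i)
        simpa [mulVec, dotProduct] using h3
      rw [h2, mulVec_smul]
    have h3 := congrFun h1 2
    simp [mulVec, dotProduct, Fin.sum_univ_three] at h3
    rcases h3 with h4 | h4
    · exact h4
    · exact absurd h4 hw

/-- the characteristic polynomial, pointwise -/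
theorem charpoly_R (κ : K →+* k) (P Q : Matrix (Fin 3) (Fin 3) k) (hPQ : P * Q = 1)
    (hQP : Q * P = 1) (R : Matrix (Fin 3) (Fin 3) K) (χ : K)
    (h22 : (P * R.map κ * Q) 2 2 = κ χ)
    (h00 : (P * R.map κ * Q) 0 0 = 0) (h11 : (P * R.map κ * Q) 1 1 = 0)
    (h02 : (P * R.map κ * Q) 0 2 = 0) (h12 : (P * R.map κ * Q) 1 2 = 0)
    (hst : (P * R.map κ * Q) 0 1 * (P * R.map κ * Q) 1 0 = κ (χ ^ 2)) :
    R.charpoly = (Polynomial.X : Polynomial K) ^ 3 -
        Polynomial.C (χ) * (Polynomial.X : Polynomial K) ^ 2 -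
        Polynomial.C (χ ^ 2) * (Polynomial.X : Polynomial K) + Polynomial.C (χ ^ 3) := by
  apply Polynomial.map_injective κ κ.injective
  have h1 := charpoly_pt _ h00 h11 h02 h12
  rw [h22, hst] at h1
  have h2 : (P * R.map κ * Q).charpoly = (R.map κ).charpoly := by
    rw [Matrix.mul_assoc, Matrix.charpoly_mul_comm, Matrix.mul_assoc, hQP, Matrix.mul_one]
  rw [h2] at h1
  rw [← Matrix.charpoly_map, h1]
  simp only [Polynomial.map_add, Polynomial.map_sub, Polynomial.map_mul, Polynomial.map_pow,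
    Polynomial.map_X, Polynomial.map_C, map_pow]
  ring

theorem sub_transport {m : ℕ} (ρ : G →* Matrix (Fin 3) (Fin 3) k)
    (P Q : Matrix (Fin 3) (Fin 3) k) (hPQ : P * Q = 1) (hQP : Q * P = 1)
    (B' : Matrix (Fin 3) (Fin m) k) (C' : Matrix (Fin m) (Fin 3) k) (hC : C' * B' = 1)
    (A : G → Matrix (Fin m) (Fin m) k) (hA : ∀ g, (P * ρ g * Q) * B' = B' * A g) :
    IsSub ρ (Q * B') A := by
  refine ⟨⟨C' * P, ?_⟩, fun g => ?_⟩
  · rw [Matrix.mul_assoc, ← Matrix.mul_assoc P, hPQ, Matrix.one_mul, hC]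
  · have h1 := congrArg (fun M => Q * M) (hA g)
    simp only [← Matrix.mul_assoc] at h1
    rw [hQP, Matrix.one_mul] at h1
    rw [← Matrix.mul_assoc, h1]

theorem chi_ne_zero (r : G →* Matrix (Fin 3) (Fin 3) K) (u : Fin 3 → K) (hu : u ≠ 0) (g : G)
    (c : K) (h : r g *ᵥ u = c • u) : c ≠ 0 := by
  rintro rfl
  apply hu
  have h1 : r g⁻¹ *ᵥ (r g *ᵥ u) = u := by rw [mulVec_mulVec, inv_mul, one_mulVec]
  rw [← h1, h, zero_smul, mulVec_zero]

theorem line_sub (r : G →* Matrix (Fin 3) (Fin 3) K) (u : Fin 3 → K) (hu : u ≠ 0) (c : G → K)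
    (h : ∀ g, r g *ᵥ u = c g • u) :
    IsSub r (Matrix.of fun (i : Fin 3) (_ : Fin 1) => u i)
      (fun g => Matrix.of fun _ _ => c g) := by
  obtain ⟨i, hi⟩ : ∃ i, u i ≠ 0 := by
    by_contra h0
    rw [not_exists] at h0
    apply hu
    ext i
    have := h0 i
    rwa [not_not] at this
  refine ⟨⟨Matrix.of fun _ j => if j = i then (u i)⁻¹ else 0, ?_⟩, fun g => ?_⟩
  · ext a b
    rw [Matrix.mul_apply]
    simp [Matrix.one_apply, Subsingleton.elim a b, hi]
  · ext a b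
    have h1 := congrFun (h g) a
    simp only [mulVec, dotProduct, Pi.smul_apply, smul_eq_mul] at h1
    rw [Matrix.mul_apply, Matrix.mul_apply]
    simp only [Matrix.of_apply]
    rw [h1]
    simp [mul_comm]

theorem plane_sub (r : G →* Matrix (Fin 3) (Fin 3) K) (y : Fin 3 → K) (hy : y ≠ 0) (c : G → K)
    (h : ∀ g, (r g)ᵀ *ᵥ y = c g • y) :
    ∃ (B : Matrix (Fin 3) (Fin 2) K) (C : Matrix (Fin 2) (Fin 3) K)
      (A : G → Matrix (Fin 2) (Fin 2) K), C * B = 1 ∧ (∀ g, r g * B = B * A g) ∧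
      (∀ g, (A g).det * c g = (r g).det) ∧ ∀ v, y ⬝ᵥ v = 0 → B *ᵥ (C *ᵥ v) = v := by
  obtain ⟨P, Q, hPQ, hQP, hP⟩ := complete y hy
  set E2 : Matrix (Fin 3) (Fin 2) K := !![1, 0; 0, 1; 0, 0] with hE2
  have hEE : E2ᵀ * E2 = 1 := by
    ext i j
    fin_cases i <;> fin_cases j <;> simp [E2, Matrix.mul_apply, Fin.sum_univ_three]
  have hrow : ∀ g j, (P * r g * Q) 2 j = c g * (1 : Matrix (Fin 3) (Fin 3) K) 2 j := by
    intro g j
    rw [← hPQ, Matrix.mul_apply, Matrix.mul_apply, Finset.mul_sum]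
    refine Finset.sum_congr rfl fun i _ => ?_
    rw [← mul_assoc]
    congr 1
    have h1 := congrFun (h g) i
    simp only [mulVec, dotProduct, Pi.smul_apply, smul_eq_mul, transpose_apply] at h1
    rw [Matrix.mul_apply, hP, ← h1]
    refine Finset.sum_congr rfl fun l _ => ?_
    rw [hP, mul_comm]
  have h20 : ∀ g, (P * r g * Q) 2 0 = 0 := fun g => by rw [hrow]; simp
  have h21 : ∀ g, (P * r g * Q) 2 1 = 0 := fun g => by rw [hrow]; simp
  have h22 : ∀ g, (P * r g * Q) 2 2 = c g := fun g => by rw [hrow]; simp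
  have hA : ∀ g, (P * r g * Q) * E2 = E2 * (E2ᵀ * (P * r g * Q) * E2) := by
    intro g
    have a := h20 g
    have b := h21 g
    generalize P * r g * Q = N at a b
    ext i j
    fin_cases i <;> fin_cases j <;>
      simp [E2, Matrix.mul_apply, Fin.sum_univ_three, a, b, Matrix.transpose_apply]
  have hs := sub_transport r P Q hPQ hQP E2 E2ᵀ hEE _ hA
  refine ⟨Q * E2, E2ᵀ * P, _, ?_, hs.2, fun g => ?_, fun v hv => ?_⟩
  · rw [Matrix.mul_assoc, ← Matrix.mul_assoc P, hPQ, Matrix.one_mul, hEE]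
  · have h1 : (P * r g * Q).det = (r g).det := by
      have h3 : P.det * Q.det = 1 := by rw [← det_mul, hPQ, det_one]
      rw [det_mul, det_mul]
      linear_combination (r g).det * h3
    rw [← h1, Matrix.det_fin_three, Matrix.det_fin_two, h20, h21, h22]
    generalize P * r g * Q = N
    simp [E2, Matrix.mul_apply, Fin.sum_univ_three, Matrix.transpose_apply]
    ring
  · have h1 : E2 *ᵥ (E2ᵀ *ᵥ (P *ᵥ v)) = P *ᵥ v := by
      have h3 : (P *ᵥ v) 2 = 0 := by
        rw [← hv]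
        simp only [mulVec, dotProduct]
        exact Finset.sum_congr rfl fun i _ => by rw [hP]
      ext i
      fin_cases i
      · simp [E2, mulVec, dotProduct, Fin.sum_univ_three, Fin.sum_univ_two]
      · simp [E2, mulVec, dotProduct, Fin.sum_univ_three, Fin.sum_univ_two]
      · simp only [Fin.reduceFinMk]
        rw [h3]
        simp [E2, mulVec, dotProduct, Fin.sum_univ_two]
    rw [← mulVec_mulVec, ← mulVec_mulVec, h1, mulVec_mulVec, hQP, one_mulVec]

/-- a stable line in the radical of the form -/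
theorem caseL [IsAlgClosed k] (κ : K →+* k) (h2 : (2 : K) ≠ 0)
    (r : G →* Matrix (Fin 3) (Fin 3) K) (S : Matrix (Fin 3) (Fin 3) K) (hS : Sᵀ = S)
    (ν : G → K) (hr : ∀ g, (r g)ᵀ * S * r g = ν g • S) (u : Fin 3 → K) (hu : u ≠ 0)
    (hSu : S *ᵥ u = 0) (hker : ∀ v, S *ᵥ v = 0 → ∃ c : K, v = c • u) (χ : G → K)
    (hχ : ∀ g, r g *ᵥ u = χ g • u) (hχ2 : ∀ g, χ g ^ 2 = ν g) : Concl κ r ν := by
  have h2k : (2 : k) ≠ 0 := by
    have := (map_ne_zero κ).mpr h2
    rwa [map_ofNat] at this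
  obtain ⟨P, Q, hPQ, hQP, hSk, w, hw, hPu⟩ := normal_form κ h2 S hS u hu hSu hker
  have hpt := fun g => pt κ P Q hPQ hQP S hSk u w hw hPu (r g) (ν g) (χ g) (hr g) (hχ g)
  have hν : ∀ g, κ (ν g) ≠ 0 := fun g => by
    rw [← hχ2]
    exact (map_ne_zero κ).mpr (pow_ne_zero _ (chi_ne_zero r u hu g _ (hχ g)))
  let N : G →* Matrix (Fin 3) (Fin 3) k :=
    { toFun := fun g => P * (r g).map κ * Q
      map_one' := by
        rw [map_one, Matrix.map_one _ κ.map_zero κ.map_one, Matrix.mul_one, hPQ]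
      map_mul' := by
        intro g h
        rw [map_mul, Matrix.map_mul]
        have : P * (r g).map κ * Q * (P * (r h).map κ * Q) =
            P * (r g).map κ * (Q * P) * (r h).map κ * Q := by
          simp only [Matrix.mul_assoc]
        rw [this, hQP, Matrix.mul_one]
        simp only [Matrix.mul_assoc] }
  have hNg : ∀ g, N g = P * (r g).map κ * Q := fun g => rfl
  have hcp := fun g => core_pt h2k (N g) (κ (ν g)) (hν g) (hpt g).1
  rcases group_core h2k N (fun g => κ (ν g)) hν (fun g => (hpt g).1) with h | ⟨G', hG', hmem⟩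
  · left
    refine ⟨Q * (!![0; 0; 1] : Matrix (Fin 3) (Fin 1) k), fun g => !![N g 2 2],
      Q * (!![0, 0; 0, 1; 1, 0] : Matrix (Fin 3) (Fin 2) k),
      fun g => !![N g 2 2, N g 2 1; 0, N g 1 1], !![1; 0], ?_, ?_, ?_⟩
    · refine sub_transport (mapk κ r) P Q hPQ hQP _ !![0, 0, 1] ?_ _ fun g => ?_
      · ext i j
        fin_cases i
        fin_cases j
        simp [Matrix.mul_apply, Fin.sum_univ_three]
      · rw [show P * (mapk κ r) g * Q = N g from rfl]
        have a := (hcp g).1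
        have b := (hcp g).2.1
        ext i j
        fin_cases j
        fin_cases i <;> simp [Matrix.mul_apply, Fin.sum_univ_three, a, b]
    · refine sub_transport (mapk κ r) P Q hPQ hQP _ !![0, 0, 1; 0, 1, 0] ?_ _ fun g => ?_
      · ext i j
        fin_cases i <;> fin_cases j <;> simp [Matrix.mul_apply, Fin.sum_univ_three]
      · rw [show P * (mapk κ r) g * Q = N g from rfl]
        have a := (hcp g).1
        have b := (hcp g).2.1
        have c := (h g).1
        ext i j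
        fin_cases i <;> fin_cases j <;>
          simp [Matrix.mul_apply, Fin.sum_univ_three, Fin.sum_univ_two, a, b, c]
    · rw [Matrix.mul_assoc]
      congr 1
      ext i j
      fin_cases j
      fin_cases i <;> simp [Matrix.mul_apply, Fin.sum_univ_two]
  · right
    refine ⟨G', χ, hG', fun g hg => ?_, hχ2, fun g hg => ?_, Or.inl ⟨_, _, line_sub r u hu χ hχ,
      fun g => ?_⟩⟩
    · rw [hmem, hNg, hg, Matrix.map_one _ κ.map_zero κ.map_one, Matrix.mul_one, hPQ]
      rfl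
    · rw [hmem] at hg
      have h3 := hcp g
      rcases h3.2.2 with h4 | h4
      · exact absurd h4.1 hg
      · exact charpoly_R κ P Q hPQ hQP (r g) (χ g) (hpt g).2 h4.1 h4.2.1 h3.1 h3.2.1
          (by rw [hχ2]; exact h4.2.2.2)
    · rw [Matrix.det_fin_one]
      rfl

/-- a stable plane with a form -/
theorem caseP [IsAlgClosed k] (κ : K →+* k) (h2 : (2 : K) ≠ 0)
    (r : G →* Matrix (Fin 3) (Fin 3) K) (S : Matrix (Fin 3) (Fin 3) K) (hS : Sᵀ = S)
    (ν : G → K) (hr : ∀ g, r g * S * (r g)ᵀ = ν g • S) (y : Fin 3 → K) (hy : y ≠ 0)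
    (hSy : S *ᵥ y = 0) (hker : ∀ v, S *ᵥ v = 0 → ∃ c : K, v = c • y) (χ : G → K)
    (hχ : ∀ g, (r g)ᵀ *ᵥ y = χ g • y) (hχ2 : ∀ g, χ g ^ 2 = ν g) : Concl κ r ν := by
  have h2k : (2 : k) ≠ 0 := by
    have := (map_ne_zero κ).mpr h2
    rwa [map_ofNat] at this
  obtain ⟨P, Q, hPQ, hQP, hSk, w, hw, hPu⟩ := normal_form κ h2 S hS y hy hSy hker
  have hpt := fun g => pt κ P Q hPQ hQP S hSk y w hw hPu (r g)ᵀ (ν g) (χ g)
    (by rw [transpose_transpose]; exact hr g) (hχ g)
  have hχ0 : ∀ g, χ g ≠ 0 := by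
    intro g h0
    apply hy
    have h1 : (r g⁻¹)ᵀ *ᵥ ((r g)ᵀ *ᵥ y) = y := by
      rw [mulVec_mulVec, ← transpose_mul, mul_inv, transpose_one, one_mulVec]
    rw [← h1, hχ, h0, zero_smul, mulVec_zero]
  have hν : ∀ g, κ (ν g) ≠ 0 := fun g => by
    rw [← hχ2]
    exact (map_ne_zero κ).mpr (pow_ne_zero _ (hχ0 g))
  let N : G →* Matrix (Fin 3) (Fin 3) k :=
    { toFun := fun g => P * ((r g⁻¹)ᵀ).map κ * Q
      map_one' := by
        rw [inv_one, map_one, transpose_one, Matrix.map_one _ κ.map_zero κ.map_one,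
          Matrix.mul_one, hPQ]
      map_mul' := by
        intro g h
        rw [_root_.mul_inv_rev, map_mul, transpose_mul, Matrix.map_mul]
        have : P * ((r g⁻¹)ᵀ).map κ * Q * (P * ((r h⁻¹)ᵀ).map κ * Q) =
            P * ((r g⁻¹)ᵀ).map κ * (Q * P) * ((r h⁻¹)ᵀ).map κ * Q := by
          simp only [Matrix.mul_assoc]
        rw [this, hQP, Matrix.mul_one]
        simp only [Matrix.mul_assoc] }
  have hNg : ∀ g, N g = P * ((r g⁻¹)ᵀ).map κ * Q := fun g => rfl
  have hNg' : ∀ g, P * ((r g)ᵀ).map κ * Q = N g⁻¹ := fun g => by rw [hNg, inv_inv]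
  have hcp := fun g => core_pt h2k (N g) (κ (ν g⁻¹)) (hν g⁻¹) (hpt g⁻¹).1
  have hPQt : Qᵀ * Pᵀ = 1 := by rw [← transpose_mul, hPQ, transpose_one]
  have hQPt : Pᵀ * Qᵀ = 1 := by rw [← transpose_mul, hQP, transpose_one]
  have hNt : ∀ g, Qᵀ * (mapk κ r g) * Pᵀ = (N g⁻¹)ᵀ := by
    intro g
    rw [← hNg', transpose_mul, transpose_mul, Matrix.mul_assoc]
    rfl
  rcases group_core h2k N (fun g => κ (ν g⁻¹)) (fun g => hν g⁻¹) (fun g => (hpt g⁻¹).1) with
    h | ⟨G', hG', hmem⟩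
  · left
    refine ⟨Pᵀ * (!![1; 0; 0] : Matrix (Fin 3) (Fin 1) k), fun g => !![N g⁻¹ 0 0],
      Pᵀ * (!![1, 0; 0, 1; 0, 0] : Matrix (Fin 3) (Fin 2) k),
      fun g => !![N g⁻¹ 0 0, 0; 0, N g⁻¹ 1 1], !![1; 0], ?_, ?_, ?_⟩
    · refine sub_transport (mapk κ r) Qᵀ Pᵀ hPQt hQPt _ !![1, 0, 0] ?_ _ fun g => ?_
      · ext i j
        fin_cases i
        fin_cases j
        simp [Matrix.mul_apply, Fin.sum_univ_three]
      · rw [hNt]
        have a := (hcp g⁻¹).1
        have b := (h g⁻¹).1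
        ext i j
        fin_cases j
        fin_cases i <;> simp [Matrix.mul_apply, Fin.sum_univ_three, a, b]
    · refine sub_transport (mapk κ r) Qᵀ Pᵀ hPQt hQPt _ !![1, 0, 0; 0, 1, 0] ?_ _ fun g => ?_
      · ext i j
        fin_cases i <;> fin_cases j <;> simp [Matrix.mul_apply, Fin.sum_univ_three]
      · rw [hNt]
        have a := (hcp g⁻¹).1
        have a' := (hcp g⁻¹).2.1
        have b := (h g⁻¹).1
        have c := (h g⁻¹).2
        ext i j
        fin_cases i <;> fin_cases j <;>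
          simp [Matrix.mul_apply, Fin.sum_univ_three, Fin.sum_univ_two, a, a', b, c]
    · rw [Matrix.mul_assoc]
      congr 1
      ext i j
      fin_cases j
      fin_cases i <;> simp [Matrix.mul_apply, Fin.sum_univ_two]
  · right
    obtain ⟨B, C, A, hCB, hBA, hdet, -⟩ := plane_sub r y hy χ hχ
    refine ⟨G', χ, hG', fun g hg => ?_, hχ2, fun g hg => ?_, Or.inr ⟨B, A, ⟨⟨C, hCB⟩, hBA⟩,
      hdet⟩⟩
    · have hg' : r g⁻¹ = 1 := by
        have := inv_mul r g
        rwa [hg, Matrix.mul_one] at this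
      rw [hmem, hNg, hg', transpose_one, Matrix.map_one _ κ.map_zero κ.map_one, Matrix.mul_one,
        hPQ]
      rfl
    · have hg' : g⁻¹ ∉ G' := fun h3 => hg (by simpa using G'.inv_mem h3)
      rw [hmem] at hg'
      have h3 := hcp g⁻¹
      rcases h3.2.2 with h4 | h4
      · exact absurd h4.1 hg'
      · rw [← Matrix.charpoly_transpose]
        rw [inv_inv] at h4
        refine charpoly_R κ P Q hPQ hQP (r g)ᵀ (χ g) (hpt g).2 ?_ ?_ ?_ ?_ ?_
        · rw [hNg']; exact h4.1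
        · rw [hNg']; exact h4.2.1
        · rw [hNg']; exact h3.1
        · rw [hNg']; exact h3.2.1
        · rw [hNg', hχ2]; exact h4.2.2.2

end RS3aux

end REC
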