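import Pool.Agent.Helper20.REC.SLEa

/-!
# REC, SLE: large image implies residual irreducibility over the coefficient ring
-/

set_option autoImplicit false
set_option maxHeartbeats 800000

open scoped Classical
open NumberField Polynomial Topology

namespace REC.SLEw

open Pool.Agent.Helper13.ZL (Pl q)
open MU

theorem roots_finite {Ω : Type} [Field Ω] (R : ℤ[X]) (hR : R.Monic) [CharZero Ω] :
    {lam : 𝓞 Ω | aeval lam R = 0}.Finite := by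
  have h1 : (R.map (algebraMap ℤ (𝓞 Ω))) ≠ 0 := (hR.map _).ne_zero
  refine ((R.map (algebraMap ℤ (𝓞 Ω))).roots.toFinset.finite_toSet).subset fun lam hlam => ?_
  rw [Finset.mem_coe, Multiset.mem_toFinset, mem_roots h1, IsRoot.def, eval_map]
  exact hlam

theorem step1 (hWDT : ST_WDT) {F : Type} [Field F] [NumberField F] {S : Finset ℕ}
    (hS : ∀ p ∈ S, p.Prime) {n w : ℕ} {h : Fin n → ℕ} (M : Mot F S n w h) (R : ℤ[X]) (d : ℕ)
    (om : Matrix (Fin n) (Fin n) ℤ) (hAct : IsAct M R d om) (hFLT : FLT M)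
    (hcon : ∀ c : ℕ, ∃ (l : ℕ) (_ : Fact l.Prime), c < l ∧ ∃ (k : Type) (_ : Field k)
      (κ : ZMod l →+* k) (μ : k) (m : ℕ) (B : Matrix (Fin n) (Fin m) k)
      (A : Gal F → Matrix (Fin m) (Fin m) k), IsSub (mapk κ (res (M.ρ l))) B A ∧
        om.map (Int.castRingHom k) * B = μ • B ∧ m ≠ 0 ∧ m ≠ d) :
    ∃ (j : ℕ) (e : (F →+* AlgebraicClosure F) → ℕ) (lam : 𝓞 (AlgebraicClosure F)),
      0 < j ∧ j < d ∧ aeval lam R = 0 ∧
      ∀ c : ℕ, ∃ (l : ℕ) (_ : Fact l.Prime), c < l ∧ WDat M om j l e lam := by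
  obtain ⟨c2, hc2⟩ := hWDT F S hS n w h M R d om hAct hFLT
  set E : Set (ℕ × ((F →+* AlgebraicClosure F) → ℕ) × 𝓞 (AlgebraicClosure F)) :=
    {t | (0 < t.1 ∧ t.1 < d) ∧ (∀ τ, ∃ J : Finset (Fin n), t.2.1 τ = ∑ i ∈ J, h i) ∧
      aeval t.2.2 R = 0} with hE
  have hfin : E.Finite := by
    have h1 : (Set.Iio d).Finite := Set.finite_Iio d
    have h2 : (Set.pi Set.univ fun _ : F →+* AlgebraicClosure F =>
        Set.range fun J : Finset (Fin n) => ∑ i ∈ J, h i).Finite :=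
      Set.Finite.pi fun _ => Set.finite_range _
    refine (h1.prod (h2.prod (roots_finite (Ω := AlgebraicClosure F) R hAct.monic))).subset ?_
    rintro ⟨a, b, c⟩ ⟨⟨-, h3⟩, h4, h5⟩
    refine ⟨h3, ?_, h5⟩
    intro τ _
    obtain ⟨J, hJ⟩ := h4 τ
    exact ⟨J, hJ.symm⟩
  obtain ⟨⟨j, e, lam⟩, ⟨⟨hj0, hjd⟩, -, hlam⟩, hinf⟩ := pigeon E hfin
    (fun l t => ∃ _ : Fact l.Prime, WDat M om t.1 l t.2.1 t.2.2) (by
      intro c
      obtain ⟨l, hl, hcl, k, _, κ, μ, m, B, A, hsub, hom, hm0, hmd⟩ := hcon (max c c2)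
      obtain ⟨hmd', e, lam, he, hlam, hdat⟩ := hc2 l (lt_of_le_of_lt (le_max_right _ _) hcl) k κ μ
        m B A hsub hom hm0
      refine ⟨l, lt_of_le_of_lt (le_max_left _ _) hcl, ⟨m, e, lam⟩, ⟨⟨Nat.pos_of_ne_zero hm0,
        lt_of_le_of_ne hmd' hmd⟩, fun τ => ?_, hlam⟩, hl, hdat⟩
      obtain ⟨J, -, hJ⟩ := he τ
      exact ⟨J, hJ⟩)
  refine ⟨j, e, lam, hj0, hjd, hlam, fun c => ?_⟩
  obtain ⟨l, hcl, hl, hdat⟩ := hinf c
  exact ⟨l, hl, hcl, hdat⟩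

/-- a product of elements with values in `ℚ_l` -/
theorem prod_rat {l : ℕ} [Fact l.Prime] {F : Type} [Field F] [NumberField F]
    (φ : AlgebraicClosure F →+* AlgebraicClosure ℚ_[l])
    (hφ : ∀ (τ : F →+* AlgebraicClosure F) (x : F),
      ∃ a : ℚ_[l], φ (τ x) = algebraMap ℚ_[l] (AlgebraicClosure ℚ_[l]) a)
    (x : 𝓞 F) (e : (F →+* AlgebraicClosure F) → ℕ) :
    ∃ b : ℚ_[l], φ ((∏ τ : F →+* AlgebraicClosure F, RingOfIntegers.mapRingHom τ x ^ e τ :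
      𝓞 (AlgebraicClosure F)) : AlgebraicClosure F) =
        algebraMap ℚ_[l] (AlgebraicClosure ℚ_[l]) b := by
  choose a ha using hφ
  refine ⟨∏ τ : F →+* AlgebraicClosure F, a τ (x : F) ^ e τ, ?_⟩
  change (φ.comp (algebraMap (𝓞 (AlgebraicClosure F)) (AlgebraicClosure F))) _ = _
  rw [map_prod, map_prod]
  refine Finset.prod_congr rfl fun τ _ => ?_
  rw [map_pow, map_pow, ← ha]
  rfl

/-- the trace formula over the algebraic closure of `ℚ_l` -/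
theorem trace_K {F : Type} [Field F] [NumberField F] {S : Finset ℕ} {n w : ℕ} {h : Fin n → ℕ}
    (M : Mot F S n w h) (R : ℤ[X]) (d : ℕ) (om : Matrix (Fin n) (Fin n) ℤ) (p : ℕ) (g : Gal F)
    (la al : Fin n → 𝓞 (AlgebraicClosure F)) (hJ : Jev M R d om p g la al) (l : ℕ)
    [Fact l.Prime] (hlp : l ≠ p) (φ : AlgebraicClosure F →+* AlgebraicClosure ℚ_[l]) (i s : ℕ) :
    ((om.map (Int.castRingHom (AlgebraicClosure ℚ_[l]))) ^ i *
      ((rat (M.ρ l) g).map (algebraMap ℚ_[l] (AlgebraicClosure ℚ_[l]))) ^ s).trace =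
      ∑ b, φ (la b : AlgebraicClosure F) ^ i * φ (al b : AlgebraicClosure F) ^ s := by
  obtain ⟨a, ha1, ha2⟩ := hJ.2.2 i s
  have h1 := ha2 l hlp
  set ψ : ℤ_[l] →+* AlgebraicClosure ℚ_[l] :=
    (algebraMap ℚ_[l] (AlgebraicClosure ℚ_[l])).comp (algebraMap ℤ_[l] ℚ_[l]) with hψ
  have h2 : (om.map (Int.castRingHom (AlgebraicClosure ℚ_[l]))) ^ i *
      ((rat (M.ρ l) g).map (algebraMap ℚ_[l] (AlgebraicClosure ℚ_[l]))) ^ s =
      (om.map (Int.castRingHom ℤ_[l]) ^ i * (M.ρ l g : Matrix (Fin n) (Fin n) ℤ_[l]) ^ s).map ψ := by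
    have h3 : om.map (Int.castRingHom (AlgebraicClosure ℚ_[l])) =
        ψ.mapMatrix (om.map (Int.castRingHom ℤ_[l])) := by
      ext a b
      simp
    have h4 : (rat (M.ρ l) g).map (algebraMap ℚ_[l] (AlgebraicClosure ℚ_[l])) =
        ψ.mapMatrix (M.ρ l g : Matrix (Fin n) (Fin n) ℤ_[l]) := rfl
    rw [h3, h4, ← map_pow, ← map_pow, ← map_mul]
    rfl
  rw [h2]
  have h5 : ((om.map (Int.castRingHom ℤ_[l]) ^ i *
      (M.ρ l g : Matrix (Fin n) (Fin n) ℤ_[l]) ^ s).map ψ).trace = ψ ((om.map (Int.castRingHom ℤ_[l]) ^ i *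
      (M.ρ l g : Matrix (Fin n) (Fin n) ℤ_[l]) ^ s).trace) := by
    rw [Matrix.trace, Matrix.trace, map_sum]
    rfl
  rw [h5, h1, map_intCast]
  have h6 : ((∑ b, la b ^ i * al b ^ s : 𝓞 (AlgebraicClosure F)) : AlgebraicClosure F) = (a : ℤ) := by
    rw [ha1]
    exact map_intCast _ a
  have h7 := congrArg φ h6
  rw [map_intCast] at h7
  rw [← h7]
  change (φ.comp (algebraMap (𝓞 (AlgebraicClosure F)) (AlgebraicClosure F))) _ = _
  rw [map_sum]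
  refine Finset.sum_congr rfl fun b _ => ?_
  rw [map_mul, map_pow, map_pow]
  rfl

/-- the matrix identity: `(1 + l ^ (N + 1) Z) (1 + l ^ N C) = 1 + l ^ N C'` with `C' ≡ C` -/
theorem mat_id {l : ℕ} [Fact l.Prime] {d N : ℕ} (Z C : Matrix (Fin d) (Fin d) ℤ_[l]) :
    (1 + (l : ℤ_[l]) ^ (N + 1) • Z) * (1 + (l : ℤ_[l]) ^ N • C) =
      1 + (l : ℤ_[l]) ^ N • (C + (l : ℤ_[l]) • (Z + (l : ℤ_[l]) ^ N • (Z * C))) := by
  rw [Matrix.mul_add, Matrix.mul_one, Matrix.add_mul, Matrix.one_mul, Matrix.smul_mul,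
    Matrix.mul_smul, smul_smul, smul_add, smul_add, smul_add, smul_smul, smul_smul, smul_smul]
  have h1 : (l : ℤ_[l]) ^ N * (l : ℤ_[l]) = (l : ℤ_[l]) ^ (N + 1) := (pow_succ _ _).symm
  rw [h1]
  abel

theorem step2 (hJEV : ST_JEV) (hJSB : ST_JSB) (hSLD : ST_SLD) (hSPR : ST_SPR) (hOVP : ST_OVP)
    {F : Type} [Field F] [NumberField F] {S : Finset ℕ}
    (hS : ∀ p ∈ S, p.Prime) {n w : ℕ} {h : Fin n → ℕ} (M : Mot F S n w h) (R : ℤ[X]) (d : ℕ)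
    (om : Matrix (Fin n) (Fin n) ℤ) (hAct : IsAct M R d om) (c1 : ℕ)
    (hc1 : ∀ (l : ℕ) [Fact l.Prime], c1 < l → ∀ lam : ℚ_[l],
      eval₂ (Int.castRingHom ℚ_[l]) lam R = 0 →
      ∃ (B : Matrix (Fin n) (Fin d) ℚ_[l]) (A : Gal F → Matrix (Fin d) (Fin d) ℚ_[l]) (N : ℕ),
        IsSub (rat (M.ρ l)) B A ∧ om.map (Int.castRingHom ℚ_[l]) * B = lam • B ∧
        ∀ X : Matrix (Fin d) (Fin d) ℤ_[l], X.det = 1 →
          (∃ Y : Matrix (Fin d) (Fin d) ℤ_[l], X = 1 + (l : ℤ_[l]) ^ N • Y) →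
          ∃ g : Gal F, A g = X.map (algebraMap ℤ_[l] ℚ_[l]))
    (j : ℕ) (e : (F →+* AlgebraicClosure F) → ℕ) (lam : 𝓞 (AlgebraicClosure F)) (hj0 : 0 < j)
    (hjd : j < d) (hlam : aeval lam R = 0) (hRel : RelJ M R d om j e lam) : False := by
  obtain ⟨m0, hm0, hgen⟩ := lin_gen F
  obtain ⟨l, hl, φ, hcl, ⟨lam0, hlam0⟩, hφ⟩ := hSPR F (lam : AlgebraicClosure F)
    (c1 + 2 ^ d + m0)
  have h2d : 0 < 2 ^ d := pow_pos two_pos d
  set K1 := AlgebraicClosure ℚ_[l] with hK1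
  have hinjK : Function.Injective (algebraMap ℚ_[l] K1) := FaithfulSMul.algebraMap_injective _ _
  have hroot : eval₂ (Int.castRingHom ℚ_[l]) lam0 R = 0 := by
    apply hinjK
    rw [map_zero, Polynomial.hom_eval₂, ← hlam0]
    have h1 : ((algebraMap ℚ_[l] K1).comp (Int.castRingHom ℚ_[l])) =
        (φ.comp (algebraMap (𝓞 (AlgebraicClosure F)) (AlgebraicClosure F))).comp
          (algebraMap ℤ (𝓞 (AlgebraicClosure F))) := Subsingleton.elim _ _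
    rw [h1]
    have h2 := congrArg (φ.comp (algebraMap (𝓞 (AlgebraicClosure F)) (AlgebraicClosure F))) hlam
    rw [map_zero, aeval_def, Polynomial.hom_eval₂] at h2
    exact h2
  obtain ⟨B, A, N, hsub, hom, hX⟩ := hc1 l (by omega) lam0 hroot
  obtain ⟨⟨C0, hC0⟩, hAB⟩ := id hsub
  have hml : ¬ l ∣ m0 := fun hd => by
    have := Nat.le_of_dvd hm0 hd
    omega
  obtain ⟨C, hdet, hC⟩ := hSLD d l (N + 1) m0 (by omega) (by omega) hml (by omega)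
  obtain ⟨g, hg⟩ := hX _ hdet ⟨(l : ℤ_[l]) • C, by rw [smul_smul, ← pow_succ]⟩
  obtain ⟨U, hUn, hUo, hU⟩ := near_one M l (N + 1 + 1) hsub
  obtain ⟨p, 𝔓, k, σ, hp, hpS, h𝔓, hk, hσ, hgσ⟩ := MU.st_FRB F U hUn hUo (insert l S) g⁻¹
  rw [inv_inv] at hgσ
  simp only [Finset.mem_insert, not_or] at hpS
  obtain ⟨-, -, hO3, -, -, -, hO7⟩ := hOVP F
  obtain ⟨v, hv⟩ := hO3 p 𝔓 hp h𝔓
  obtain ⟨a, ha⟩ := hO7 v 𝔓 hv p k σ hp h𝔓 hσ
  have ha0 : 0 < a := by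
    rcases Nat.eq_zero_or_pos a with h0 | h0
    · rw [h0, pow_zero] at ha
      have := Nat.one_lt_pow (by omega : k ≠ 0) hp.one_lt
      omega
    · exact h0
  obtain ⟨x, hx1, hx2⟩ := hgen v
  have hpv : (p : 𝓞 F) ∈ v.asIdeal := by
    have := (hv.2 (p : 𝓞 F) (p : Zb F) (by simp)).mp h𝔓.2
    exact this
  have hσm : CongPow 𝔓 (p ^ (k * m0)) ((σ ^ m0 : Gal F)) := by
    rw [pow_mul]
    exact congPow_pow 𝔓 (p ^ k) σ hσ m0
  obtain ⟨la, al, hJ⟩ := hJEV F S hS n w h M R d om hAct p hp hpS.2 𝔓 h𝔓 (k * m0) (σ ^ m0)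
    (Nat.mul_pos hk hm0) hσm
  have hσ' : CongPow 𝔓 (q v ^ a) σ := by
    rw [← ha]
    exact hσ
  obtain ⟨J, hJc, hJl, hJp⟩ := hRel v p 𝔓 a m0 σ x la al hp hpS.2 hpv hv ha0 hm0 hσ' hx1 hx2 hJ
  obtain ⟨b, hb⟩ := prod_rat φ hφ x (fun τ => e τ * a)
  -- the matrix of `σ⁻¹`
  have hσi : ∃ Y : Matrix (Fin d) (Fin d) ℤ_[l], A σ⁻¹ =
      (1 + (l : ℤ_[l]) ^ (N + 1) • (C + (l : ℤ_[l]) • Y)).map (algebraMap ℤ_[l] ℚ_[l]) := by
    obtain ⟨Z, hZ⟩ := hU _ (U.inv_mem hgσ)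
    refine ⟨Z + (l : ℤ_[l]) ^ (N + 1) • (Z * C), ?_⟩
    have h3 : σ⁻¹ = (g * σ)⁻¹ * g := by group
    rw [h3, sub_mul hC0 hAB, hZ, hg, ← Matrix.map_mul, mat_id]
  obtain ⟨Y, hY⟩ := hσi
  have hpow : A (σ ^ m0)⁻¹ = ((1 + (l : ℤ_[l]) ^ (N + 1) • (C + (l : ℤ_[l]) • Y)) ^ m0).map
      (algebraMap ℤ_[l] ℚ_[l]) := by
    rw [← inv_pow, sub_pow hC0 hAB, hY]
    exact (map_pow (algebraMap ℤ_[l] ℚ_[l]).mapMatrix _ m0).symm
  have hcomm : om.map (Int.castRingHom K1) * (rat (M.ρ l) (σ ^ m0)⁻¹).map (algebraMap ℚ_[l] K1) =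
      (rat (M.ρ l) (σ ^ m0)⁻¹).map (algebraMap ℚ_[l] K1) * om.map (Int.castRingHom K1) := by
    set ψ : ℤ_[l] →+* K1 := (algebraMap ℚ_[l] K1).comp (algebraMap ℤ_[l] ℚ_[l]) with hψ
    have h3 : om.map (Int.castRingHom K1) = ψ.mapMatrix (om.map (Int.castRingHom ℤ_[l])) := by
      ext a b
      simp
    have h4 : (rat (M.ρ l) (σ ^ m0)⁻¹).map (algebraMap ℚ_[l] K1) =
        ψ.mapMatrix (M.ρ l (σ ^ m0)⁻¹ : Matrix (Fin n) (Fin n) ℤ_[l]) := rfl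
    rw [h3, h4, ← map_mul, ← map_mul, hAct.comm]
  obtain ⟨J2, hJ2c, hJ2l, hJ2p⟩ := hJSB K1 n d (om.map (Int.castRingHom K1))
    ((rat (M.ρ l) (σ ^ m0)⁻¹).map (algebraMap ℚ_[l] K1))
    (fun b => φ (la b : AlgebraicClosure F)) (fun b => φ (al b : AlgebraicClosure F))
    (fun i hi _ => by exact_mod_cast hi.ne') hcomm
    (trace_K M R d om p _ la al hJ l (fun hlp => hpS.1 hlp.symm) φ)
    (φ (lam : AlgebraicClosure F)) (B.map (algebraMap ℚ_[l] K1))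
    ((A (σ ^ m0)⁻¹).map (algebraMap ℚ_[l] K1)) (C0.map (algebraMap ℚ_[l] K1))
    (by rw [← Matrix.map_mul, hC0, Matrix.map_one _ (map_zero _) (map_one _)])
    (by
      have h3 : om.map (Int.castRingHom K1) =
          (om.map (Int.castRingHom ℚ_[l])).map (algebraMap ℚ_[l] K1) := by
        ext a b
        simp
      rw [h3, ← Matrix.map_mul, hom, hlam0]
      ext a b
      rw [Matrix.map_apply, Matrix.smul_apply, Matrix.smul_apply, Matrix.map_apply, smul_eq_mul,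
        smul_eq_mul, map_mul])
    (by rw [← Matrix.map_mul, ← Matrix.map_mul, hAB])
  have hJ2eq : J2 = Finset.univ.filter fun b => la b = lam := by
    apply Finset.eq_of_subset_of_card_le
    · intro b hb2
      rw [Finset.mem_filter]
      refine ⟨Finset.mem_univ _, ?_⟩
      exact RingOfIntegers.ext (φ.injective (hJ2l b hb2))
    · rw [hJ.2.1 lam hlam, hJ2c]
  have hJJ : J ⊆ J2 := by
    intro b hb2
    rw [hJ2eq, Finset.mem_filter]
    exact ⟨Finset.mem_univ _, hJl b hb2⟩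
  have hroots : (((((1 + (l : ℤ_[l]) ^ (N + 1) • (C + (l : ℤ_[l]) • Y)) ^ m0).map
      (algebraMap ℤ_[l] ℚ_[l])).charpoly.map (algebraMap ℚ_[l] K1)).roots) =
      J2.val.map fun b => φ (al b : AlgebraicClosure F) := by
    rw [← hpow, ← Matrix.charpoly_map, hJ2p]
    have h3 : (∏ b ∈ J2, (Polynomial.X - Polynomial.C (φ (al b : AlgebraicClosure F)))) =
        ((J2.val.map fun b => φ (al b : AlgebraicClosure F)).map fun z =>
          Polynomial.X - Polynomial.C z).prod := by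
      rw [Multiset.map_map]
      rfl
    rw [h3, roots_multiset_prod_X_sub_C]
  refine hC _ Y rfl (J.val.map fun b => φ (al b : AlgebraicClosure F)) ?_ ?_ ?_ b ?_
  · rw [hroots]
    exact Multiset.map_le_map (Finset.val_le_iff.mpr hJJ)
  · rw [Multiset.card_map]
    change 0 < J.card
    omega
  · rw [Multiset.card_map]
    change J.card < d
    omega
  · rw [← hb, ← hJp]
    change _ = (φ.comp (algebraMap (𝓞 (AlgebraicClosure F)) (AlgebraicClosure F))) _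
    rw [map_prod]
    rfl

end REC.SLEw

namespace REC

open Pool.Agent.Helper13.ZL (Pl q)
open MU

theorem st_SLE (hWDT : ST_WDT) (hRLJ : ST_RLJ) (hJEV : ST_JEV) (hJSB : ST_JSB) (hSLD : ST_SLD)
    (hSPR : ST_SPR) (hOVP : ST_OVP) : ST_SLE := by
  intro F _ _ S hS n w h M hM
  obtain ⟨hSS, hFLT, R, d, om, hAct, c1, hc1⟩ := hM
  refine ⟨hSS, R, d, om, hAct, ?_⟩
  by_contra hcon
  have hcon' : ∀ c : ℕ, ∃ (l : ℕ) (_ : Fact l.Prime), c < l ∧ ∃ (k : Type) (_ : Field k)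
      (κ : ZMod l →+* k) (μ : k) (m : ℕ) (B : Matrix (Fin n) (Fin m) k)
      (A : Gal F → Matrix (Fin m) (Fin m) k), IsSub (mapk κ (res (M.ρ l))) B A ∧
        om.map (Int.castRingHom k) * B = μ • B ∧ m ≠ 0 ∧ m ≠ d := by
    intro c
    by_contra h1
    apply hcon
    refine ⟨c, fun l hl hcl k _ κ μ m B A hsub hom => ?_⟩
    by_contra h2
    rw [not_or] at h2
    exact h1 ⟨l, hl, hcl, k, _, κ, μ, m, B, A, hsub, hom, h2.1, h2.2⟩
  obtain ⟨j, e, lam, hj0, hjd, hlam, hinf⟩ := SLEw.step1 hWDT hS M R d om hAct hFLT hcon'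
  exact SLEw.step2 hJEV hJSB hSLD hSPR hOVP hS M R d om hAct c1 hc1 j e lam hj0 hjd hlam
    (hRLJ F S hS n w h M R d om hAct j e lam hlam hinf)

end REC
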