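import Pool.Agent.Helper85.REC.Stmts13
import Pool.Agent.Helper85.REC.LIN0
import Pool.Agent.Helper35.MU.FRB

/-!
# REC, SLE: large image implies residual irreducibility over the coefficient ring (lemmas)
-/

set_option autoImplicit false
set_option maxHeartbeats 800000

open scoped Classical
open NumberField Polynomial Topology

namespace REC.SLEw

open Pool.Agent.Helper13.ZL (Pl q)
open MU

section sub

variable {G K : Type} [Group G] [Field K] {n m : ℕ} {r : G →* Matrix (Fin n) (Fin n) K}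
  {B : Matrix (Fin n) (Fin m) K} {A : G → Matrix (Fin m) (Fin m) K}
  {C : Matrix (Fin m) (Fin n) K}

theorem sub_eq (hC : C * B = 1) (hA : ∀ g, r g * B = B * A g) (g : G) :
    A g = C * (r g * B) := by
  rw [hA, ← Matrix.mul_assoc, hC, Matrix.one_mul]

theorem sub_mul (hC : C * B = 1) (hA : ∀ g, r g * B = B * A g) (g h : G) :
    A (g * h) = A g * A h := by
  rw [sub_eq hC hA (g * h), map_mul, Matrix.mul_assoc (r g), hA h, ← Matrix.mul_assoc (r g) B,
    hA g, Matrix.mul_assoc B, ← Matrix.mul_assoc C, hC, Matrix.one_mul]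

theorem sub_one (hC : C * B = 1) (hA : ∀ g, r g * B = B * A g) : A 1 = 1 := by
  rw [sub_eq hC hA 1, map_one, Matrix.one_mul, hC]

theorem sub_pow (hC : C * B = 1) (hA : ∀ g, r g * B = B * A g) (g : G) (i : ℕ) :
    A (g ^ i) = A g ^ i := by
  induction i with
  | zero => rw [pow_zero, pow_zero, sub_one hC hA]
  | succ i ih => rw [pow_succ, pow_succ, sub_mul hC hA, ih]

end sub

theorem pigeon {T : Type} (E : Set T) (hE : E.Finite) (P : ℕ → T → Prop)
    (h : ∀ c : ℕ, ∃ l, c < l ∧ ∃ t ∈ E, P l t) : ∃ t ∈ E, ∀ c : ℕ, ∃ l, c < l ∧ P l t := by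
  by_contra hcon
  push Not at hcon
  choose! c hc using hcon
  obtain ⟨l, hl, t, ht, hP⟩ := h (hE.toFinset.sup c)
  exact hc t ht l (lt_of_le_of_lt (Finset.le_sup (f := c) (hE.mem_toFinset.mpr ht)) hl) hP

theorem small_mat {l : ℕ} [Fact l.Prime] {d : ℕ} (N : ℕ) (X : Matrix (Fin d) (Fin d) ℚ_[l])
    (h : ∀ i j, ‖X i j‖ ≤ ((l : ℝ) ^ N)⁻¹) : ∃ Z : Matrix (Fin d) (Fin d) ℤ_[l],
      X = ((l : ℤ_[l]) ^ N • Z).map (algebraMap ℤ_[l] ℚ_[l]) := by
  have hl0 : (l : ℚ_[l]) ≠ 0 := by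
    exact_mod_cast (Fact.out : l.Prime).ne_zero
  have hlr : (0 : ℝ) < (l : ℝ) := by
    exact_mod_cast (Fact.out : l.Prime).pos
  have hz : ∀ i j, ∃ z : ℤ_[l], algebraMap ℤ_[l] ℚ_[l] z = X i j / (l : ℚ_[l]) ^ N := by
    intro i j
    refine ⟨⟨X i j / (l : ℚ_[l]) ^ N, ?_⟩, rfl⟩
    rw [norm_div, norm_pow, Padic.norm_p, inv_pow, div_inv_eq_mul]
    have h2 : (0 : ℝ) < (l : ℝ) ^ N := pow_pos hlr N
    calc ‖X i j‖ * (l : ℝ) ^ N ≤ ((l : ℝ) ^ N)⁻¹ * (l : ℝ) ^ N :=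
          mul_le_mul_of_nonneg_right (h i j) h2.le
      _ = 1 := inv_mul_cancel₀ h2.ne'
  choose z hz using hz
  refine ⟨Matrix.of z, ?_⟩
  ext i j
  rw [Matrix.map_apply, Matrix.smul_apply, smul_eq_mul, map_mul, map_pow, map_natCast,
    Matrix.of_apply, hz, mul_div_cancel₀ _ (pow_ne_zero N hl0)]

/-- near `1` the action on a subspace is congruent to `1` -/
theorem near_one {F : Type} [Field F] [NumberField F] {S : Finset ℕ} {n w d : ℕ}
    {h : Fin n → ℕ} (M : Mot F S n w h) (l : ℕ) [Fact l.Prime] (N : ℕ)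
    {B : Matrix (Fin n) (Fin d) ℚ_[l]} {A : Gal F → Matrix (Fin d) (Fin d) ℚ_[l]}
    (hA : IsSub (rat (M.ρ l)) B A) :
    ∃ U : Subgroup (Gal F), U.Normal ∧ IsOpen (U : Set (Gal F)) ∧ ∀ v ∈ U,
      ∃ Z : Matrix (Fin d) (Fin d) ℤ_[l],
        A v = (1 + (l : ℤ_[l]) ^ N • Z).map (algebraMap ℤ_[l] ℚ_[l]) := by
  obtain ⟨⟨C, hC⟩, hAB⟩ := hA
  have hlr : (0 : ℝ) < (l : ℝ) := by
    exact_mod_cast (Fact.out : l.Prime).pos
  have h1 : Continuous fun g : Gal F => ((M.ρ l g : Matrix.GeneralLinearGroup (Fin n) ℤ_[l]) :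
      Matrix (Fin n) (Fin n) ℤ_[l]) := Units.continuous_val.comp (M.continuous l)
  have hcont : ∀ i j, Continuous fun g : Gal F => A g i j := by
    intro i j
    have h2 : (fun g : Gal F => A g i j) = fun g => ∑ a, C i a * ∑ b,
        (((M.ρ l g : Matrix.GeneralLinearGroup (Fin n) ℤ_[l]) :
          Matrix (Fin n) (Fin n) ℤ_[l]) a b : ℚ_[l]) * B b j := by
      funext g
      rw [sub_eq hC hAB g, Matrix.mul_apply]
      refine Finset.sum_congr rfl fun a _ => ?_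
      rw [Matrix.mul_apply]
      rfl
    rw [h2]
    refine continuous_finsetSum _ fun a _ => continuous_const.mul
      (continuous_finsetSum _ fun b _ => Continuous.mul ?_ continuous_const)
    exact continuous_subtype_val.comp (h1.matrix_elem a b)
  have hopen : IsOpen {v : Gal F | ∀ i j, ‖(A v - 1) i j‖ < ((l : ℝ) ^ N)⁻¹} := by
    have h3 : {v : Gal F | ∀ i j, ‖(A v - 1) i j‖ < ((l : ℝ) ^ N)⁻¹} =
        ⋂ i, ⋂ j, {v : Gal F | ‖(A v - 1) i j‖ < ((l : ℝ) ^ N)⁻¹} := by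
      ext v
      simp
    rw [h3]
    refine isOpen_iInter_of_finite fun i => isOpen_iInter_of_finite fun j => ?_
    refine isOpen_lt ?_ continuous_const
    have h4 : (fun v : Gal F => ‖(A v - 1) i j‖) = fun v => ‖A v i j - (1 : Matrix _ _ ℚ_[l]) i j‖ := by
      funext v
      rw [Matrix.sub_apply]
    rw [h4]
    exact ((hcont i j).sub continuous_const).norm
  have hmem : {v : Gal F | ∀ i j, ‖(A v - 1) i j‖ < ((l : ℝ) ^ N)⁻¹} ∈ 𝓝 (1 : Gal F) := by
    apply hopen.mem_nhds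
    intro i j
    rw [sub_one hC hAB, sub_self, Matrix.zero_apply, norm_zero]
    exact inv_pos.mpr (pow_pos hlr N)
  obtain ⟨E, hE, hEn, hEs⟩ :=
    (krullTopology_mem_nhds_one_iff_of_normal F (AlgebraicClosure F) _).1 hmem
  have hEgal : IsGalois F E := { }
  have hUn : E.fixingSubgroup.Normal := (InfiniteGalois.normal_iff_isGalois E).2 hEgal
  refine ⟨E.fixingSubgroup, hUn, E.fixingSubgroup_isOpen, fun v hv => ?_⟩
  obtain ⟨Z, hZ⟩ := small_mat N (A v - 1) fun i j => (hEs hv i j).le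
  refine ⟨Z, ?_⟩
  rw [Matrix.map_add _ (map_add _), Matrix.map_one _ (map_zero _) (map_one _), ← hZ]
  abel

end REC.SLEw
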