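import Pool.Agent.Helper57.REC.Stmts1
import Pool.Agent.Helper35.MU.FrbSpl
import Pool.Agent.Helper13.ZL.All
import Pool.Agent.Helper81.AbMot.FE

/-!
# REC, module SPY: the density of the places which split in the field of an open normal subgroup
-/

set_option autoImplicit false

open scoped Classical Pointwise

namespace Pool.Agent.Helper20.REC

open IsDedekindDomain NumberField AbMot
open Pool.Agent.Helper13.ZL (Pl q HasMean ST_SPL)
open MU (CongPow frb_B frb_B_finite frb_stab frb_smul frb_f frb_card frb_fermat)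

section gen

variable {K Ω : Type} [Field K] [NumberField K] [Field Ω] [Algebra K Ω] [IsGalois K Ω]

/-- `SplY` for a general Galois extension -/
def SplG (Z : Subgroup (Ω ≃ₐ[K] Ω)) (v : Pl K) : Prop :=
  ∃ 𝔓 : Ideal (integralClosure ℤ Ω), (𝔓.IsPrime ∧
    ∀ (x : 𝓞 K) (y : integralClosure ℤ Ω), (y : Ω) = algebraMap K Ω (x : K) →
      (y ∈ 𝔓 ↔ x ∈ v.asIdeal)) ∧ (∀ σ : Ω ≃ₐ[K] Ω, CongPow 𝔓 1 σ → σ ∈ Z) ∧
    ∃ σ : Ω ≃ₐ[K] Ω, σ ∈ Z ∧ CongPow 𝔓 (q v) σ

theorem spy_gen (Z : Subgroup (Ω ≃ₐ[K] Ω)) [Z.Normal] (hZ : IsOpen (Z : Set (Ω ≃ₐ[K] Ω))) :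
    HasMean (fun v : Pl K => if v ∈ {v : Pl K | SplG Z v} then (1 : ℝ) else 0)
      (1 / (Z.index : ℝ)) := by
  let H : ClosedSubgroup (Ω ≃ₐ[K] Ω) := ⟨Z, Z.isClosed_of_isOpen hZ⟩
  have hfix : (IntermediateField.fixedField Z).fixingSubgroup = Z :=
    InfiniteGalois.fixingSubgroup_fixedField H
  set L := IntermediateField.fixedField Z with hL
  obtain ⟨hfd, hgal⟩ := (InfiniteGalois.isOpen_and_normal_iff_finite_and_isGalois L).1
    ⟨by rw [hfix]; exact hZ, by rw [hfix]; infer_instance⟩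
  have hNF : NumberField L := NumberField.of_module_finite K L
  have hidx : Module.finrank K L = Z.index := by
    rw [IntermediateField.finrank_eq_fixingSubgroup_index, hfix]
  rw [← hidx]
  refine Pool.Agent.Helper13.ZL.all_SPL K L {v | SplG Z v} (frb_B K L) frb_B_finite ?_ ?_
  · intro v hv hvB P hP τ hτ
    obtain ⟨𝔓, h𝔓, -, σ, hσ, hc⟩ := hv
    have hfrob : IsFrobK v.asIdeal σ :=
      ⟨𝔓, h𝔓.1, fun x y hxy => (h𝔓.2 x y hxy).symm, hc⟩
    have hPl : P.asIdeal.LiesOver v.asIdeal := by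
      rw [Ideal.liesOver_iff]
      ext x
      exact (hP x).symm
    have hv' : σ ∈ L.fixingSubgroup := by
      rw [hfix]
      exact hσ
    obtain ⟨Q, hQ, hQP, hN⟩ := wc_degree_one L v.asIdeal v.isPrime v.ne_bot σ hfrob
      (fun x hx => (IntermediateField.mem_fixingSubgroup_iff L σ).1 hv' x hx)
    have hQl : Q.LiesOver v.asIdeal := ⟨hQP.symm⟩
    refine frb_stab v hvB Q hQ hQl hN P.asIdeal P.isPrime hPl τ ?_
    refine frb_smul P.asIdeal P.isMaximal τ fun x hx => ?_
    have h1 : P.valuation L ((x : 𝓞 L) : L) < 1 :=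
      (HeightOneSpectrum.valuation_lt_one_iff_mem P x).2 hx
    have h2 := Pool.Agent.Helper13.ZL.mon_tau P τ hτ _ h1
    exact (HeightOneSpectrum.valuation_lt_one_iff_mem P (τ • x)).1 h2
  · intro v hvB P hP hq
    have hPl : P.asIdeal.LiesOver v.asIdeal := by
      rw [Ideal.liesOver_iff]
      ext x
      exact (hP x).symm
    have hf := frb_f v P.asIdeal P.isPrime hPl hq
    obtain ⟨σ, 𝔓, h𝔓, h1, h2⟩ := wc_exists_frob (K := K) (Ω := Ω) v.asIdeal v.isPrime v.ne_bot
    let f : 𝓞 L →+* integralClosure ℤ Ω :=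
      { toFun := fun x => ⟨((x : L) : Ω), by
          have := x.2
          exact (isIntegral_algebraMap_iff (algebraMap L Ω).injective).2 this⟩
        map_one' := rfl
        map_mul' := fun _ _ => rfl
        map_zero' := rfl
        map_add' := fun _ _ => rfl }
    have hfv : ∀ x : 𝓞 L, (f x : Ω) = ((x : L) : Ω) := fun _ => rfl
    have hQprime : (𝔓.comap f).IsPrime := Ideal.comap_isPrime f 𝔓
    have hQP : (𝔓.comap f).comap (algebraMap (𝓞 K) (𝓞 L)) = v.asIdeal := by
      ext x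
      rw [Ideal.mem_comap, Ideal.mem_comap]
      exact (h1 x (f (algebraMap (𝓞 K) (𝓞 L) x)) rfl).symm
    have hlies : (𝔓.comap f).LiesOver v.asIdeal := ⟨hQP.symm⟩
    have hvm := v.isMaximal
    have hQm : (𝔓.comap f).IsMaximal := Ideal.IsMaximal.of_liesOver_isMaximal _ v.asIdeal
    have hN := frb_card v (𝔓.comap f) hQprime hlies hf
    have hQ0 : 𝔓.comap f ≠ ⊥ := Ideal.ne_bot_of_liesOver_of_ne_bot v.ne_bot _
    have key : ∀ τ : Ω ≃ₐ[K] Ω, (∀ x : 𝓞 L, (τ.restrictNormal L) • x - x ∈ 𝔓.comap f) →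
        τ ∈ Z := by
      intro τ hmem
      have hτ : τ.restrictNormal L = 1 := by
        refine frb_stab v hvB (𝔓.comap f) hQprime hlies hN (𝔓.comap f) hQprime hlies _ ?_
        refine frb_smul _ hQm _ fun x hx => ?_
        have h6 := (𝔓.comap f).add_mem (hmem x) hx
        rw [sub_add_cancel] at h6
        exact h6
      rw [← hfix, IntermediateField.mem_fixingSubgroup_iff]
      intro x hx
      have h7 := AlgEquiv.restrictNormal_commutes τ L ⟨x, hx⟩
      rw [hτ] at h7
      exact h7.symm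
    refine ⟨𝔓, ⟨h𝔓, fun x y hxy => (h1 x y hxy).symm⟩, fun τ hτ => ?_, σ, ?_, h2⟩
    · refine key τ fun x => ?_
      have h4 := hτ (f x) (f ((τ.restrictNormal L) • x))
        (AlgEquiv.restrictNormal_commutes τ L (x : L))
      rw [pow_one] at h4
      rw [Ideal.mem_comap, map_sub]
      exact h4
    · refine key σ fun x => ?_
      have h3 := frb_fermat (𝔓.comap f) hQprime hQ0 x
      have h4 : (σ.restrictNormal L) • x - x ^ Ideal.absNorm v.asIdeal ∈ 𝔓.comap f := by
        rw [Ideal.mem_comap, map_sub, map_pow]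
        refine h2 (f x) (f ((σ.restrictNormal L) • x)) ?_
        exact AlgEquiv.restrictNormal_commutes σ L (x : L)
      rw [← hN] at h4
      have h5 := (𝔓.comap f).add_mem h4 h3
      rw [sub_add_sub_cancel] at h5
      exact h5

end gen

theorem st_SPY : _root_.REC.ST_SPY := by
  intro F _ _ Y hYn hY
  exact spy_gen Y hY

end Pool.Agent.Helper20.REC
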