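import Pool.Agent.Helper85.REC.Stmts7
import Pool.Agent.Helper19.REC.POV

/-!
# Extensions in which a place splits completely and which contain enough roots of unity
-/

set_option autoImplicit false

open scoped Classical
open scoped Pointwise
open NumberField

namespace REC

open Pool.Agent.Helper13.ZL (Pl q)
open MU (Gal Zb Over CongPow)
open POVaux

namespace TAMaux

variable {F K : Type} [Field F] [NumberField F] [Field K] [NumberField K] [Algebra F K]

theorem q_card (v : Pl F) : q v = Nat.card (𝓞 F ⧸ v.asIdeal) := by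
  unfold q
  rw [Ideal.absNorm_apply, Submodule.cardQuot_apply]

theorem fin_quot (v : Pl F) : Finite (𝓞 F ⧸ v.asIdeal) :=
  Ideal.finiteQuotientOfFreeOfNeBot v.asIdeal v.ne_bot

theorem q_ge (v : Pl F) : 2 ≤ q v := by
  haveI := fin_quot v
  haveI := v.isMaximal
  rw [q_card]
  haveI : Nontrivial (𝓞 F ⧸ v.asIdeal) := Ideal.Quotient.nontrivial_iff.mpr v.isPrime.ne_top
  exact Finite.one_lt_card

theorem q_mem (v : Pl F) : (q v : 𝓞 F) ∈ v.asIdeal := by
  unfold q
  exact Ideal.absNorm_mem v.asIdeal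

theorem pow_q (v : Pl F) (u : 𝓞 F) : u ^ q v - u ∈ v.asIdeal := by
  haveI := fin_quot v
  haveI := v.isMaximal
  letI := Ideal.Quotient.field v.asIdeal
  haveI := Fintype.ofFinite (𝓞 F ⧸ v.asIdeal)
  rw [← Ideal.Quotient.eq, map_pow, q_card, Nat.card_eq_fintype_card]
  exact FiniteField.pow_card _

/-- an element of the residue field fixed by the Frobenius is in the small residue field -/
theorem lift_fix {v : Pl F} {w : Pl K} (h : OvL v w) (x : 𝓞 K) (hx : x ^ q v - x ∈ w.asIdeal) :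
    ∃ u : 𝓞 F, x - algebraMap (𝓞 F) (𝓞 K) u ∈ w.asIdeal := by
  haveI := fin_quot v
  haveI := fin_quot w
  haveI := v.isMaximal
  haveI := w.isMaximal
  letI := Ideal.Quotient.field v.asIdeal
  letI := Ideal.Quotient.field w.asIdeal
  let ρ : (𝓞 F ⧸ v.asIdeal) →+* (𝓞 K ⧸ w.asIdeal) :=
    Ideal.quotientMap w.asIdeal (algebraMap (𝓞 F) (𝓞 K)) (fun u hu => (h u).mpr hu)
  have hρ : ∀ u, ρ (Ideal.Quotient.mk _ u) = Ideal.Quotient.mk _ (algebraMap (𝓞 F) (𝓞 K) u) :=
    fun u => Ideal.quotientMap_mk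
  have hinj : Function.Injective ρ := ρ.injective
  let P : Polynomial (𝓞 K ⧸ w.asIdeal) := Polynomial.X ^ q v - Polynomial.X
  have hq := q_ge v
  have hP0 : P ≠ 0 := FiniteField.X_pow_card_sub_X_ne_zero _ (by omega)
  have hdeg : P.natDegree = q v := FiniteField.X_pow_card_sub_X_natDegree_eq _ (by omega)
  haveI := Fintype.ofFinite (𝓞 F ⧸ v.asIdeal)
  have hsub : Finset.univ.image ρ ⊆ P.roots.toFinset := by
    intro y hy
    obtain ⟨z, -, rfl⟩ := Finset.mem_image.mp hy
    obtain ⟨u, rfl⟩ := Ideal.Quotient.mk_surjective z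
    rw [Multiset.mem_toFinset, Polynomial.mem_roots hP0, Polynomial.IsRoot.def]
    simp only [P, Polynomial.eval_sub, Polynomial.eval_pow, Polynomial.eval_X]
    rw [← map_pow, ← map_sub, ← map_pow, ← map_sub, Ideal.Quotient.eq_zero_iff_mem.mpr (pow_q v u),
      map_zero]
  have hcard : P.roots.toFinset.card ≤ (Finset.univ.image ρ).card := by
    rw [Finset.card_image_of_injective _ hinj, Finset.card_univ, ← Nat.card_eq_fintype_card,
      ← q_card, ← hdeg]
    exact (Multiset.toFinset_card_le _).trans (Polynomial.card_roots' P)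
  have heq := Finset.eq_of_subset_of_card_le hsub hcard
  have hmem : Ideal.Quotient.mk w.asIdeal x ∈ P.roots.toFinset := by
    rw [Multiset.mem_toFinset, Polynomial.mem_roots hP0, Polynomial.IsRoot.def]
    simp only [P, Polynomial.eval_sub, Polynomial.eval_pow, Polynomial.eval_X]
    rw [← map_pow, ← map_sub]
    exact Ideal.Quotient.eq_zero_iff_mem.mpr hx
  rw [← heq] at hmem
  obtain ⟨z, -, hz⟩ := Finset.mem_image.mp hmem
  obtain ⟨u, rfl⟩ := Ideal.Quotient.mk_surjective z
  refine ⟨u, ?_⟩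
  rw [hρ] at hz
  exact Ideal.Quotient.eq.mp hz.symm

/-- roots of unity are injective modulo `w` -/
theorem rt_inj (w : Pl K) (n : ℕ) (hn : (n : 𝓞 K) ∉ w.asIdeal) (a b : 𝓞 K) (ha : a ^ n = 1)
    (hb : b ^ n = 1) (hab : a - b ∈ w.asIdeal) : a = b := by
  by_contra hne
  have hn0 : n ≠ 0 := by
    rintro rfl
    apply hn
    rw [Nat.cast_zero]
    exact w.asIdeal.zero_mem
  have h1 : (∑ i ∈ Finset.range n, a ^ i * b ^ (n - 1 - i)) * (a - b) = a ^ n - b ^ n :=
    Commute.geom_sum₂_mul (Commute.all a b) n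
  rw [ha, hb, sub_self, mul_eq_zero, sub_eq_zero] at h1
  have h2 := h1.resolve_right hne
  have h3 : (n : 𝓞 K) * b ^ (n - 1) ∈ w.asIdeal := by
    have h4 : Ideal.Quotient.mk w.asIdeal (∑ i ∈ Finset.range n, a ^ i * b ^ (n - 1 - i)) =
        Ideal.Quotient.mk w.asIdeal ((n : 𝓞 K) * b ^ (n - 1)) := by
      rw [map_sum]
      have h5 : ∀ i ∈ Finset.range n, Ideal.Quotient.mk w.asIdeal (a ^ i * b ^ (n - 1 - i)) =
          Ideal.Quotient.mk w.asIdeal (b ^ (n - 1)) := by
        intro i hi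
        rw [Finset.mem_range] at hi
        rw [map_mul, map_pow, Ideal.Quotient.eq.mpr hab, ← map_pow, ← map_mul, ← pow_add]
        congr 2
        omega
      rw [Finset.sum_congr rfl h5, Finset.sum_const, Finset.card_range, nsmul_eq_mul, map_mul,
        map_natCast]
    rw [h2, map_zero] at h4
    exact Ideal.Quotient.eq_zero_iff_mem.mp h4.symm
  rcases w.isPrime.mem_or_mem h3 with h6 | h6
  · exact hn h6
  · have h7 : b ∈ w.asIdeal := w.isPrime.mem_of_pow_mem _ h6
    apply w.isPrime.ne_top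
    rw [Ideal.eq_top_iff_one, ← hb]
    exact Ideal.pow_mem_of_mem _ h7 n (Nat.pos_of_ne_zero hn0)

theorem smul_mem_act (τ : K ≃ₐ[F] K) (w : Pl K) (x : 𝓞 K) (n : ℕ) :
    τ • x ∈ (act τ w).asIdeal ^ n ↔ x ∈ w.asIdeal ^ n := by
  show τ • x ∈ (τ • w.asIdeal) ^ n ↔ x ∈ w.asIdeal ^ n
  rw [← smul_pow', Ideal.smul_mem_pointwise_smul_iff]

theorem smul_alg (τ : K ≃ₐ[F] K) (u : 𝓞 F) :
    τ • (algebraMap (𝓞 F) (𝓞 K) u) = algebraMap (𝓞 F) (𝓞 K) u := by
  apply RingOfIntegers.ext
  show τ (algebraMap F K (u : F)) = algebraMap F K (u : F)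
  exact AlgEquiv.commutes τ _

/-- the decomposition group fixes the roots of unity -/
theorem dec_fix {v : Pl F} {w : Pl K} (h : OvL v w) (ζ : 𝓞 K) (hζ : ζ ^ (q v - 1) = 1)
    (τ : K ≃ₐ[F] K) (hτ : act τ w = w) : τ • ζ = ζ := by
  have hq := q_ge v
  have h1 : ζ ^ q v - ζ ∈ w.asIdeal := by
    have : ζ ^ q v = ζ ^ (q v - 1) * ζ := by
      rw [← pow_succ]
      congr 1
      omega
    rw [this, hζ, one_mul, sub_self]
    exact w.asIdeal.zero_mem
  obtain ⟨u, hu⟩ := lift_fix h ζ h1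
  have h2 : τ • (ζ - algebraMap (𝓞 F) (𝓞 K) u) ∈ w.asIdeal := by
    have := (smul_mem_act τ w (ζ - algebraMap (𝓞 F) (𝓞 K) u) 1).mpr (by rwa [pow_one])
    rwa [pow_one, hτ] at this
  rw [smul_sub, smul_alg] at h2
  have h3 : τ • ζ - ζ ∈ w.asIdeal := by
    have := sub_mem h2 hu
    rwa [sub_sub_sub_cancel_right] at this
  refine rt_inj w (q v - 1) ?_ _ _ ?_ hζ h3
  · intro h4
    have h5 : (q v : 𝓞 K) ∈ w.asIdeal := by
      have := (h (q v : 𝓞 F)).mpr (q_mem v)
      rwa [map_natCast] at this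
    have h6 : (1 : 𝓞 K) = (q v : 𝓞 K) - ((q v - 1 : ℕ) : 𝓞 K) := by
      have : ((q v - 1 + 1 : ℕ) : 𝓞 K) = (q v : 𝓞 K) := by
        congr 1
        omega
      rw [← this]
      push_cast
      ring
    apply w.isPrime.ne_top
    rw [Ideal.eq_top_iff_one, h6]
    exact sub_mem h5 h4
  · rw [← smul_pow', hζ, smul_one]

/-- trivial decomposition groups -/
theorem split_of_trivial [IsGalois F K] {v : Pl F} {w : Pl K} (h : OvL v w)
    (hD : ∀ τ : K ≃ₐ[F] K, act τ w = w → τ = 1) :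
    v.asIdeal.ramificationIdx' w.asIdeal = 1 ∧ q w = q v := by
  have hinj : Function.Injective (fun τ : K ≃ₐ[F] K =>
      (⟨act τ w, ovL_act τ h⟩ : {P : Pl K // OvL v P})) := by
    intro σ τ hστ
    have h1 : act σ w = act τ w := congrArg Subtype.val hστ
    have h2 : act (τ⁻¹ * σ) w = w := by
      apply IsDedekindDomain.HeightOneSpectrum.ext
      have h3 : σ • w.asIdeal = τ • w.asIdeal :=
        congrArg IsDedekindDomain.HeightOneSpectrum.asIdeal h1
      show (τ⁻¹ * σ) • w.asIdeal = w.asIdeal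
      rw [mul_smul, h3, inv_smul_smul]
    have h3 := hD _ h2
    exact (inv_mul_eq_one.mp h3).symm
  haveI := finite_over (L := K) v
  have h1 : Module.finrank F K ≤ Nat.card {P : Pl K // OvL v P} := by
    rw [← IsGalois.card_aut_eq_finrank]
    exact Nat.card_le_card_of_injective _ hinj
  have h2 := card_over v h
  have hpos : 0 < Module.finrank F K := Module.finrank_pos
  have h3 : v.asIdeal.ramificationIdx' w.asIdeal * v.asIdeal.inertiaDeg' w.asIdeal = 1 := by
    have h4 : 0 < v.asIdeal.ramificationIdx' w.asIdeal * v.asIdeal.inertiaDeg' w.asIdeal := by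
      apply Nat.pos_of_ne_zero
      intro h5
      rw [h5, mul_zero] at h2
      omega
    nlinarith
  have h5 := Nat.eq_one_of_mul_eq_one_right h3
  have h6 := Nat.eq_one_of_mul_eq_one_left h3
  refine ⟨h5, ?_⟩
  haveI := ovL_lies h
  have h7 := Ideal.absNorm_eq_pow_inertiaDeg'_of_liesOver w.asIdeal v.asIdeal v.isPrime v.ne_bot
  rw [h6, pow_one] at h7
  exact h7

theorem lift_all {v : Pl F} {w : Pl K} (h : OvL v w) (hq : q w = q v) (x : 𝓞 K) :
    ∃ u : 𝓞 F, x - algebraMap (𝓞 F) (𝓞 K) u ∈ w.asIdeal := by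
  refine lift_fix h x ?_
  rw [← hq]
  exact pow_q w x

/-- the extension -/
theorem split_exists (F : Type) [Field F] [NumberField F] (v : Pl F) :
    ∃ (K : Type) (_ : Field K) (_ : NumberField K) (_ : Algebra F K) (_ : IsGalois F K)
      (w : Pl K), HasRt K (q w - 1) ∧ OvL v w ∧ q w = q v ∧
      (∀ x : F, w.valuation K (algebraMap F K x) = v.valuation F x) ∧
      ∀ τ : K ≃ₐ[F] K, act τ w = w → τ = 1 := by
  have hq := q_ge v
  haveI : NeZero (q v - 1) := ⟨by omega⟩
  let K := CyclotomicField (q v - 1) F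
  haveI : NumberField K := IsCyclotomicExtension.numberField {q v - 1} F K
  haveI : IsGalois F K := IsCyclotomicExtension.isGalois {q v - 1} F K
  have hζ := IsCyclotomicExtension.zeta_spec (q v - 1) F K
  obtain ⟨w, hw⟩ := nonempty_over (L := K) v
  have hζi := hζ.toInteger_isPrimitiveRoot
  have hD : ∀ τ : K ≃ₐ[F] K, act τ w = w → τ = 1 := by
    intro τ hτ
    have h1 := dec_fix hw hζ.toInteger hζi.pow_eq_one τ hτ
    have h2 : τ (IsCyclotomicExtension.zeta (q v - 1) F K) =
        IsCyclotomicExtension.zeta (q v - 1) F K := congrArg (fun z : 𝓞 K => (z : K)) h1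
    have h3 : (τ : K →ₐ[F] K) = AlgHom.id F K := by
      refine (hζ.powerBasis F).algHom_ext ?_
      rw [IsPrimitiveRoot.powerBasis_gen]
      exact h2
    ext x
    exact DFunLike.congr_fun h3 x
  obtain ⟨h1, h2⟩ := split_of_trivial hw hD
  refine ⟨K, inferInstance, inferInstance, inferInstance, inferInstance, w, ⟨?_, ?_⟩, hw, h2,
    fun x => ?_, hD⟩
  · rw [h2]
    omega
  · rw [h2]
    refine ⟨(hζi.isUnit (by omega)).unit, ?_⟩
    rw [← IsPrimitiveRoot.coe_units_iff]
    exact hζi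
  · rw [val_down hw, h1, pow_one]

end TAMaux

end REC
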