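import Pool.Agent.Helper20.REC.NormK
import Pool.Agent.Helper18.REC.NormLem

/-!
# TAM: tame reciprocity at one place
-/

set_option autoImplicit false

open scoped Classical
open scoped Pointwise
open NumberField

namespace REC

open Pool.Agent.Helper13.ZL (Pl q)
open MU (Gal Zb Over CongPow)
open POVaux
open TAMaux

namespace TAMaux

variable {F K : Type} [Field F] [NumberField F] [Field K] [NumberField K] [Algebra F K]

/-- the map of the rings of all algebraic integers -/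
noncomputable def jz (j : AlgebraicClosure F ≃+* AlgebraicClosure K) (x : Zb F) : Zb K :=
  ⟨j (x : AlgebraicClosure F), by
    have h := x.2
    rw [mem_integralClosure_iff] at h ⊢
    exact h.map (j.toRingHom.toIntAlgHom)⟩

theorem jz_coe (j : AlgebraicClosure F ≃+* AlgebraicClosure K) (x : Zb F) :
    ((jz j x : Zb K) : AlgebraicClosure K) = j (x : AlgebraicClosure F) := rfl

/-- an algebraic integer of `F` as an element of the ring of all algebraic integers -/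
noncomputable def toZb (u : 𝓞 F) : Zb F :=
  ⟨algebraMap F (AlgebraicClosure F) (u : F), by
    rw [mem_integralClosure_iff]
    exact (RingOfIntegers.isIntegral_coe u).map
      ((algebraMap F (AlgebraicClosure F)).toIntAlgHom)⟩

theorem toZb_coe (u : 𝓞 F) :
    ((toZb u : Zb F) : AlgebraicClosure F) = algebraMap F (AlgebraicClosure F) (u : F) := rfl

/-- the character on the residue field of the extension -/
noncomputable def fK {A : Type} [CommGroup A] {v : Pl F} {w : Pl K} (h : OvL v w)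
    (hq : q w = q v) (f : (𝓞 F ⧸ v.asIdeal)ˣ →* A) : (𝓞 K ⧸ w.asIdeal)ˣ →* A :=
  f.comp ((Units.mapEquiv (RingEquiv.ofBijective (resHom h) (resHom_bij h hq)).toMulEquiv).symm :
    (𝓞 K ⧸ w.asIdeal)ˣ →* (𝓞 F ⧸ v.asIdeal)ˣ)

theorem fK_eq {A : Type} [CommGroup A] {v : Pl F} {w : Pl K} (h : OvL v w)
    (hq : q w = q v) (f : (𝓞 F ⧸ v.asIdeal)ˣ →* A) (u : 𝓞 F) (z : 𝓞 K)
    (hz : z - algebraMap (𝓞 F) (𝓞 K) u ∈ w.asIdeal) (Z : (𝓞 K ⧸ w.asIdeal)ˣ)
    (hZ : (Z : 𝓞 K ⧸ w.asIdeal) = Ideal.Quotient.mk w.asIdeal z) :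
    ∃ U : (𝓞 F ⧸ v.asIdeal)ˣ, (U : 𝓞 F ⧸ v.asIdeal) = Ideal.Quotient.mk v.asIdeal u ∧
      fK h hq f Z = f U := by
  let e := RingEquiv.ofBijective (resHom h) (resHom_bij h hq)
  let E := Units.mapEquiv e.toMulEquiv
  refine ⟨E.symm Z, ?_, rfl⟩
  apply (resHom_bij h hq).1
  rw [resHom_mk]
  have h1 : ((E (E.symm Z) : (𝓞 K ⧸ w.asIdeal)ˣ) : 𝓞 K ⧸ w.asIdeal) =
      resHom h ((E.symm Z : (𝓞 F ⧸ v.asIdeal)ˣ) : 𝓞 F ⧸ v.asIdeal) := rfl
  rw [← h1, MulEquiv.apply_symm_apply, hZ]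
  exact Ideal.Quotient.eq.mpr hz

theorem isTame_up {A : Type} [CommGroup A] {v : Pl F} {w : Pl K} (h : OvL v w)
    (hq : q w = q v) (hval : ∀ x : F, w.valuation K (algebraMap F K x) = v.valuation F x)
    (hBCT : ST_BCT) (j : AlgebraicClosure F ≃+* AlgebraicClosure K) (r : Gal K →* Gal F)
    (hjr : IsBC F K j r) (ε : Gal F →* A) (π : 𝓞 F) (f : (𝓞 F ⧸ v.asIdeal)ˣ →* A)
    (hT : IsTame ε v π f) :
    IsTame (ε.comp r) w (algebraMap (𝓞 F) (𝓞 K) π) (fK h hq f) := by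
  refine ⟨⟨(h π).mpr hT.1.1, fun h1 => hT.1.2 ?_⟩, ?_⟩
  · rw [← IsDedekindDomain.HeightOneSpectrum.intValuation_le_pow_iff_mem] at h1 ⊢
    have h2 : w.valuation K (algebraMap F K (π : F)) =
        w.intValuation (algebraMap (𝓞 F) (𝓞 K) π) :=
      IsDedekindDomain.HeightOneSpectrum.valuation_of_algebraMap w (algebraMap (𝓞 F) (𝓞 K) π)
    have h3 : v.valuation F (π : F) = v.intValuation π :=
      IsDedekindDomain.HeightOneSpectrum.valuation_of_algebraMap v π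
    rwa [← h2, hval, h3] at h1
  · intro 𝔔 h𝔔 σ hσ u U hU hTm
    obtain ⟨𝔓, h1, h2, h3⟩ := hBCT F K j r hjr 𝔔
    obtain ⟨u₁, hu₁⟩ := lift_all h hq u
    obtain ⟨U₁, hU₁, hfU⟩ := fK_eq h hq f u₁ u hu₁ U hU
    rw [MonoidHom.comp_apply, hfU]
    refine hT.2 𝔓 (h3 v w h h𝔔) (r σ) ((h2 1 σ).mp hσ) u₁ U₁ hU₁ ?_
    intro y ζ c hy hζ hc
    rw [h1 (ζ - c) (jz j ζ - jz j c) (by
      show ((jz j ζ : Zb K) : AlgebraicClosure K) - ((jz j c : Zb K) : AlgebraicClosure K) = _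
      rw [jz_coe, jz_coe, ← map_sub]
      rfl)]
    have h4 := hTm (jz j y) (jz j ζ) (toZb u) (by
      rw [jz_coe, hq, ← map_pow, hy, hjr.base]
      rfl) (by
      rw [jz_coe, jz_coe, ← map_mul, hζ, hjr.act]) (toZb_coe u)
    have h5 : toZb u - jz j c ∈ 𝔔 := by
      refine (h𝔔.2 (u - algebraMap (𝓞 F) (𝓞 K) u₁) (toZb u - jz j c) ?_).mpr hu₁
      show ((toZb u : Zb K) : AlgebraicClosure K) - ((jz j c : Zb K) : AlgebraicClosure K) = _
      rw [toZb_coe, jz_coe, hc, hjr.base, ← map_sub]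
      rfl
    have h6 := add_mem h4 h5
    rwa [sub_add_sub_cancel] at h6

end TAMaux

theorem st_TAM (hTAK : ST_TAK) (hBCH : ST_BCH) (hBCT : ST_BCT) (hNFR : ST_NFR) (hREC : ST_REC)
    (hEV : ST_EV) (hAPX : ST_APX) : ST_TAM := by
  classical
  intro F _ _ v A _ ε B φ π f hopen hvB hφ hT
  obtain ⟨K, iK, iN, iA, iG, w, hrt, hov, hqq, hval, hD⟩ := split_exists F v
  obtain ⟨j, r, hjr⟩ := hBCH F K
  obtain ⟨B', φ', hB', hφ', hnorm⟩ := hNFR F K j r hjr A ε B φ hφ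
  have hwB' : w ∈ B' := (hB' w).mpr ⟨v, hvB, hov⟩
  have hT' := isTame_up hov hqq hval hBCT j r hjr ε π f hT
  obtain ⟨N', hN', hK⟩ := hTAK K w A (ε.comp r) B' φ' (algebraMap (𝓞 F) (𝓞 K) π)
    (fK hov hqq f) hrt (hjr.cont ε.ker hopen) hwB' hφ' hT'
  obtain ⟨N₂, hN₂, hF⟩ := hREC F A ε hopen B φ hφ
  refine ⟨N₂, hN₂, fun x hx X hX => ?_⟩
  obtain ⟨hx0, hxt, hxc⟩ := hx
  have hfin : 0 < Module.finrank F K := Module.finrank_pos
  set M : ℕ := N' + N₂ * Module.finrank F K with hM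
  have hMpos : 0 < M := by omega
  have hMN : ∀ (v' : Pl F) (w' : Pl K), OvL v' w' →
      N₂ * v'.asIdeal.ramificationIdx' w'.asIdeal ≤ M := by
    intro v' w' h
    have h1 := Nat.mul_le_mul_left N₂ (ram_le h)
    omega
  have hvx : x ∉ v.asIdeal := by
    intro h1
    haveI : Nontrivial (𝓞 F ⧸ v.asIdeal) := Ideal.Quotient.nontrivial_iff.mpr v.isPrime.ne_top
    apply X.ne_zero
    rw [hX]
    exact Ideal.Quotient.eq_zero_iff_mem.mpr h1
  have hxB : ∀ v' ∈ B, x ∉ v'.asIdeal := by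
    intro v' hv' h1
    by_cases hvv : v' = v
    · exact hvx (hvv ▸ h1)
    · have h2 := Ideal.pow_le_self hN₂.ne' (hxc v' (Finset.mem_erase.mpr ⟨hvv, hv'⟩))
      apply v'.isPrime.ne_top
      rw [Ideal.eq_top_iff_one]
      have h3 := sub_mem h1 h2
      rwa [sub_sub_cancel] at h3
  -- the element `y`
  obtain ⟨y, hy0, hyc, hyt⟩ := hAPX K B' M
    (fun w' => if w' = w then algebraMap (𝓞 F) (𝓞 K) x else 1) (fun _ => 1)
    (fun _ => one_ne_zero)
  have hyT : TotPos (y : K) := by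
    intro t
    have := hyt t
    rwa [one_mul] at this
  have hyw : y - algebraMap (𝓞 F) (𝓞 K) x ∈ w.asIdeal ^ M := by
    have := hyc w hwB'
    simpa using this
  have hy1 : ∀ w' ∈ B', w' ≠ w → y - 1 ∈ w'.asIdeal ^ M := by
    intro w' hw' hne
    have := hyc w' hw'
    simpa [hne] using this
  set x' : 𝓞 F := RingOfIntegers.norm F y with hx'
  have hx'0 : x' ≠ 0 := norm_int_ne_zero y hy0
  have hx't : TotPos (x' : F) := norm_int_totPos y hy0 hyT
  have hx'c : ∀ v' ∈ B, x' - x ∈ v'.asIdeal ^ N₂ := by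
    intro v' hv'
    by_cases hvv : v' = v
    · subst hvv
      refine mem_down hov N₂ M (hMN _ _ hov) _ ?_
      refine norm_near hov hD M x y hyw fun w' hw' hne => ?_
      exact hy1 w' ((hB' w').mpr ⟨_, hvB, hw'⟩) hne
    · obtain ⟨w', hw'⟩ := nonempty_over (L := K) v'
      have h1 : x' - 1 ∈ v'.asIdeal ^ N₂ := by
        refine mem_down hw' N₂ M (hMN _ _ hw') _ ?_
        refine norm_near_one hw' M y fun w'' hw'' => ?_
        refine hy1 w'' ((hB' w'').mpr ⟨_, hv', hw''⟩) ?_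
        rintro rfl
        exact hvv ((existsUnique_down w'').unique hw'' hov)
      have h2 := hxc v' (Finset.mem_erase.mpr ⟨hvv, hv'⟩)
      have h3 := sub_mem h1 h2
      rwa [sub_sub_sub_cancel_right] at h3
  -- the element `z`
  choose! a ha using fun v' (hv' : v' ∈ B) =>
    Pool.Agent.Helper18.REC.exists_inv v' N₂ x (hxB v' hv')
  obtain ⟨z, hz0, hzc, hzt⟩ := hAPX F B N₂ a (fun _ => 1) (fun _ => one_ne_zero)
  have hzT : TotPos ((z : 𝓞 F) : F) := by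
    intro σ
    have := hzt σ
    rwa [one_mul] at this
  have hmulT : ∀ s t : 𝓞 F, TotPos (s : F) → TotPos (t : F) → TotPos ((s * t : 𝓞 F) : F) := by
    intro s t hs ht σ
    have h1 : ((s * t : 𝓞 F) : F) = (s : F) * (t : F) := map_mul (algebraMap (𝓞 F) F) s t
    rw [h1, map_mul]
    exact mul_pos (hs σ) (ht σ)
  have hzx : ∀ v' ∈ B, z * x - 1 ∈ v'.asIdeal ^ N₂ := by
    intro v' hv'
    have h3 : z * x - 1 = (z - a v') * x + (a v' * x - 1) := by ring
    rw [h3]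
    exact add_mem (Ideal.mul_mem_right _ _ (hzc v' hv')) (ha v' hv')
  have hzx' : ∀ v' ∈ B, z * x' - 1 ∈ v'.asIdeal ^ N₂ := by
    intro v' hv'
    have h3 : z * x' - 1 = z * (x' - x) + (z * x - 1) := by ring
    rw [h3]
    exact add_mem (Ideal.mul_mem_left _ _ (hx'c v' hv')) (hzx v' hv')
  obtain ⟨e1, e2, e3, e4, e5, e6, e7⟩ := hEV F A
  have hspan : ∀ s t : 𝓞 F, s ≠ 0 → t ≠ 0 →
      ev φ (Ideal.span {s * t}) = ev φ (Ideal.span {s}) * ev φ (Ideal.span {t}) := by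
    intro s t hs ht
    rw [← Ideal.span_singleton_mul_span_singleton]
    refine e2 φ _ _ ?_ ?_
    · rw [Ne, Ideal.span_singleton_eq_bot]; exact hs
    · rw [Ne, Ideal.span_singleton_eq_bot]; exact ht
  have h1 := hF _ ⟨mul_ne_zero hz0 hx0, hmulT z x hzT hxt, hzx⟩
  have h2 := hF _ ⟨mul_ne_zero hz0 hx'0, hmulT z x' hzT hx't, hzx'⟩
  rw [hspan _ _ hz0 hx0] at h1
  rw [hspan _ _ hz0 hx'0, ← h1] at h2
  have h3 : ev φ (Ideal.span {x'}) = ev φ (Ideal.span {x}) := mul_left_cancel h2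
  have h4 := hnorm y hy0 (by
    intro w' hw' hmem
    by_cases hne : w' = w
    · subst hne
      have h5 := Ideal.pow_le_self hMpos.ne' hyw
      have h6 := sub_mem hmem h5
      rw [sub_sub_cancel] at h6
      exact hvx ((hov x).mp h6)
    · have h5 := Ideal.pow_le_self hMpos.ne' (hy1 w' hw' hne)
      apply w'.isPrime.ne_top
      rw [Ideal.eq_top_iff_one]
      have h6 := sub_mem hmem h5
      rwa [sub_sub_cancel] at h6)
  rw [← h3, ← h4]
  let e := RingEquiv.ofBijective (resHom hov) (resHom_bij hov hqq)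
  let E := Units.mapEquiv e.toMulEquiv
  have hEX : ((E X : (𝓞 K ⧸ w.asIdeal)ˣ) : 𝓞 K ⧸ w.asIdeal) = Ideal.Quotient.mk w.asIdeal y := by
    have h5 : ((E X : (𝓞 K ⧸ w.asIdeal)ˣ) : 𝓞 K ⧸ w.asIdeal) =
      resHom hov (X : 𝓞 F ⧸ v.asIdeal) := rfl
    rw [h5, hX, resHom_mk]
    exact (Ideal.Quotient.eq.mpr (Ideal.pow_le_self hMpos.ne' hyw)).symm
  have h5 := hK y ⟨hy0, hyT, fun w' hw' => by
    rw [Finset.mem_erase] at hw'
    exact Ideal.pow_le_pow_right (by omega) (hy1 w' hw'.2 hw'.1)⟩ (E X) hEX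
  have h6 : fK hov hqq f (E X) = f X := by
    show f (E.symm (E X)) = f X
    rw [MulEquiv.symm_apply_apply]
  rwa [h6] at h5

end REC
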