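import Pool.Agent.Helper57.REC.XEE

/-!
# REC, part 12X: row XSM
-/

set_option autoImplicit false

open scoped Classical
open NumberField Polynomial

namespace REC

open Pool.Agent.Helper13.ZL (Pl q)
open MU

/-! ## Linear algebra -/

/-- a subrepresentation with a left inverse is completely reducible -/
theorem xsm_ss {G K : Type} [Group G] [Field K] {n m : ℕ} (r : G →* Matrix (Fin n) (Fin n) K)
    (s : G →* Matrix (Fin m) (Fin m) K) (P : Matrix (Fin m) (Fin n) K)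
    (T : Matrix (Fin n) (Fin m) K) (hPT : P * T = 1) (hT : ∀ g, r g * T = T * s g)
    (hr : IsSS r) : IsSS s := by
  intro j B A hBA
  obtain ⟨⟨C₀, hC₀⟩, hB⟩ := hBA
  obtain ⟨C, hC, hCr⟩ := hr j (T * B) A ⟨⟨C₀ * P, by
    rw [Matrix.mul_assoc, ← Matrix.mul_assoc P, hPT, Matrix.one_mul, hC₀]⟩, fun g => by
    rw [← Matrix.mul_assoc, hT g, Matrix.mul_assoc, hB g, Matrix.mul_assoc]⟩
  refine ⟨C * T, by rw [Matrix.mul_assoc, hC], fun g => ?_⟩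
  rw [Matrix.mul_assoc, ← hT g, ← Matrix.mul_assoc, hCr g, Matrix.mul_assoc]

/-- the inclusions of a direct sum are equivariant -/
theorem xsm_T {G A : Type} [CommRing A] {n a b : ℕ} (r : G → Matrix (Fin n) (Fin n) A)
    (s : G → Matrix (Fin a) (Fin a) A) (s' : G → Matrix (Fin b) (Fin b) A)
    (P : Matrix (Fin a) (Fin n) A) (P' : Matrix (Fin b) (Fin n) A) (T : Matrix (Fin n) (Fin a) A)
    (T' : Matrix (Fin n) (Fin b) A) (h1 : P * T = 1) (h2 : P' * T = 0)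
    (h3 : T * P + T' * P' = 1) (hP : ∀ g, P * r g = s g * P) (hP' : ∀ g, P' * r g = s' g * P')
    (g : G) : r g * T = T * s g := by
  calc r g * T = (T * P + T' * P') * (r g * T) := by rw [h3, Matrix.one_mul]
    _ = T * ((P * r g) * T) + T' * ((P' * r g) * T) := by
      rw [Matrix.add_mul]
      simp only [Matrix.mul_assoc]
    _ = T * s g := by
      rw [hP g, hP' g, Matrix.mul_assoc (s g), h1, Matrix.mul_one, Matrix.mul_assoc (s' g), h2,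
        Matrix.mul_zero, Matrix.mul_zero, add_zero]

/-- denominators -/
theorem xsm_den {a b : ℕ} (X : Matrix (Fin a) (Fin b) ℚ) :
    ∃ (D : ℕ) (Z : Matrix (Fin a) (Fin b) ℤ), 0 < D ∧
      Z.map (Int.castRingHom ℚ) = (D : ℚ) • X := by
  have hdvd : ∀ i j, (X i j).den ∣ ∏ i, ∏ j, (X i j).den := fun i j =>
    (Finset.dvd_prod_of_mem (fun j => (X i j).den) (Finset.mem_univ j)).trans
      (Finset.dvd_prod_of_mem (fun i => ∏ j, (X i j).den) (Finset.mem_univ i))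
  choose c hc using hdvd
  refine ⟨∏ i, ∏ j, (X i j).den, Matrix.of fun i j => (c i j : ℤ) * (X i j).num,
    Finset.prod_pos fun i _ => Finset.prod_pos fun j _ => (X i j).den_pos, ?_⟩
  ext i j
  rw [Matrix.map_apply, Matrix.of_apply, Matrix.smul_apply, smul_eq_mul]
  have h1 : ((X i j).den : ℚ) * X i j = (X i j).num := by
    rw [mul_comm]
    exact Rat.mul_den_eq_num _
  rw [show ((∏ i, ∏ j, (X i j).den : ℕ) : ℚ) = (X i j).den * (c i j : ℚ) by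
    rw [← Nat.cast_mul, ← hc i j]]
  rw [mul_comm ((X i j).den : ℚ), mul_assoc, h1]
  simp

/-- the two summands over the integers -/
theorem xsm_int {n a b : ℕ} (e : Matrix (Fin n) (Fin n) ℚ) (P : Matrix (Fin a) (Fin n) ℤ)
    (P' : Matrix (Fin b) (Fin n) ℤ) (Q : Matrix (Fin n) (Fin a) ℚ) (Q' : Matrix (Fin n) (Fin b) ℚ)
    (h1 : P.map (Int.castRingHom ℚ) * Q = 1) (h2 : Q * P.map (Int.castRingHom ℚ) = e)
    (h1' : P'.map (Int.castRingHom ℚ) * Q' = 1)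
    (h2' : Q' * P'.map (Int.castRingHom ℚ) = 1 - e) :
    ∃ (D : ℕ) (Z : Matrix (Fin n) (Fin a) ℤ) (Z' : Matrix (Fin n) (Fin b) ℤ), 0 < D ∧
      P * Z = (D : ℤ) • (1 : Matrix (Fin a) (Fin a) ℤ) ∧
      P' * Z' = (D : ℤ) • (1 : Matrix (Fin b) (Fin b) ℤ) ∧ P * Z' = 0 ∧ P' * Z = 0 ∧
      Z * P + Z' * P' = (D : ℤ) • (1 : Matrix (Fin n) (Fin n) ℤ) := by
  obtain ⟨D₁, Z₁, hD₁, hZ₁⟩ := xsm_den Q
  obtain ⟨D₂, Z₂, hD₂, hZ₂⟩ := xsm_den Q'
  set Pq := P.map (Int.castRingHom ℚ) with hPq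
  set Pq' := P'.map (Int.castRingHom ℚ) with hPq'
  have hinj : ∀ {c d : ℕ} (X Y : Matrix (Fin c) (Fin d) ℤ),
      X.map (Int.castRingHom ℚ) = Y.map (Int.castRingHom ℚ) → X = Y := fun X Y h =>
    Matrix.map_injective (RingHom.injective_int (Int.castRingHom ℚ)) h
  have hsc : ∀ {c d : ℕ} (z : ℤ) (X : Matrix (Fin c) (Fin d) ℤ),
      (z • X).map (Int.castRingHom ℚ) = (z : ℚ) • X.map (Int.castRingHom ℚ) := fun z X => by
    ext i j
    simp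
  have hone : ∀ c : ℕ, (1 : Matrix (Fin c) (Fin c) ℤ).map (Int.castRingHom ℚ) = 1 := fun c =>
    Matrix.map_one _ (map_zero _) (map_one _)
  have e1 : Pq * Q' = 0 := by
    calc Pq * Q' = Pq * (Q' * (Pq' * Q')) := by rw [h1', Matrix.mul_one]
      _ = Pq * ((1 - e) * Q') := by rw [← Matrix.mul_assoc Q', h2']
      _ = (Pq - (Pq * Q) * Pq) * Q' := by
        rw [← Matrix.mul_assoc, Matrix.mul_sub, Matrix.mul_one, ← h2, Matrix.mul_assoc Pq Q]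
      _ = 0 := by rw [h1, Matrix.one_mul, sub_self, Matrix.zero_mul]
  have e2 : Pq' * Q = 0 := by
    have h3 : e = 1 - Q' * Pq' := by rw [h2', sub_sub_cancel]
    calc Pq' * Q = Pq' * (Q * (Pq * Q)) := by rw [h1, Matrix.mul_one]
      _ = Pq' * (e * Q) := by rw [← Matrix.mul_assoc Q, h2]
      _ = (Pq' - (Pq' * Q') * Pq') * Q := by
        rw [← Matrix.mul_assoc, h3, Matrix.mul_sub, Matrix.mul_one, Matrix.mul_assoc Pq' Q']
      _ = 0 := by rw [h1', Matrix.one_mul, sub_self, Matrix.zero_mul]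
  refine ⟨D₁ * D₂, (D₂ : ℤ) • Z₁, (D₁ : ℤ) • Z₂, Nat.mul_pos hD₁ hD₂, ?_, ?_, ?_, ?_, ?_⟩
  · apply hinj
    rw [Matrix.map_mul, hsc, hsc, hone, hZ₁, ← hPq, Matrix.mul_smul, Matrix.mul_smul, h1, smul_smul]
    push_cast
    rw [mul_comm]
  · apply hinj
    rw [Matrix.map_mul, hsc, hsc, hone, hZ₂, ← hPq', Matrix.mul_smul, Matrix.mul_smul, h1',
      smul_smul]
    push_cast
    rfl
  · apply hinj
    rw [Matrix.map_mul, hsc, hZ₂, ← hPq, Matrix.mul_smul, Matrix.mul_smul, e1, smul_zero, smul_zero,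
      Matrix.map_zero _ (map_zero _)]
  · apply hinj
    rw [Matrix.map_mul, hsc, hZ₁, ← hPq', Matrix.mul_smul, Matrix.mul_smul, e2, smul_zero,
      smul_zero, Matrix.map_zero _ (map_zero _)]
  · apply hinj
    rw [Matrix.map_add _ (map_add _), Matrix.map_mul, Matrix.map_mul, hsc, hsc, hsc, hone, hZ₁, hZ₂,
      ← hPq, ← hPq', smul_smul, smul_smul, Matrix.smul_mul, Matrix.smul_mul, h2, h2']
    push_cast
    rw [mul_comm (D₂ : ℚ), ← smul_add, add_sub_cancel]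

/-- the two summands over a ring in which the denominator is invertible -/
theorem xsm_split {n a b D : ℕ} (P : Matrix (Fin a) (Fin n) ℤ) (P' : Matrix (Fin b) (Fin n) ℤ)
    (Z : Matrix (Fin n) (Fin a) ℤ) (Z' : Matrix (Fin n) (Fin b) ℤ)
    (h1 : P * Z = (D : ℤ) • (1 : Matrix (Fin a) (Fin a) ℤ))
    (h2 : P' * Z' = (D : ℤ) • (1 : Matrix (Fin b) (Fin b) ℤ)) (h3 : P * Z' = 0) (h4 : P' * Z = 0)
    (h5 : Z * P + Z' * P' = (D : ℤ) • (1 : Matrix (Fin n) (Fin n) ℤ)) {A : Type} [CommRing A]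
    (u : A) (hu : u * (D : A) = 1) :
    ∃ (T : Matrix (Fin n) (Fin a) A) (T' : Matrix (Fin n) (Fin b) A),
      P.map (Int.castRingHom A) * T = 1 ∧ P'.map (Int.castRingHom A) * T' = 1 ∧
      P.map (Int.castRingHom A) * T' = 0 ∧ P'.map (Int.castRingHom A) * T = 0 ∧
      T * P.map (Int.castRingHom A) + T' * P'.map (Int.castRingHom A) = 1 := by
  have hsc : ∀ {c d : ℕ} (X : Matrix (Fin c) (Fin d) ℤ),
      ((D : ℤ) • X).map (Int.castRingHom A) = (D : A) • X.map (Int.castRingHom A) := fun X => by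
    ext i j
    simp
  have hone : ∀ c : ℕ, (1 : Matrix (Fin c) (Fin c) ℤ).map (Int.castRingHom A) = 1 := fun c =>
    Matrix.map_one _ (map_zero _) (map_one _)
  refine ⟨u • Z.map (Int.castRingHom A), u • Z'.map (Int.castRingHom A), ?_, ?_, ?_, ?_, ?_⟩
  · rw [Matrix.mul_smul, ← Matrix.map_mul, h1, hsc, hone, smul_smul, hu, one_smul]
  · rw [Matrix.mul_smul, ← Matrix.map_mul, h2, hsc, hone, smul_smul, hu, one_smul]
  · rw [Matrix.mul_smul, ← Matrix.map_mul, h3, Matrix.map_zero _ (map_zero _), smul_zero]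
  · rw [Matrix.mul_smul, ← Matrix.map_mul, h4, Matrix.map_zero _ (map_zero _), smul_zero]
  · rw [Matrix.smul_mul, Matrix.smul_mul, ← Matrix.map_mul, ← Matrix.map_mul, ← smul_add,
      ← Matrix.map_add _ (map_add _), h5, hsc, hone, smul_smul, hu, one_smul]

/-- SUG for two summands without homomorphisms between the reductions -/
theorem xsm_sug (hSUG : ST_SUG) {G : Type} [Group G] {n a b l : ℕ} [Fact l.Prime]
    (r : G →* Matrix.GeneralLinearGroup (Fin n) ℤ_[l])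
    (s : G →* Matrix.GeneralLinearGroup (Fin a) ℤ_[l])
    (s' : G →* Matrix.GeneralLinearGroup (Fin b) ℤ_[l]) (P : Matrix (Fin a) (Fin n) ℤ_[l])
    (P' : Matrix (Fin b) (Fin n) ℤ_[l]) (T : Matrix (Fin n) (Fin a) ℤ_[l])
    (T' : Matrix (Fin n) (Fin b) ℤ_[l]) (h1 : P * T = 1) (h2 : P' * T' = 1) (h3 : P * T' = 0)
    (h4 : P' * T = 0) (h5 : T * P + T' * P' = 1)
    (hP : ∀ g, P * (r g : Matrix (Fin n) (Fin n) ℤ_[l]) =
      (s g : Matrix (Fin a) (Fin a) ℤ_[l]) * P)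
    (hP' : ∀ g, P' * (r g : Matrix (Fin n) (Fin n) ℤ_[l]) =
      (s' g : Matrix (Fin b) (Fin b) ℤ_[l]) * P') (hs : Lft s) (hs' : Lft s')
    (hz : ∀ u : Matrix (Fin b) (Fin a) (ZMod l), (∀ g, u * res s g = res s' g * u) → u = 0)
    (hz' : ∀ u : Matrix (Fin a) (Fin b) (ZMod l), (∀ g, u * res s' g = res s g * u) → u = 0) :
    Lft r := by
  have hmap0 : ∀ c d : ℕ, (0 : Matrix (Fin c) (Fin d) ℤ_[l]).map (PadicInt.toZMod (p := l)) = 0 :=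
    fun c d => Matrix.map_zero _ (map_zero _)
  refine hSUG G n l 2 ![a, b] r
    (fun i => match i with
      | 0 => s
      | 1 => s')
    (fun i => match i with
      | 0 => P
      | 1 => P')
    (fun i => match i with
      | 0 => T
      | 1 => T') ?_ ?_ ?_ ?_ ?_ ?_
  · rw [Fin.forall_fin_two]
    exact ⟨h1, h2⟩
  · rw [Fin.forall_fin_two]
    refine ⟨?_, ?_⟩
    · rw [Fin.forall_fin_two]
      exact ⟨fun h => absurd rfl h, fun _ => h3⟩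
    · rw [Fin.forall_fin_two]
      exact ⟨fun _ => h4, fun h => absurd rfl h⟩
  · rw [Fin.sum_univ_two]
    exact h5
  · rw [Fin.forall_fin_two]
    exact ⟨hP, hP'⟩
  · rw [Fin.forall_fin_two]
    exact ⟨hs.1, hs'.1⟩
  · rw [Fin.forall_fin_two]
    refine ⟨?_, ?_⟩
    · rw [Fin.forall_fin_two]
      refine ⟨hs.2, fun u hu => ?_⟩
      refine ⟨0, ?_, fun g => ?_⟩
      · exact (hmap0 b a).trans (hz u hu).symm
      · exact (Matrix.zero_mul _).trans (Matrix.mul_zero _).symm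
    · rw [Fin.forall_fin_two]
      refine ⟨fun u hu => ?_, hs'.2⟩
      refine ⟨0, ?_, fun g => ?_⟩
      · exact (hmap0 a b).trans (hz' u hu).symm
      · exact (Matrix.zero_mul _).trans (Matrix.mul_zero _).symm

/-- no homomorphisms between sums of summands without homomorphisms -/
theorem xsm_hom0 {G K : Type} [Group G] [Field K] {a b k k' : ℕ} {m : Fin k → ℕ} {m' : Fin k' → ℕ}
    (r : G → Matrix (Fin a) (Fin a) K) (r' : G → Matrix (Fin b) (Fin b) K)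
    (s : ∀ i, G →* Matrix (Fin (m i)) (Fin (m i)) K)
    (s' : ∀ i, G →* Matrix (Fin (m' i)) (Fin (m' i)) K) (P : ∀ i, Matrix (Fin (m i)) (Fin a) K)
    (Q : ∀ i, Matrix (Fin a) (Fin (m i)) K) (P' : ∀ i, Matrix (Fin (m' i)) (Fin b) K)
    (Q' : ∀ i, Matrix (Fin b) (Fin (m' i)) K) (h1 : ∀ i, P i * Q i = 1)
    (h2 : ∀ i j, i ≠ j → P i * Q j = 0) (h3 : ∑ i, Q i * P i = 1)
    (h4 : ∀ i g, P i * r g = s i g * P i) (h3' : ∑ i, Q' i * P' i = 1)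
    (h4' : ∀ i g, P' i * r' g = s' i g * P' i) (hh : ∀ i j, Hmk (s i) (s' j) = ⊥)
    (u : Matrix (Fin b) (Fin a) K) (hu : ∀ g, u * r g = r' g * u) : u = 0 := by
  have hQ : ∀ i g, r g * Q i = Q i * s i g := by
    intro i g
    calc r g * Q i = (∑ j, Q j * P j) * (r g * Q i) := by rw [h3, Matrix.one_mul]
      _ = ∑ j, Q j * (s j g * (P j * Q i)) := by
        rw [Matrix.sum_mul]
        refine Finset.sum_congr rfl fun j _ => ?_
        rw [Matrix.mul_assoc, ← Matrix.mul_assoc (P j), h4 j g, Matrix.mul_assoc]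
      _ = Q i * s i g := by
        rw [Finset.sum_eq_single i, h1 i, Matrix.mul_one]
        · intro j _ hj
          rw [h2 j i hj, Matrix.mul_zero, Matrix.mul_zero]
        · intro h
          exact absurd (Finset.mem_univ _) h
  have hv : ∀ i j, P' j * u * Q i = 0 := by
    intro i j
    have h5 : P' j * u * Q i ∈ Hmk (s i) (s' j) := fun g => by
      calc P' j * u * Q i * s i g = P' j * (u * r g) * Q i := by
            rw [Matrix.mul_assoc (P' j * u), ← hQ i g]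
            simp only [Matrix.mul_assoc]
        _ = (P' j * r' g) * u * Q i := by
            rw [hu g]
            simp only [Matrix.mul_assoc]
        _ = s' j g * (P' j * u * Q i) := by
            rw [h4' j g]
            simp only [Matrix.mul_assoc]
    rw [hh i j, Submodule.mem_bot] at h5
    exact h5
  calc u = (∑ j, Q' j * P' j) * u * (∑ i, Q i * P i) := by
        rw [h3, h3', Matrix.one_mul, Matrix.mul_one]
    _ = ∑ i, ∑ j, Q' j * (P' j * u * Q i) * P i := by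
        rw [Matrix.mul_sum]
        refine Finset.sum_congr rfl fun i _ => ?_
        rw [Matrix.sum_mul, Matrix.sum_mul]
        refine Finset.sum_congr rfl fun j _ => ?_
        simp only [Matrix.mul_assoc]
    _ = 0 := by
        refine Finset.sum_eq_zero fun i _ => Finset.sum_eq_zero fun j _ => ?_
        rw [hv i j, Matrix.mul_zero, Matrix.zero_mul]

/-! ## Blocks -/

section

variable {n m : ℕ} {L : Type} [Field L] [NumberField L]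

/-- the same summand with another denominator -/
noncomputable def Blo.scl (b : Blo n m L) (c : ℕ) (hc : 0 < c) : Blo n m L where
  N := c * b.N
  P := (c : 𝓞 L) • b.P
  Q := b.Q
  pos := Nat.mul_pos hc b.pos
  PQ := by rw [Matrix.smul_mul, b.PQ, smul_smul, Nat.cast_mul]

theorem xsm_scl_at (b : Blo n m L) (c : ℕ) (hc : 0 < c) {G : Type} [Group G] {l : ℕ}
    [Fact l.Prime] {Ω : Type} [Field Ω] (r : G →* Matrix.GeneralLinearGroup (Fin n) ℤ_[l])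
    (ϑ : ℤ_[l] →+* Ω) (ι : 𝓞 L →+* Ω) (R : G →* Matrix (Fin m) (Fin m) Ω) :
    (b.scl c hc).At r ϑ ι R ↔ (c : Ω) ≠ 0 ∧ b.At r ϑ ι R := by
  have hP : (b.scl c hc).P.map ι = (c : Ω) • b.P.map ι := by
    ext i j
    simp [Blo.scl]
  have hN : (((b.scl c hc).N : ℕ) : Ω) = (c : Ω) * (b.N : Ω) := by
    simp [Blo.scl]
  unfold Blo.At
  rw [hP, hN]
  constructor
  · rintro ⟨h1, h2⟩
    have hc0 : (c : Ω) ≠ 0 := left_ne_zero_of_mul h1
    refine ⟨hc0, right_ne_zero_of_mul h1, fun g => ?_⟩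
    have h3 := h2 g
    rw [Matrix.smul_mul, Matrix.mul_smul] at h3
    exact smul_right_injective _ hc0 h3
  · rintro ⟨h1, h2, h3⟩
    refine ⟨mul_ne_zero h1 h2, fun g => ?_⟩
    rw [Matrix.smul_mul, Matrix.mul_smul, h3 g]

end

theorem xsm_scl_dcp {n k : ℕ} {L : Type} [Field L] [NumberField L] {m : Fin k → ℕ}
    (b : ∀ i, Blo n (m i) L) (c : ℕ) (hc : 0 < c) (hd : IsDcp b) :
    IsDcp (fun i => (b i).scl c hc) := by
  obtain ⟨h0, N, hN, hbN, hsum⟩ := hd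
  refine ⟨fun i j hij => ?_, c * N, Nat.mul_pos hc hN, fun i => ?_, ?_⟩
  · change ((c : 𝓞 L) • (b i).P) * (b j).Q = 0
    rw [Matrix.smul_mul, h0 i j hij, smul_zero]
  · change c * (b i).N = c * N
    rw [hbN i]
  · change ∑ i, (b i).Q * ((c : 𝓞 L) • (b i).P) = _
    rw [Finset.sum_congr rfl fun i _ => Matrix.mul_smul (b i).Q (c : 𝓞 L) (b i).P,
      ← Finset.smul_sum, hsum, smul_smul, Nat.cast_mul]

section

variable {n k : ℕ} {L : Type} [Field L] [NumberField L] {m : Fin k → ℕ}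
  (b : ∀ i, Blo n (m i) L)

/-- the sum over a set of summands is idempotent up to the denominator -/
theorem xsm_sq (hd : IsDcp b) (N : ℕ) (hbN : ∀ i, (b i).N = N) (B : Finset (Fin k)) :
    (∑ i ∈ B, (b i).Q * (b i).P) * (∑ i ∈ B, (b i).Q * (b i).P) =
      (N : 𝓞 L) • ∑ i ∈ B, (b i).Q * (b i).P := by
  rw [Finset.sum_mul, Finset.smul_sum]
  refine Finset.sum_congr rfl fun i hi => ?_
  rw [Finset.mul_sum, Finset.sum_eq_single i]
  · rw [Matrix.mul_assoc, ← Matrix.mul_assoc (b i).P, (b i).PQ, Matrix.smul_mul, Matrix.one_mul,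
      Matrix.mul_smul, hbN i]
  · intro j _ hj
    rw [Matrix.mul_assoc, ← Matrix.mul_assoc (b i).P, hd.1 i j (Ne.symm hj), Matrix.zero_mul,
      Matrix.mul_zero]
  · intro h
    exact absurd hi h

theorem xsm_idem (hd : IsDcp b) (B : Finset (Fin k)) (e : Matrix (Fin n) (Fin n) ℚ)
    (he : IsRt b B e) : e * e = e := by
  obtain ⟨N, hN, hbN, hNe⟩ := he
  have hN0 : (N : L) ≠ 0 := Nat.cast_ne_zero.2 hN.ne'
  have h1 := congrArg (fun X : Matrix (Fin n) (Fin n) (𝓞 L) => X.map (algebraMap (𝓞 L) L))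
    (xsm_sq b hd N hbN B)
  rw [Matrix.map_mul, Matrix.map_smul' _ _ _ (map_mul _), map_natCast, ← hNe, Matrix.smul_mul,
    Matrix.mul_smul, ← Matrix.map_mul] at h1
  have h2 := smul_right_injective _ hN0 (smul_right_injective _ hN0 h1)
  exact Matrix.map_injective (algebraMap ℚ L).injective h2

theorem xsm_compl (hd : IsDcp b) (B : Finset (Fin k)) (e : Matrix (Fin n) (Fin n) ℚ)
    (he : IsRt b B e) : IsRt b Bᶜ (1 - e) := by
  obtain ⟨N, hN, hbN, hNe⟩ := he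
  obtain ⟨h0, N', hN', hbN', hsum⟩ := hd
  refine ⟨N, hN, hbN, ?_⟩
  rcases Nat.eq_zero_or_pos k with hk | hk
  · subst hk
    have hn : n = 0 := by
      by_contra hn
      have h1 := congrFun (congrFun hsum ⟨0, Nat.pos_of_ne_zero hn⟩) ⟨0, Nat.pos_of_ne_zero hn⟩
      rw [Finset.univ_eq_empty, Finset.sum_empty, Matrix.zero_apply, Matrix.smul_apply,
        Matrix.one_apply_eq, smul_eq_mul, mul_one] at h1
      exact (Nat.cast_ne_zero.2 hN'.ne' : (N' : 𝓞 L) ≠ 0) h1.symm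
    subst hn
    exact Subsingleton.elim _ _
  · have hNN : N' = N := by rw [← hbN' ⟨0, hk⟩, hbN]
    subst hNN
    have h1 : ∑ i ∈ Bᶜ, (b i).Q * (b i).P = (N' : 𝓞 L) • (1 : Matrix (Fin n) (Fin n) (𝓞 L)) -
        ∑ i ∈ B, (b i).Q * (b i).P := by
      rw [← hsum, ← Finset.sum_add_sum_compl B]
      simp
    have h2 : (1 - e).map (algebraMap ℚ L) = 1 - e.map (algebraMap ℚ L) := by
      rw [Matrix.map_sub _ (map_sub _), Matrix.map_one _ (map_zero _) (map_one _)]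
    have h3 : ((N' : 𝓞 L) • (1 : Matrix (Fin n) (Fin n) (𝓞 L))).map (algebraMap (𝓞 L) L) =
        (N' : L) • 1 := by
      rw [Matrix.map_smul' _ _ _ (map_mul _), map_natCast, Matrix.map_one _ (map_zero _) (map_one _)]
    rw [h2, h1, Matrix.map_sub _ (map_sub _), ← hNe, h3, smul_sub]

end

/-- the part of a family -/
theorem xsm_part (hXSB : ST_XSB) (F L : Type) [Field F] [NumberField F] [Field L] [NumberField L]
    (n k : ℕ) (m : Fin k → ℕ) (b : ∀ i, Blo n (m i) L) (S : Finset ℕ) (ρ : Fml F n)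
    (hcont : ∀ (l : ℕ) [Fact l.Prime], Continuous (ρ l)) (hd : IsDcp b)
    (hst : ∀ i, (b i).Stb ρ) (B : Finset (Fin k)) (e : Matrix (Fin n) (Fin n) ℚ)
    (he : IsRt b B e) (r : ℕ) (P : Matrix (Fin r) (Fin n) ℤ) (C : Matrix (Fin n) (Fin r) ℤ)
    (Q : Matrix (Fin n) (Fin r) ℚ) (h1 : P * C = 1) (h2 : P.map (Int.castRingHom ℚ) * Q = 1)
    (h3 : Q * P.map (Int.castRingHom ℚ) = e) :
    ∃ (k' : ℕ) (φ : Fin k' → Fin k) (ρ' : Fml F r) (b' : ∀ i, Blo r (m (φ i)) L),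
      (∀ i, φ i ∈ B) ∧ IsDcp b' ∧ (∀ (l : ℕ) [Fact l.Prime], Continuous (ρ' l)) ∧
      (∀ (l : ℕ) [Fact l.Prime] (g : Gal F),
        P.map (Int.castRingHom ℤ_[l]) * (ρ l g : Matrix (Fin n) (Fin n) ℤ_[l]) =
          (ρ' l g : Matrix (Fin r) (Fin r) ℤ_[l]) * P.map (Int.castRingHom ℤ_[l])) ∧
      (∀ i, (b' i).Stb ρ') ∧
      ∀ (i : Fin k') (l : ℕ) [Fact l.Prime] (Ω : Type) [Field Ω] (ϑ : ℤ_[l] →+* Ω)
        (ι : 𝓞 L →+* Ω) (R : Gal F →* Matrix (Fin (m (φ i))) (Fin (m (φ i))) Ω),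
        (b' i).At (ρ' l) ϑ ι R ↔ (b (φ i)).At (ρ l) ϑ ι R := by
  let φ : Fin B.card → Fin k := B.orderEmbOfFin rfl
  have hφ : ∀ i, φ i ∈ B := fun i => Finset.orderEmbOfFin_mem B rfl i
  obtain ⟨ρ', b₀, hd₀, hcont', hP, hAt⟩ := hXSB F L n k m b ρ hcont hd hst B e he r P C Q h1 h2 h3
    B.card φ (B.orderEmbOfFin rfl).injective (fun i => by
      constructor
      · intro hi
        have h4 : i ∈ Set.range (B.orderEmbOfFin rfl) := by
          rw [Finset.range_orderEmbOfFin]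
          exact hi
        exact h4
      · rintro ⟨i', rfl⟩
        exact hφ i')
  obtain ⟨-, N, hN, hbN, -⟩ := id hd
  have hkey : ∀ (i : Fin B.card) (l : ℕ) [Fact l.Prime] (Ω : Type) [Field Ω] (ϑ : ℤ_[l] →+* Ω)
        (ι : 𝓞 L →+* Ω) (R : Gal F →* Matrix (Fin (m (φ i))) (Fin (m (φ i))) Ω),
        ((b₀ i).scl N hN).At (ρ' l) ϑ ι R ↔ (b (φ i)).At (ρ l) ϑ ι R := by
    intro i l _ Ω _ ϑ ι R
    rw [xsm_scl_at, hAt i l Ω ϑ ι R]
    refine ⟨fun h => h.2, fun h => ⟨?_, h⟩⟩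
    have h5 := h.1
    rw [hbN] at h5
    exact h5
  refine ⟨B.card, φ, ρ', fun i => (b₀ i).scl N hN, hφ, xsm_scl_dcp b₀ N hN hd₀, hcont', hP, ?_,
    hkey⟩
  intro i l _ Ω _ ϑ ι hne
  have h6 : (((b (φ i)).N : ℕ) : Ω) ≠ 0 := by
    rw [hbN]
    intro h7
    apply hne
    change ((N * (b₀ i).N : ℕ) : Ω) = 0
    rw [Nat.cast_mul, h7, zero_mul]
  obtain ⟨R, hR⟩ := hst (φ i) l Ω ϑ ι h6
  exact ⟨R, (hkey i l Ω ϑ ι R).2 hR⟩

/-- a decomposition over `Ω` -/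
theorem xsm_dcp {n k N : ℕ} {L : Type} [Field L] [NumberField L] {m : Fin k → ℕ}
    (b : ∀ i, Blo n (m i) L) (h0 : ∀ i j, i ≠ j → (b i).P * (b j).Q = 0)
    (hbN : ∀ i, (b i).N = N)
    (hsum : ∑ i, (b i).Q * (b i).P = (N : 𝓞 L) • (1 : Matrix (Fin n) (Fin n) (𝓞 L)))
    {G : Type} [Group G] {l : ℕ} [Fact l.Prime]
    (r : G →* Matrix.GeneralLinearGroup (Fin n) ℤ_[l]) {Ω : Type} [Field Ω] (ϑ : ℤ_[l] →+* Ω)
    (ι : 𝓞 L →+* Ω) (R : ∀ i, G →* Matrix (Fin (m i)) (Fin (m i)) Ω)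
    (hR : ∀ i, (b i).At r ϑ ι (R i)) (hNΩ : (N : Ω) ≠ 0) :
    ∃ Q : ∀ i, Matrix (Fin n) (Fin (m i)) Ω, (∀ i, (b i).P.map ι * Q i = 1) ∧
      (∀ i j, i ≠ j → (b i).P.map ι * Q j = 0) ∧ ∑ i, Q i * (b i).P.map ι = 1 ∧
      ∀ i g, (b i).P.map ι * (r g : Matrix (Fin n) (Fin n) ℤ_[l]).map ϑ =
        R i g * (b i).P.map ι := by
  refine ⟨fun i => (N : Ω)⁻¹ • (b i).Q.map ι, fun i => ?_, fun i j hij => ?_, ?_,
    fun i g => (hR i).2 g⟩
  · have h1 : (b i).P.map ι * (b i).Q.map ι =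
        (N : Ω) • (1 : Matrix (Fin (m i)) (Fin (m i)) Ω) := by
      rw [← Matrix.map_mul, (b i).PQ, Matrix.map_smul' _ _ _ (map_mul _), map_natCast, hbN i,
        Matrix.map_one _ (map_zero _) (map_one _)]
    rw [Matrix.mul_smul, h1, smul_smul, inv_mul_cancel₀ hNΩ, one_smul]
  · rw [Matrix.mul_smul, ← Matrix.map_mul, h0 i j hij, Matrix.map_zero _ (map_zero _), smul_zero]
  · have h1 := congrArg (fun X : Matrix (Fin n) (Fin n) (𝓞 L) => X.map ι) hsum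
    rw [xen_map_sum, Matrix.map_smul' _ _ _ (map_mul _), map_natCast,
      Matrix.map_one _ (map_zero _) (map_one _)] at h1
    have h2 : ∀ i, ((N : Ω)⁻¹ • (b i).Q.map ι) * (b i).P.map ι =
        (N : Ω)⁻¹ • (((b i).Q * (b i).P).map ι) := fun i => by
      rw [Matrix.smul_mul, Matrix.map_mul]
    rw [Finset.sum_congr rfl fun i _ => h2 i, ← Finset.smul_sum, h1, smul_smul,
      inv_mul_cancel₀ hNΩ, one_smul]

theorem xsm_core (hXBS : ST_XBS) (hXRA : ST_XRA) (hXIG : ST_XIG) (hXSB : ST_XSB) (hXFM : ST_XFM)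
    (hXAC : ST_XAC) (hXPF : ST_XPF) (hXEE : ST_XEE) (hSUG : ST_SUG) (F L : Type) [Field F]
    [NumberField F] [Field L] [NumberField L] [IsGalois ℚ L] (n k : ℕ) (m : Fin k → ℕ)
    (b : ∀ i, Blo n (m i) L) (S : Finset ℕ) (ρ : Fml F n)
    (hcont : ∀ (l : ℕ) [Fact l.Prime], Continuous (ρ l))
    (hss : ∀ (l : ℕ) [Fact l.Prime], IsSS (rat (ρ l))) (hd : IsDcp b)
    (hb : ∀ i, (b i).Stb ρ ∧ (b i).Cmp S ρ ∧ ((b i).Ab ρ ∨ (b i).Irl ρ)) :
    ∃ c : ℕ, ∀ (l : ℕ) [Fact l.Prime], c < l → Lft (ρ l) := by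
  obtain ⟨B, Y, hYn, hYo, hnil, hirl, c₀, hc₀⟩ := hXBS F L n k m b S ρ hcont hb
  have hst : ∀ i, (b i).Stb ρ := fun i => (hb i).1
  obtain ⟨e, he⟩ := hXRA F L n k m b ρ hd hst B ⟨c₀, hc₀⟩
  have he' := xsm_compl b hd B e he
  have hee := xsm_idem b hd B e he
  have hee' := xsm_idem b hd Bᶜ (1 - e) he'
  obtain ⟨r₁, P₁, C₁, Q₁, h11, h12, h13⟩ := hXIG n e hee
  obtain ⟨r₂, P₂, C₂, Q₂, h21, h22, h23⟩ := hXIG n (1 - e) hee'
  obtain ⟨k₁, φ₁, ρ₁, b₁, hφ₁, hd₁, hcont₁, hP₁, hst₁, hAt₁⟩ :=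
    xsm_part hXSB F L n k m b S ρ hcont hd hst B e he r₁ P₁ C₁ Q₁ h11 h12 h13
  obtain ⟨k₂, φ₂, ρ₂, b₂, hφ₂, hd₂, hcont₂, hP₂, hst₂, hAt₂⟩ :=
    xsm_part hXSB F L n k m b S ρ hcont hd hst Bᶜ (1 - e) he' r₂ P₂ C₂ Q₂ h21 h22 h23
  obtain ⟨D, Z₁, Z₂, hD, hz1, hz2, hz3, hz4, hz5⟩ := xsm_int e P₁ P₂ Q₁ Q₂ h12 h13 h22 h23
  -- the potentially abelian part
  have hss₁ : ∀ (l : ℕ) [Fact l.Prime], IsSS (rat (ρ₁ l)) := by
    intro l _
    have hDl : (D : ℚ_[l]) ≠ 0 := Nat.cast_ne_zero.2 hD.ne'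
    obtain ⟨T, T', t1, t2, t3, t4, t5⟩ := xsm_split P₁ P₂ Z₁ Z₂ hz1 hz2 hz3 hz4 hz5
      ((D : ℚ_[l])⁻¹) (inv_mul_cancel₀ hDl)
    have hm : ∀ {a : ℕ} (X : Matrix (Fin a) (Fin n) ℤ),
        (X.map (Int.castRingHom ℤ_[l])).map (algebraMap ℤ_[l] ℚ_[l]) =
          X.map (Int.castRingHom ℚ_[l]) := fun X => by
      ext i j
      simp
    have hPr : ∀ {a : ℕ} (X : Matrix (Fin a) (Fin n) ℤ) (σ : Fml F a),
        (∀ g : Gal F, X.map (Int.castRingHom ℤ_[l]) * (ρ l g : Matrix (Fin n) (Fin n) ℤ_[l]) =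
          (σ l g : Matrix (Fin a) (Fin a) ℤ_[l]) * X.map (Int.castRingHom ℤ_[l])) →
        ∀ g, X.map (Int.castRingHom ℚ_[l]) * rat (ρ l) g =
          rat (σ l) g * X.map (Int.castRingHom ℚ_[l]) := fun X σ h g => by
      have h6 := congrArg (fun M => Matrix.map M (algebraMap ℤ_[l] ℚ_[l])) (h g)
      rw [Matrix.map_mul, Matrix.map_mul, hm] at h6
      exact h6
    exact xsm_ss (rat (ρ l)) (rat (ρ₁ l)) (P₁.map (Int.castRingHom ℚ_[l])) T t1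
      (fun g => xsm_T (fun g => rat (ρ l) g) (fun g => rat (ρ₁ l) g) (fun g => rat (ρ₂ l) g)
        (P₁.map (Int.castRingHom ℚ_[l])) (P₂.map (Int.castRingHom ℚ_[l])) T T' t1 t4 t5
        (hPr P₁ ρ₁ (hP₁ l)) (hPr P₂ ρ₂ (hP₂ l)) g) (hss l)
  have hcm₁ : ∀ i, (b₁ i).Cmp S ρ₁ := by
    intro i p hp hpS 𝔓 h𝔓 j σ hj hσ
    obtain ⟨Φ, hΦ⟩ := (hb (φ₁ i)).2.1 p hp hpS 𝔓 h𝔓 j σ hj hσ
    exact ⟨Φ, fun l _ hl Ω _ ϑ ι R hR => hΦ l hl Ω ϑ ι R ((hAt₁ i l Ω ϑ ι R).1 hR)⟩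
  have hcm₂ : ∀ i, (b₂ i).Cmp S ρ₂ := by
    intro i p hp hpS 𝔓 h𝔓 j σ hj hσ
    obtain ⟨Φ, hΦ⟩ := (hb (φ₂ i)).2.1 p hp hpS 𝔓 h𝔓 j σ hj hσ
    exact ⟨Φ, fun l _ hl Ω _ ϑ ι R hR => hΦ l hl Ω ϑ ι R ((hAt₂ i l Ω ϑ ι R).1 hR)⟩
  have hfam := hXFM F L r₁ k₁ (fun i => m (φ₁ i)) b₁ S ρ₁ hcont₁ hd₁
    (fun i => ⟨hst₁ i, hcm₁ i⟩)
  have hcomm := hXAC F L r₁ k₁ (fun i => m (φ₁ i)) b₁ ρ₁ hd₁ hst₁ hss₁ Y hYn
    (fun i l _ Ω _ _ ϑ ι R hR x hx =>
      hnil (φ₁ i) (hφ₁ i) l Ω ϑ ι R ((hAt₁ i l Ω ϑ ι R).1 hR) x hx)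
  obtain ⟨c₁, hc₁⟩ := hXPF F S r₁ ρ₁ hfam hss₁ Y hYo hcomm
  -- the irreducible part
  obtain ⟨c₂, hc₂⟩ := hXEE F L r₂ k₂ (fun i => m (φ₂ i)) b₂ S ρ₂ hcont₂ hd₂ (fun i => by
    refine ⟨hst₂ i, hcm₂ i, ?_⟩
    obtain ⟨c, hc⟩ := hirl (φ₂ i) (Finset.mem_compl.1 (hφ₂ i))
    exact ⟨c, fun l _ hl Ω _ ϑ ι R h0 hR =>
      hc l hl Ω ϑ ι R h0 ((hAt₂ i l Ω ϑ ι R).1 hR)⟩)
  obtain ⟨h01, N₁, hN₁, hbN₁, hsum₁⟩ := id hd₁
  obtain ⟨h02, N₂, hN₂, hbN₂, hsum₂⟩ := id hd₂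
  refine ⟨c₀ + c₁ + c₂ + D + N₁ + N₂, fun l _ hl => ?_⟩
  have hunit : ∀ a : ℕ, 0 < a → a < l → ∃ u : ℤ_[l], u * (a : ℤ_[l]) = 1 := by
    intro a ha hal
    have h6 : IsUnit (a : ℤ_[l]) := by
      rw [PadicInt.isUnit_iff]
      refine le_antisymm (PadicInt.norm_le_one _) (not_lt.1 fun h7 => ?_)
      have h8 : ((a : ℤ) : ℤ_[l]) = (a : ℤ_[l]) := by push_cast; rfl
      rw [← h8, PadicInt.norm_int_lt_one_iff_dvd] at h7
      exact absurd (Nat.le_of_dvd ha (by exact_mod_cast h7)) (not_le.2 hal)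
    obtain ⟨u, hu⟩ := h6
    exact ⟨((u⁻¹ : ℤ_[l]ˣ) : ℤ_[l]), by rw [← hu]; exact Units.inv_mul u⟩
  obtain ⟨u, hu⟩ := hunit D hD (by omega)
  obtain ⟨T, T', t1, t2, t3, t4, t5⟩ := xsm_split P₁ P₂ Z₁ Z₂ hz1 hz2 hz3 hz4 hz5 u hu
  let Ω := AlgebraicClosure (ZMod l)
  let κ : ZMod l →+* Ω := algebraMap (ZMod l) Ω
  let ϑ : ℤ_[l] →+* Ω := κ.comp (PadicInt.toZMod (p := l))
  obtain ⟨ι⟩ := xee_iota L Ω
  have hl0 : (l : Ω) = 0 := by
    rw [← map_natCast κ, ZMod.natCast_self, map_zero]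
  have hne : ∀ a : ℕ, 0 < a → a < l → (a : Ω) ≠ 0 := by
    intro a ha hal
    rw [← map_natCast κ]
    intro h
    have h1 : ((a : ℕ) : ZMod l) = 0 := κ.injective (by rw [h, map_zero])
    rw [ZMod.natCast_eq_zero_iff] at h1
    exact absurd (Nat.le_of_dvd ha h1) (not_le.2 hal)
  choose R₁ hR₁ using fun i => hst₁ i l Ω ϑ ι (by rw [hbN₁ i]; exact hne N₁ hN₁ (by omega))
  choose R₂ hR₂ using fun i => hst₂ i l Ω ϑ ι (by rw [hbN₂ i]; exact hne N₂ hN₂ (by omega))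
  have hιid : ι.comp (RingOfIntegers.mapRingHom (RingHom.id L)) = ι := by
    ext x
    rw [RingHom.comp_apply]
    congr 1
  have hhom : ∀ i j, Hmk (R₁ i) (R₂ j) = ⊥ ∧ Hmk (R₂ j) (R₁ i) = ⊥ := fun i j =>
    hc₀ l (by omega) Ω ϑ ι (RingHom.id L) hl0 (φ₁ i) (hφ₁ i) (φ₂ j)
      (Finset.mem_compl.1 (hφ₂ j)) (R₁ i) (R₂ j)
      (by rw [hιid]; exact (hAt₁ i l Ω ϑ ι (R₁ i)).1 (hR₁ i)) ((hAt₂ j l Ω ϑ ι (R₂ j)).1 (hR₂ j))
  obtain ⟨q₁, q11, q12, q13, q14⟩ := xsm_dcp b₁ h01 hbN₁ hsum₁ (ρ₁ l) ϑ ι R₁ hR₁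
    (hne N₁ hN₁ (by omega))
  obtain ⟨q₂, q21, q22, q23, q24⟩ := xsm_dcp b₂ h02 hbN₂ hsum₂ (ρ₂ l) ϑ ι R₂ hR₂
    (hne N₂ hN₂ (by omega))
  have hup : ∀ {a a' : ℕ} (σ : Fml F a) (σ' : Fml F a') (v : Matrix (Fin a') (Fin a) (ZMod l)),
      (∀ g, v * res (σ l) g = res (σ' l) g * v) →
      ∀ g, v.map κ * (σ l g : Matrix (Fin a) (Fin a) ℤ_[l]).map ϑ =
        (σ' l g : Matrix (Fin a') (Fin a') ℤ_[l]).map ϑ * v.map κ := fun σ σ' v h g => by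
    have h6 := congrArg (fun M => Matrix.map M κ) (h g)
    rw [Matrix.map_mul, Matrix.map_mul] at h6
    exact h6
  have hinj : ∀ {a a' : ℕ} (v : Matrix (Fin a') (Fin a) (ZMod l)), v.map κ = 0 → v = 0 :=
    fun v h => Matrix.map_injective κ.injective (h.trans (Matrix.map_zero _ (map_zero _)).symm)
  refine xsm_sug hSUG (ρ l) (ρ₁ l) (ρ₂ l) (P₁.map (Int.castRingHom ℤ_[l]))
    (P₂.map (Int.castRingHom ℤ_[l])) T T' t1 t2 t3 t4 t5 (hP₁ l) (hP₂ l) (hc₁ l (by omega))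
    (hc₂ l (by omega)) (fun v hv => ?_) (fun v hv => ?_)
  · exact hinj v (xsm_hom0 _ _ R₁ R₂ (fun i => (b₁ i).P.map ι) q₁ (fun i => (b₂ i).P.map ι) q₂ q11
      q12 q13 q14 q23 q24 (fun i j => (hhom i j).1) (v.map κ) (hup ρ₁ ρ₂ v hv))
  · exact hinj v (xsm_hom0 _ _ R₂ R₁ (fun i => (b₂ i).P.map ι) q₂ (fun i => (b₁ i).P.map ι) q₁ q21
      q22 q23 q24 q13 q14 (fun i j => (hhom j i).2) (v.map κ) (hup ρ₂ ρ₁ v hv))

/-- XSM -/
theorem st_XSM (hXGL : ST_XGL) (hXEN : ST_XEN) (hXBS : ST_XBS) (hXRA : ST_XRA) (hXIG : ST_XIG)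
    (hXSB : ST_XSB) (hXFM : ST_XFM) (hXAC : ST_XAC) (hXPF : ST_XPF) (hXEE : ST_XEE)
    (hSUG : ST_SUG) : ST_XSM := by
  intro F L _ _ _ _ n k m b S ρ hcont hss hd hb
  obtain ⟨L', _, _, hgal, ⟨f⟩, -⟩ := hXGL F L
  haveI := hgal
  obtain ⟨hE1, hE2⟩ := hXEN L L' f n
  refine xsm_core hXBS hXRA hXIG hXSB hXFM hXAC hXPF hXEE hSUG F L' n k m (fun i => (b i).ext f) S
    ρ hcont hss (hE1 k m b hd) fun i => ?_
  obtain ⟨a1, a2, a3, -, -, -, a4⟩ := hE2 (m i) (b i) F ρ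
  exact ⟨a1 (hb i).1, a2 S (hb i).2.1, (hb i).2.2.imp a3 a4.1⟩

end REC
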